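import Mathlib

set_option autoImplicit false

namespace Pool.Agent.H230Z.CFG

open ContextFreeGrammar

section general
variable {T N : Type}

def sym (I : N → Language T) : Symbol T N → Language T
  | .terminal t => {[t]}
  | .nonterminal n => I n

def ev (I : N → Language T) (l : List (Symbol T N)) : Language T := (l.map (sym I)).prod

@[simp] lemma ev_nil (I : N → Language T) : ev I [] = 1 := rfl

lemma ev_cons (I : N → Language T) (a : Symbol T N) (l : List (Symbol T N)) :
    ev I (a :: l) = sym I a * ev I l := by simp [ev]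

lemma ev_append (I : N → Language T) (p q : List (Symbol T N)) :
    ev I (p ++ q) = ev I p * ev I q := by simp [ev]

lemma mem_ev_nil (I : N → Language T) (w : List T) : w ∈ ev I [] ↔ w = [] := by
  simp [Language.mem_one]

lemma mem_ev_t (I : N → Language T) (t : T) (l : List (Symbol T N)) (w : List T) :
    w ∈ ev I (.terminal t :: l) ↔ ∃ w' ∈ ev I l, w = t :: w' := by
  rw [ev_cons, Language.mem_mul]
  constructor
  · rintro ⟨a, ha, b, hb, rfl⟩
    have : a = [t] := ha
    subst this
    exact ⟨b, hb, rfl⟩
  · rintro ⟨b, hb, rfl⟩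
    exact ⟨[t], rfl, b, hb, rfl⟩

lemma mem_ev_n (I : N → Language T) (n : N) (l : List (Symbol T N)) (w : List T) :
    w ∈ ev I (.nonterminal n :: l) ↔ ∃ a ∈ I n, ∃ w' ∈ ev I l, w = a ++ w' := by
  rw [ev_cons, Language.mem_mul]
  constructor
  · rintro ⟨a, ha, b, hb, rfl⟩
    exact ⟨a, ha, b, hb, rfl⟩
  · rintro ⟨a, ha, b, hb, rfl⟩
    exact ⟨a, ha, b, hb, rfl⟩

lemma mem_ev_map (I : N → Language T) (w : List T) : w ∈ ev I (w.map Symbol.terminal) := by
  induction w with
  | nil => exact (mem_ev_nil I _).2 rfl
  | cons t w ih => exact (mem_ev_t I t _ _).2 ⟨w, ih, rfl⟩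

end general

lemma lmul {T : Type} {a b c d : Language T} (h1 : a ≤ b) (h2 : c ≤ d) : a * c ≤ b * d := by
  intro w hw
  obtain ⟨x, hx, y, hy, rfl⟩ := Language.mem_mul.1 hw
  exact Language.mem_mul.2 ⟨x, h1 hx, y, h2 hy, rfl⟩

variable {T : Type} (g : ContextFreeGrammar T)

lemma ev_of_derives (I : g.NT → Language T) (h : ∀ r ∈ g.rules, ev I r.output ≤ I r.input)
    {u v : List (Symbol T g.NT)} (huv : g.Derives u v) : ev I v ≤ ev I u := by
  induction huv with
  | refl => exact le_rfl
  | tail _ last ih =>
    refine le_trans ?_ ih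
    obtain ⟨r, hr, hrw⟩ := last
    obtain ⟨p, q, rfl, rfl⟩ := hrw.exists_parts
    rw [ev_append, ev_append, ev_append, ev_append]
    refine lmul (lmul le_rfl ?_) le_rfl
    refine (h r hr).trans ?_
    rw [ev_cons, ev_nil, mul_one]
    exact le_rfl

def L (n : g.NT) : Language T := {w | g.Derives [Symbol.nonterminal n] (w.map Symbol.terminal)}

theorem sound (I : g.NT → Language T) (h : ∀ r ∈ g.rules, ev I r.output ≤ I r.input)
    (n : g.NT) : L g n ≤ I n := by
  intro w hw
  have := ev_of_derives g I h hw (mem_ev_map I w)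
  rwa [ev_cons, ev_nil, mul_one] at this

lemma derives_of_ev (l : List (Symbol T g.NT)) :
    ∀ w ∈ ev (L g) l, g.Derives l (w.map Symbol.terminal) := by
  induction l with
  | nil =>
    intro w hw
    rw [mem_ev_nil] at hw
    subst hw
    exact Derives.refl _
  | cons a l ih =>
    intro w hw
    cases a with
    | terminal t =>
      obtain ⟨w', hw', rfl⟩ := (mem_ev_t _ _ _ _).1 hw
      exact (ih w' hw').append_left [Symbol.terminal t]
    | nonterminal n =>
      obtain ⟨a, ha, w', hw', rfl⟩ := (mem_ev_n _ _ _ _).1 hw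
      rw [List.map_append]
      have h1 := Derives.append_right ha l
      exact h1.trans ((ih w' hw').append_left _)

theorem closedL (r : ContextFreeRule T g.NT) (hr : r ∈ g.rules) :
    ev (L g) r.output ≤ L g r.input := by
  intro w hw
  have h1 : g.Produces [Symbol.nonterminal r.input] r.output :=
    ⟨r, hr, ContextFreeRule.Rewrites.input_output⟩
  exact h1.trans_derives (derives_of_ev g _ w hw)

lemma language_eq : g.language = L g g.initial := rfl

end Pool.Agent.H230Z.CFG
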