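import Mathlib

set_option autoImplicit false

namespace Pool.Agent.H230Z.CFW

def sg : Bool → ℤ
  | true => 1
  | false => -1

inductive Mp : ℤ → List Bool → Prop
  | base (y : List Bool) : Mp 0 y
  | zero (d : ℤ) (w : List Bool) : |d| ≤ 4 → Mp (d + 1) w → Mp d (w ++ [false])
  | one (d : ℤ) (a : Bool) (w : List Bool) : |d| ≤ 4 → Mp (d - sg a) w → Mp d (a :: w ++ [true])

def Bad (w : List Bool) : Prop := ∃ x m z, w = x ++ m ++ z ∧ (Mp 4 m ∨ Mp (-4) m)

lemma Bad.append_right {w : List Bool} (h : Bad w) (z : List Bool) : Bad (w ++ z) := by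
  obtain ⟨x, m, y, rfl, hm⟩ := h
  exact ⟨x, m, y ++ z, by simp, hm⟩

lemma Bad.append_left {w : List Bool} (h : Bad w) (z : List Bool) : Bad (z ++ w) := by
  obtain ⟨x, m, y, rfl, hm⟩ := h
  exact ⟨z ++ x, m, y, by simp, hm⟩

lemma Mp.parts {d : ℤ} {m : List Bool} (h : Mp d m) :
    ∃ u y v : List Bool, m = u ++ y ++ v ∧ u.length = v.count true ∧
      d = 2 * (u.count true : ℤ) - v.length := by
  induction h with
  | base y => exact ⟨[], y, [], by simp, by simp, by simp⟩
  | zero d w _ _ ih =>
    obtain ⟨u, y, v, rfl, h1, h2⟩ := ih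
    refine ⟨u, y, v ++ [false], by simp, by simp [h1], ?_⟩
    simp only [List.length_append, List.length_singleton]
    push_cast
    omega
  | one d a w _ _ ih =>
    obtain ⟨u, y, v, rfl, h1, h2⟩ := ih
    refine ⟨a :: u, y, v ++ [true], by simp, by simp [h1], ?_⟩
    simp only [List.length_append, List.length_singleton]
    cases a <;> simp [sg] at h2 ⊢ <;> omega

lemma bad_or (y : List Bool) (v : List Bool) : ∀ u : List Bool, u.length = v.count true →
    Bad (u ++ y ++ v) ∨ (|2 * (u.count true : ℤ) - v.length| < 4 ∧
      Mp (2 * (u.count true : ℤ) - v.length) (u ++ y ++ v)) := by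
  induction v using List.reverseRecOn with
  | nil =>
    intro u hu
    have : u = [] := by simpa using hu
    subst this
    right
    simpa using Mp.base y
  | append_singleton v b ih =>
    intro u hu
    have key : ∀ (d : ℤ) (w : List Bool), |d| ≤ 4 → Mp d w → Bad w ∨ (|d| < 4 ∧ Mp d w) := by
      intro d w hd hm
      rcases lt_or_eq_of_le hd with h | h
      · exact Or.inr ⟨h, hm⟩
      · left
        refine ⟨[], w, [], by simp, ?_⟩
        rcases abs_eq (by norm_num : (0 : ℤ) ≤ 4) |>.1 h with h | h
        · exact Or.inl (h ▸ hm)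
        · exact Or.inr (h ▸ hm)
    cases b with
    | false =>
      have hu' : u.length = v.count true := by simpa using hu
      rcases ih u hu' with h | ⟨h1, h2⟩
      · left
        rw [← List.append_assoc]
        exact h.append_right _
      · have hd : |2 * (u.count true : ℤ) - ((v ++ [false]).length : ℕ)| ≤ 4 := by
          simp only [List.length_append, List.length_singleton]
          push_cast
          rw [abs_lt] at h1
          rw [abs_le]
          omega
        apply key _ _ hd
        rw [← List.append_assoc]
        apply Mp.zero _ _ hd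
        convert h2 using 1
        simp only [List.length_append, List.length_singleton]
        push_cast
        ring
    | true =>
      have hu' : u.length = v.count true + 1 := by simpa using hu
      cases u with
      | nil => simp at hu'
      | cons a u =>
        have hu'' : u.length = v.count true := by simpa using hu'
        have e : (2 * ((a :: u).count true : ℤ) - ((v ++ [true]).length : ℕ)) - sg a =
            2 * (u.count true : ℤ) - v.length := by
          simp only [List.length_append, List.length_singleton]
          cases a <;> simp [sg] <;> ring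
        rcases ih u hu'' with h | ⟨h1, h2⟩
        · left
          have := (h.append_right [true]).append_left [a]
          simpa using this
        · have hd : |2 * ((a :: u).count true : ℤ) - ((v ++ [true]).length : ℕ)| ≤ 4 := by
            rw [← e, abs_lt] at h1
            rw [abs_le]
            cases a <;> simp only [sg] at h1 <;> omega
          apply key _ _ hd
          have := Mp.one _ a (u ++ y ++ v) hd (e ▸ h2)
          simpa using this

def pw (w : List Bool) (n : ℕ) : List Bool := (List.replicate n w).flatten

lemma pw_add (w : List Bool) (a b : ℕ) : pw w (a + b) = pw w a ++ pw w b := by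
  unfold pw
  rw [List.replicate_add, List.flatten_append]

lemma pw_one (w : List Bool) : pw w 1 = w := by simp [pw]

lemma pw_length (w : List Bool) (n : ℕ) : (pw w n).length = n * w.length := by
  induction n with
  | zero => simp [pw]
  | succ n ih => rw [pw_add, pw_one, List.length_append, ih]; ring

lemma pw_count (w : List Bool) (n : ℕ) : (pw w n).count true = n * w.count true := by
  induction n with
  | zero => simp [pw]
  | succ n ih => rw [pw_add, pw_one, List.count_append, ih]; ring

lemma two_sq_ne (p q : ℕ) (hq : 0 < q) : 2 * (p : ℤ) ^ 2 - (q : ℤ) ^ 2 ≠ 0 := by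
  intro h
  have hp : p ≠ 0 := by
    rintro rfl
    have : (q : ℤ) ^ 2 = 0 := by simpa using h
    have : (q : ℤ) = 0 := by simpa using this
    omega
  apply irrational_sqrt_two
  refine ⟨(q : ℚ) / p, ?_⟩
  have hp' : (0 : ℝ) < p := by positivity
  have h' : 2 * (p : ℝ) ^ 2 - (q : ℝ) ^ 2 = 0 := by exact_mod_cast h
  symm
  push_cast
  rw [Real.sqrt_eq_iff_mul_self_eq (by norm_num) (by positivity)]
  field_simp
  linarith

theorem exists_bad_pw (w : List Bool) (hw : w ≠ []) : ∃ N, 1 ≤ N ∧ Bad (pw w N) := by
  have hq : 0 < w.length := List.length_pos_iff.2 hw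
  refine ⟨4 * w.count true + 4 * w.length, by omega, ?_⟩
  rw [pw_add]
  have h := bad_or [] (pw w (4 * w.length)) (pw w (4 * w.count true))
    (by rw [pw_length, pw_count]; ring)
  rcases h with h | ⟨h, -⟩
  · simpa using h
  · exfalso
    rw [pw_length, pw_count] at h
    have h2 := two_sq_ne (w.count true) w.length hq
    have e : 2 * ((4 * w.count true * w.count true : ℕ) : ℤ) - ((4 * w.length * w.length : ℕ) : ℤ)
        = 4 * (2 * (w.count true : ℤ) ^ 2 - (w.length : ℤ) ^ 2) := by
      push_cast; ring
    rw [e, abs_lt] at h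
    omega

noncomputable def al : ℝ := Real.sqrt 2 / 2

lemma al_sq : 2 * al ^ 2 = 1 := by
  unfold al
  have := Real.sq_sqrt (show (0 : ℝ) ≤ 2 by norm_num)
  nlinarith

lemma al_pos : 0 < al := by unfold al; positivity

lemma al_lt : al < 1 := by
  have := al_sq
  have := al_pos
  nlinarith

def Bal : ℝ → List Bool → Prop
  | x, [] => 0 ≤ x ∧ x < 1
  | x, a :: w => (0 ≤ x ∧ x < 1) ∧ Bal (x + al - (if a then 1 else 0)) w

lemma Bal.bd {x : ℝ} {w : List Bool} (h : Bal x w) : 0 ≤ x ∧ x < 1 := by
  cases w with
  | nil => exact h
  | cons a w => exact h.1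

lemma Bal.drop (u : List Bool) : ∀ {x : ℝ} {v : List Bool}, Bal x (u ++ v) →
    Bal (x + al * u.length - u.count true) v := by
  induction u with
  | nil => intro x v h; simpa using h
  | cons a u ih =>
    intro x v h
    have := ih h.2
    convert this using 1
    cases a <;> simp <;> ring

lemma Bal.disc {x : ℝ} {p u q : List Bool} (h : Bal x (p ++ u ++ q)) :
    |al * u.length - u.count true| < 1 := by
  rw [List.append_assoc] at h
  have h1 := Bal.drop p h
  have h2 := (Bal.drop u h1).bd
  have h3 := h1.bd
  rw [abs_lt]
  constructor <;> linarith [h2.1, h2.2, h3.1, h3.2]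

theorem Bal.not_bad {x : ℝ} {w : List Bool} (h : Bal x w) : ¬ Bad w := by
  rintro ⟨p, m, q, rfl, hm⟩
  have key : ∀ d : ℤ, Mp d m → |(d : ℝ)| < 4 := by
    intro d hd
    obtain ⟨u, y, v, rfl, h1, h2⟩ := hd.parts
    have a1 : |al * u.length - u.count true| < 1 :=
      Bal.disc (x := x) (p := p) (q := y ++ v ++ q) (by simpa using h)
    have a2 : |al * v.length - v.count true| < 1 :=
      Bal.disc (x := x) (p := p ++ u ++ y) (q := q) (by simpa using h)
    have h1' : (u.length : ℝ) = v.count true := by exact_mod_cast h1
    have h2' : (d : ℝ) = 2 * (u.count true : ℝ) - v.length := by exact_mod_cast h2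
    have e : (d : ℝ) = -2 * (al * u.length - u.count true) -
        2 * al * (al * v.length - v.count true) := by
      rw [h2', h1']
      have := al_sq
      linear_combination (v.length : ℝ) * this
    have := al_pos
    have := al_lt
    rw [abs_lt] at a1 a2 ⊢
    rw [e]
    constructor <;> nlinarith [a1.1, a1.2, a2.1, a2.2]
  rcases hm with hm | hm
  · have := key _ hm
    norm_num at this
  · have := key _ hm
    norm_num at this

theorem exists_bal (n : ℕ) : ∀ x : ℝ, 0 ≤ x → x < 1 → ∃ w : List Bool, w.length = n ∧ Bal x w := by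
  induction n with
  | zero => intro x h1 h2; exact ⟨[], rfl, h1, h2⟩
  | succ n ih =>
    intro x h1 h2
    have := al_pos
    have := al_lt
    by_cases h : x + al < 1
    · obtain ⟨w, hw, hb⟩ := ih (x + al) (by linarith) h
      exact ⟨false :: w, by simp [hw], ⟨h1, h2⟩, by simpa using hb⟩
    · obtain ⟨w, hw, hb⟩ := ih (x + al - 1) (by linarith) (by linarith)
      exact ⟨true :: w, by simp [hw], ⟨h1, h2⟩, by simpa using hb⟩

theorem exists_not_bad (n : ℕ) : ∃ w : List Bool, w.length = n ∧ ¬ Bad w := by
  obtain ⟨w, hw, hb⟩ := exists_bal n 0 le_rfl one_pos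
  exact ⟨w, hw, hb.not_bad⟩

end Pool.Agent.H230Z.CFW
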