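import Pool.Agent.H230Z.CFG
import Pool.Agent.H230Z.CFWords

set_option autoImplicit false
set_option linter.unusedSimpArgs false

namespace Pool.Agent.H230Z.CFGram

open Pool.Agent.H230Z.CFG Pool.Agent.H230Z.CFW

inductive NT : Type
  | S : NT
  | P : NT
  | Y : NT
  | I : Bool → NT
  | M : Bool → ℤ → NT
  deriving DecidableEq

abbrev Sy := Symbol (Option Bool) NT

def t (a : Bool) : Sy := Symbol.terminal (some a)
def hs : Sy := Symbol.terminal none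
def n (x : NT) : Sy := Symbol.nonterminal x

inductive IsRule : ContextFreeRule (Option Bool) NT → Prop
  | s1 : IsRule ⟨NT.S, [n NT.P]⟩
  | s2 : IsRule ⟨NT.S, [n (NT.I false), hs, n (NT.I true)]⟩
  | p1 (a : Bool) : IsRule ⟨NT.P, [t a, n NT.P, t a]⟩
  | p2 (a : Bool) : IsRule ⟨NT.P, [t a, hs, t a]⟩
  | y1 : IsRule ⟨NT.Y, []⟩
  | y2 (a : Bool) : IsRule ⟨NT.Y, [t a, n NT.Y]⟩
  | i1 (s : Bool) : IsRule ⟨NT.I s, [n NT.Y, n (NT.M s 4), n NT.Y]⟩
  | i2 (s : Bool) : IsRule ⟨NT.I s, [n NT.Y, n (NT.M s (-4)), n NT.Y]⟩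
  | m0 (s : Bool) : IsRule ⟨NT.M s 0, [n NT.Y]⟩
  | m1 (d : ℤ) : |d| ≤ 4 → IsRule ⟨NT.M false d, [n (NT.M false (d + 1)), t false]⟩
  | m2 (d : ℤ) (a : Bool) : |d| ≤ 4 →
      IsRule ⟨NT.M false d, [t a, n (NT.M false (d - sg a)), t true]⟩
  | m3 (d : ℤ) : |d| ≤ 4 → IsRule ⟨NT.M true d, [t false, n (NT.M true (d + 1))]⟩
  | m4 (d : ℤ) (a : Bool) : |d| ≤ 4 →
      IsRule ⟨NT.M true d, [t true, n (NT.M true (d - sg a)), t a]⟩

def allRules (d : ℤ) (a : Bool) : List (ContextFreeRule (Option Bool) NT) :=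
  [⟨NT.S, [n NT.P]⟩, ⟨NT.S, [n (NT.I false), hs, n (NT.I true)]⟩, ⟨NT.P, [t a, n NT.P, t a]⟩,
   ⟨NT.P, [t a, hs, t a]⟩, ⟨NT.Y, []⟩, ⟨NT.Y, [t a, n NT.Y]⟩,
   ⟨NT.I a, [n NT.Y, n (NT.M a 4), n NT.Y]⟩, ⟨NT.I a, [n NT.Y, n (NT.M a (-4)), n NT.Y]⟩,
   ⟨NT.M a 0, [n NT.Y]⟩, ⟨NT.M false d, [n (NT.M false (d + 1)), t false]⟩,
   ⟨NT.M false d, [t a, n (NT.M false (d - sg a)), t true]⟩,
   ⟨NT.M true d, [t false, n (NT.M true (d + 1))]⟩,
   ⟨NT.M true d, [t true, n (NT.M true (d - sg a)), t a]⟩]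

lemma finite_rules : {r | IsRule r}.Finite := by
  have h : (⋃ d ∈ Set.Icc (-4 : ℤ) 4, ⋃ a : Bool, {r | r ∈ allRules d a}).Finite :=
    (Set.finite_Icc _ _).biUnion fun d _ => Set.finite_iUnion fun a => List.finite_toSet _
  refine h.subset ?_
  intro r hr
  simp only [Set.mem_iUnion, Set.mem_Icc, Set.mem_setOf_eq, exists_prop]
  have hr' : IsRule r := hr
  cases hr' with
  | s1 => exact ⟨0, by norm_num, true, by simp [allRules]⟩
  | s2 => exact ⟨0, by norm_num, true, by simp [allRules]⟩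
  | p1 a => exact ⟨0, by norm_num, a, by simp [allRules]⟩
  | p2 a => exact ⟨0, by norm_num, a, by simp [allRules]⟩
  | y1 => exact ⟨0, by norm_num, true, by simp [allRules]⟩
  | y2 a => exact ⟨0, by norm_num, a, by simp [allRules]⟩
  | i1 a => exact ⟨0, by norm_num, a, by simp [allRules]⟩
  | i2 a => exact ⟨0, by norm_num, a, by simp [allRules]⟩
  | m0 a => exact ⟨0, by norm_num, a, by simp [allRules]⟩
  | m1 d hd => exact ⟨d, abs_le.1 hd, true, by simp [allRules]⟩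
  | m2 d a hd => exact ⟨d, abs_le.1 hd, a, by simp [allRules]⟩
  | m3 d hd => exact ⟨d, abs_le.1 hd, true, by simp [allRules]⟩
  | m4 d a hd => exact ⟨d, abs_le.1 hd, a, by simp [allRules]⟩

noncomputable def gr : ContextFreeGrammar (Option Bool) where
  NT := NT
  initial := NT.S
  rules := finite_rules.toFinset

lemma mem_rules (r : ContextFreeRule (Option Bool) NT) : r ∈ gr.rules ↔ IsRule r := by
  show r ∈ finite_rules.toFinset ↔ _
  simp

def ori (s : Bool) (w : List Bool) : List Bool := if s then w.reverse else w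

def WP : Language (Option Bool) :=
  {w | ∃ u v : List Bool, u ≠ [] ∧ v ≠ [] ∧ (u = v ∨ (Bad u ∧ Bad v)) ∧
    w = u.map some ++ [none] ++ v.reverse.map some}

def interp : NT → Language (Option Bool)
  | NT.S => WP
  | NT.P => {w | ∃ u : List Bool, u ≠ [] ∧ w = u.map some ++ [none] ++ u.reverse.map some}
  | NT.Y => {w | ∃ u : List Bool, w = u.map some}
  | NT.I s => {w | ∃ u : List Bool, Bad u ∧ w = (ori s u).map some}
  | NT.M s d => {w | ∃ u : List Bool, Mp d u ∧ w = (ori s u).map some}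

lemma bad_ne_nil {u : List Bool} (h : Bad u) : u ≠ [] := by
  rintro rfl
  exact (show Bal 0 [] from ⟨le_rfl, one_pos⟩).not_bad h

lemma ori_ori (s : Bool) (u : List Bool) : ori s (ori s u) = u := by
  cases s <;> simp [ori]

lemma rule_sound (r : ContextFreeRule (Option Bool) NT) (hr : IsRule r) :
    ev interp r.output ≤ interp r.input := by
  intro w hw
  have hw' : w ∈ ev interp r.output := hw
  clear hw
  cases hr with
  | s1 =>
    simp only [n, t, hs, mem_ev_t, mem_ev_n, mem_ev_nil] at hw'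
    obtain ⟨a, ⟨u, hu, rfl⟩, w', rfl, rfl⟩ := hw'
    exact ⟨u, u, hu, hu, Or.inl rfl, by simp⟩
  | s2 =>
    simp only [n, t, hs, mem_ev_t, mem_ev_n, mem_ev_nil] at hw'
    obtain ⟨a, ⟨u, hu, rfl⟩, w', ⟨w'', ⟨b, ⟨v, hv, rfl⟩, x, rfl, rfl⟩, rfl⟩, rfl⟩ := hw'
    exact ⟨u, v, bad_ne_nil hu, bad_ne_nil hv, Or.inr ⟨hu, hv⟩, by simp [ori]⟩
  | p1 a =>
    simp only [n, t, hs, mem_ev_t, mem_ev_n, mem_ev_nil] at hw'
    obtain ⟨w', ⟨b, ⟨u, hu, rfl⟩, x, ⟨y, rfl, rfl⟩, rfl⟩, rfl⟩ := hw'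
    exact ⟨a :: u, by simp, by simp⟩
  | p2 a =>
    simp only [n, t, hs, mem_ev_t, mem_ev_n, mem_ev_nil] at hw'
    obtain ⟨w', ⟨b, ⟨y, rfl, rfl⟩, rfl⟩, rfl⟩ := hw'
    exact ⟨[a], by simp, by simp⟩
  | y1 =>
    simp only [mem_ev_nil] at hw'
    exact ⟨[], by simp [hw']⟩
  | y2 a =>
    simp only [n, t, hs, mem_ev_t, mem_ev_n, mem_ev_nil] at hw'
    obtain ⟨w', ⟨b, ⟨u, rfl⟩, x, rfl, rfl⟩, rfl⟩ := hw'
    exact ⟨a :: u, by simp⟩
  | i1 s =>
    simp only [n, t, hs, mem_ev_t, mem_ev_n, mem_ev_nil] at hw'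
    obtain ⟨a, ⟨x, rfl⟩, w', ⟨b, ⟨m, hm, rfl⟩, c, ⟨e, ⟨z, rfl⟩, f, rfl, rfl⟩, rfl⟩, rfl⟩ := hw'
    cases s with
    | false => exact ⟨x ++ m ++ z, ⟨x, m, z, rfl, Or.inl hm⟩, by simp [ori]⟩
    | true => exact ⟨z.reverse ++ m ++ x.reverse, ⟨_, m, _, rfl, Or.inl hm⟩, by simp [ori]⟩
  | i2 s =>
    simp only [n, t, hs, mem_ev_t, mem_ev_n, mem_ev_nil] at hw'
    obtain ⟨a, ⟨x, rfl⟩, w', ⟨b, ⟨m, hm, rfl⟩, c, ⟨e, ⟨z, rfl⟩, f, rfl, rfl⟩, rfl⟩, rfl⟩ := hw'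
    cases s with
    | false => exact ⟨x ++ m ++ z, ⟨x, m, z, rfl, Or.inr hm⟩, by simp [ori]⟩
    | true => exact ⟨z.reverse ++ m ++ x.reverse, ⟨_, m, _, rfl, Or.inr hm⟩, by simp [ori]⟩
  | m0 s =>
    simp only [n, t, hs, mem_ev_t, mem_ev_n, mem_ev_nil] at hw'
    obtain ⟨a, ⟨x, rfl⟩, w', rfl, rfl⟩ := hw'
    exact ⟨ori s x, Mp.base _, by simp [ori_ori]⟩
  | m1 d hd =>
    simp only [n, t, hs, mem_ev_t, mem_ev_n, mem_ev_nil] at hw'
    obtain ⟨a, ⟨m, hm, rfl⟩, w', ⟨x, rfl, rfl⟩, rfl⟩ := hw'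
    exact ⟨m ++ [false], Mp.zero d m hd hm, by simp [ori]⟩
  | m2 d a hd =>
    simp only [n, t, hs, mem_ev_t, mem_ev_n, mem_ev_nil] at hw'
    obtain ⟨w', ⟨b, ⟨m, hm, rfl⟩, x, ⟨y, rfl, rfl⟩, rfl⟩, rfl⟩ := hw'
    exact ⟨a :: m ++ [true], Mp.one d a m hd hm, by simp [ori]⟩
  | m3 d hd =>
    simp only [n, t, hs, mem_ev_t, mem_ev_n, mem_ev_nil] at hw'
    obtain ⟨w', ⟨b, ⟨m, hm, rfl⟩, x, rfl, rfl⟩, rfl⟩ := hw'
    exact ⟨m ++ [false], Mp.zero d m hd hm, by simp [ori]⟩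
  | m4 d a hd =>
    simp only [n, t, hs, mem_ev_t, mem_ev_n, mem_ev_nil] at hw'
    obtain ⟨w', ⟨b, ⟨m, hm, rfl⟩, x, ⟨y, rfl, rfl⟩, rfl⟩, rfl⟩ := hw'
    exact ⟨a :: m ++ [true], Mp.one d a m hd hm, by simp [ori]⟩

abbrev LL : NT → Language (Option Bool) := L gr

lemma use_rule {x : NT} {o : List Sy} (h : IsRule ⟨x, o⟩) {w : List (Option Bool)}
    (hw : w ∈ ev LL o) : w ∈ LL x :=
  closedL gr ⟨x, o⟩ ((mem_rules _).2 h) hw

lemma compY (u : List Bool) : u.map some ∈ LL NT.Y := by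
  induction u with
  | nil => exact use_rule IsRule.y1 ((mem_ev_nil _ _).2 rfl)
  | cons a u ih =>
    apply use_rule (IsRule.y2 a)
    simp only [n, t, hs, mem_ev_t, mem_ev_n, mem_ev_nil]
    exact ⟨_, ⟨_, ih, _, rfl, rfl⟩, by simp⟩

lemma compP (u : List Bool) : ∀ a : Bool,
    (a :: u).map some ++ [none] ++ (a :: u).reverse.map some ∈ LL NT.P := by
  induction u with
  | nil =>
    intro a
    apply use_rule (IsRule.p2 a)
    simp only [n, t, hs, mem_ev_t, mem_ev_n, mem_ev_nil]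
    exact ⟨_, ⟨_, ⟨_, rfl, rfl⟩, rfl⟩, by simp⟩
  | cons b u ih =>
    intro a
    apply use_rule (IsRule.p1 a)
    simp only [n, t, hs, mem_ev_t, mem_ev_n, mem_ev_nil]
    exact ⟨_, ⟨_, ih b, _, ⟨_, rfl, rfl⟩, rfl⟩, by simp⟩

lemma compM (s : Bool) {d : ℤ} {m : List Bool} (h : Mp d m) : (ori s m).map some ∈ LL (NT.M s d) := by
  induction h with
  | base y =>
    apply use_rule (IsRule.m0 s)
    simp only [n, t, hs, mem_ev_t, mem_ev_n, mem_ev_nil]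
    exact ⟨_, compY (ori s y), _, rfl, by simp⟩
  | zero d w hd _ ih =>
    cases s with
    | false =>
      apply use_rule (IsRule.m1 d hd)
      simp only [n, t, hs, mem_ev_t, mem_ev_n, mem_ev_nil]
      exact ⟨_, ih, _, ⟨_, rfl, rfl⟩, by simp [ori]⟩
    | true =>
      apply use_rule (IsRule.m3 d hd)
      simp only [n, t, hs, mem_ev_t, mem_ev_n, mem_ev_nil]
      exact ⟨_, ⟨_, ih, _, rfl, rfl⟩, by simp [ori]⟩
  | one d a w hd _ ih =>
    cases s with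
    | false =>
      apply use_rule (IsRule.m2 d a hd)
      simp only [n, t, hs, mem_ev_t, mem_ev_n, mem_ev_nil]
      exact ⟨_, ⟨_, ih, _, ⟨_, rfl, rfl⟩, rfl⟩, by simp [ori]⟩
    | true =>
      apply use_rule (IsRule.m4 d a hd)
      simp only [n, t, hs, mem_ev_t, mem_ev_n, mem_ev_nil]
      exact ⟨_, ⟨_, ih, _, ⟨_, rfl, rfl⟩, rfl⟩, by simp [ori]⟩

lemma compI (s : Bool) {u : List Bool} (h : Bad u) : (ori s u).map some ∈ LL (NT.I s) := by
  obtain ⟨x, m, z, rfl, hm⟩ := h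
  have key : ∀ d : ℤ, Mp d m →
      (ori s (x ++ m ++ z)).map some ∈ ev LL [n NT.Y, n (NT.M s d), n NT.Y] := by
    intro d hd
    simp only [n, t, hs, mem_ev_t, mem_ev_n, mem_ev_nil]
    cases s with
    | false =>
      exact ⟨_, compY x, _, ⟨_, compM false hd, _, ⟨_, compY z, _, rfl, rfl⟩, rfl⟩, by simp [ori]⟩
    | true =>
      exact ⟨_, compY z.reverse, _, ⟨_, compM true hd, _, ⟨_, compY x.reverse, _, rfl, rfl⟩, rfl⟩,
        by simp [ori]⟩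
  rcases hm with hm | hm
  · exact use_rule (IsRule.i1 s) (key _ hm)
  · exact use_rule (IsRule.i2 s) (key _ hm)

theorem language_gr : gr.language = WP := by
  apply le_antisymm
  · exact sound gr interp (fun r hr => rule_sound r ((mem_rules r).1 hr)) NT.S
  · rintro w ⟨u, v, hu, hv, h, rfl⟩
    show _ ∈ LL NT.S
    rcases h with rfl | ⟨h1, h2⟩
    · apply use_rule IsRule.s1
      simp only [n, t, hs, mem_ev_t, mem_ev_n, mem_ev_nil]
      cases u with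
      | nil => exact absurd rfl hu
      | cons a u => exact ⟨_, compP u a, _, rfl, by simp⟩
    · apply use_rule IsRule.s2
      simp only [n, t, hs, mem_ev_t, mem_ev_n, mem_ev_nil]
      exact ⟨_, compI false h1, _, ⟨_, ⟨_, compI true h2, _, rfl, rfl⟩, rfl⟩, by simp [ori]⟩

theorem WP_cf : WP.IsContextFree := ⟨gr, language_gr⟩

end Pool.Agent.H230Z.CFGram
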