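import Pool.Agent.H230Z.CFGram

set_option autoImplicit false

namespace Pool.Agent.H230Z.CFSemi

open Pool.Agent.H230Z.CFW Pool.Agent.H230Z.CFGram

def toL (x : FreeSemigroup Bool) : List Bool := x.head :: x.tail

lemma toL_mul (x y : FreeSemigroup Bool) : toL (x * y) = toL x ++ toL y := by
  simp [toL]

lemma toL_ne (x : FreeSemigroup Bool) : toL x ≠ [] := by simp [toL]

def R (u v : List Bool) : Prop := u = v ∨ (Bad u ∧ Bad v)

def con : Con (FreeSemigroup Bool) where
  r x y := R (toL x) (toL y)
  iseqv :=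
    { refl := fun _ => Or.inl rfl
      symm := fun h => h.elim (fun h => Or.inl h.symm) fun h => Or.inr ⟨h.2, h.1⟩
      trans := by
        intro x y z h1 h2
        rcases h1 with h1 | h1
        · show R _ _
          rw [h1]; exact h2
        · rcases h2 with h2 | h2
          · show R _ _
            rw [← h2]; exact Or.inr h1
          · exact Or.inr ⟨h1.1, h2.2⟩ }
  mul' := by
    intro w x y z h1 h2
    show R _ _
    rw [toL_mul, toL_mul]
    rcases h1 with h1 | h1
    · rcases h2 with h2 | h2
      · left; rw [h1, h2]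
      · exact Or.inr ⟨h2.1.append_left _, h2.2.append_left _⟩
    · exact Or.inr ⟨h1.1.append_right _, h1.2.append_right _⟩

abbrev SG : Type := con.Quotient

lemma coe_eq (x y : FreeSemigroup Bool) : (x : SG) = (y : SG) ↔ R (toL x) (toL y) :=
  Con.eq con

def gen (a : Bool) : SG := ((FreeSemigroup.of a : FreeSemigroup Bool) : SG)

lemma prod_eq (l : List Bool) : ∀ a : Bool,
    ((a :: l).map (fun a => ((gen a : SG) : WithOne SG))).prod =
      (((⟨a, l⟩ : FreeSemigroup Bool) : SG) : WithOne SG) := by
  induction l with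
  | nil =>
    intro a
    rw [List.map_singleton, List.prod_singleton]
    rfl
  | cons b l ih =>
    intro a
    rw [List.map_cons, List.prod_cons, ih b, ← WithOne.coe_mul]
    rfl

lemma prod_iff (u v : List Bool) (hu : u ≠ []) (hv : v ≠ []) :
    (u.map (fun a => ((gen a : SG) : WithOne SG))).prod =
      (v.map (fun a => ((gen a : SG) : WithOne SG))).prod ↔ R u v := by
  cases u with
  | nil => exact absurd rfl hu
  | cons a u =>
    cases v with
    | nil => exact absurd rfl hv
    | cons b v =>
      rw [prod_eq, prod_eq, WithOne.coe_inj, coe_eq]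
      rfl

theorem infinite_SG : Infinite SG := by
  choose w hw hb using exists_not_bad
  have h : ∀ k : ℕ, ∃ x : FreeSemigroup Bool, toL x = w (k + 1) := by
    intro k
    have := hw (k + 1)
    cases hk : w (k + 1) with
    | nil => rw [hk] at this; simp at this
    | cons a l => exact ⟨⟨a, l⟩, rfl⟩
  choose x hx using h
  refine Infinite.of_injective (fun k : ℕ => ((x k : FreeSemigroup Bool) : SG)) ?_
  intro i j hij
  have := (coe_eq _ _).1 hij
  rw [hx, hx] at this
  rcases this with h | h
  · have h2 := congrArg List.length h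
    rw [hw, hw] at h2
    omega
  · exact absurd h.1 (hb _)

def spw (y : FreeSemigroup Bool) : ℕ → FreeSemigroup Bool
  | 0 => y
  | k + 1 => spw y k * y

lemma toL_spw (y : FreeSemigroup Bool) (k : ℕ) : toL (spw y k) = pw (toL y) (k + 1) := by
  induction k with
  | zero => simp [spw, pw]
  | succ k ih => rw [spw, toL_mul, ih, pw_add _ (k + 1) 1, pw_one]

theorem periodic (x : SG) : (Subsemigroup.closure ({x} : Set SG) : Set SG).Finite := by
  obtain ⟨y, rfl⟩ : ∃ y : FreeSemigroup Bool, (y : SG) = x := Quotient.exists_rep x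
  obtain ⟨N, hN, hbad⟩ := exists_bad_pw (toL y) (toL_ne y)
  have hb : ∀ k, N ≤ k → Bad (pw (toL y) (k + 1)) := by
    intro k hk
    obtain ⟨j, rfl⟩ := Nat.exists_eq_add_of_le hk
    rw [add_assoc, pw_add]
    exact hbad.append_right _
  refine ((Set.finite_Iic N).image fun k => ((spw y k : FreeSemigroup Bool) : SG)).subset ?_
  intro z hz
  have h1 : ∃ k, z = ((spw y k : FreeSemigroup Bool) : SG) := by
    induction hz using Subsemigroup.closure_induction with
    | mem z hz => exact ⟨0, hz⟩
    | mul a b _ _ iha ihb =>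
      obtain ⟨i, rfl⟩ := iha
      obtain ⟨j, rfl⟩ := ihb
      refine ⟨i + j + 1, ?_⟩
      rw [← Con.coe_mul, coe_eq, toL_mul, toL_spw, toL_spw, toL_spw, ← pw_add]
      left
      congr 1
      omega
  obtain ⟨k, rfl⟩ := h1
  by_cases hk : k ≤ N
  · exact ⟨k, hk, rfl⟩
  · refine ⟨N, Set.mem_Iic.2 le_rfl, ?_⟩
    show ((spw y N : FreeSemigroup Bool) : SG) = _
    rw [coe_eq, toL_spw, toL_spw]
    exact Or.inr ⟨hb N le_rfl, hb k (by omega)⟩

theorem closure_gen : Subsemigroup.closure (Set.range gen) = ⊤ := by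
  rw [eq_top_iff]
  intro x hx
  clear hx
  obtain ⟨y, rfl⟩ : ∃ y : FreeSemigroup Bool, (y : SG) = x := Quotient.exists_rep x
  induction y using FreeSemigroup.recOnMul with
  | ih1 a => exact Subsemigroup.subset_closure ⟨a, rfl⟩
  | ih2 a y h1 h2 =>
    rw [Con.coe_mul]
    exact Subsemigroup.mul_mem _ h1 h2

theorem lang_eq :
    ({w : List (Option Bool) | ∃ u v : List Bool, u ≠ [] ∧ v ≠ [] ∧
            (u.map (fun a => ((gen a : SG) : WithOne SG))).prod =
              (v.map (fun a => ((gen a : SG) : WithOne SG))).prod ∧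
            w = u.map some ++ [none] ++ v.reverse.map some} : Language (Option Bool)) = WP := by
  ext w
  constructor
  · rintro ⟨u, v, hu, hv, h, rfl⟩
    exact ⟨u, v, hu, hv, (prod_iff u v hu hv).1 h, rfl⟩
  · rintro ⟨u, v, hu, hv, h, rfl⟩
    exact ⟨u, v, hu, hv, (prod_iff u v hu hv).2 h, rfl⟩

end Pool.Agent.H230Z.CFSemi
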