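import Pool.Agent.H230Z.CanDigits

set_option autoImplicit false

open Finset

namespace Pool.Agent.H230Z.Can

abbrev Om : Type := ℕ → Fin 2
abbrev Blk (k : ℕ) : Type := (Fin k → Fin 2) → Fin 9
abbrev Slot : Type := Σ k : ℕ, Blk k

instance : Nonempty Slot := ⟨⟨0, fun _ => 0⟩⟩

noncomputable def dec : ℕ → Slot := (exists_surjective_nat Slot).choose
lemma dec_surj : Function.Surjective dec := (exists_surjective_nat Slot).choose_spec
noncomputable def enc : Slot → ℕ := Function.surjInv dec_surj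
lemma dec_enc (s : Slot) : dec (enc s) = s := Function.surjInv_eq dec_surj s

def res (k : ℕ) (σ : Om) : Fin k → Fin 2 := fun i => σ i

noncomputable def dig (σ : Om) (j : ℕ) : Fin 9 := (dec j).2 (res (dec j).1 σ)

lemma dig_enc (σ : Om) (k : ℕ) (f : Blk k) : dig σ (enc ⟨k, f⟩) = f (res k σ) := by
  have : ∀ s : Slot, s = ⟨k, f⟩ → s.2 (res s.1 σ) = f (res k σ) := by
    rintro s rfl; rfl
  exact this _ (dec_enc _)

noncomputable def qq (σ : Om) : ℝ := 2 * val 9 (fun i => ((dig σ i : ℕ) : ℤ))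

lemma qq_continuous : Continuous qq := by
  unfold qq val
  refine continuous_const.mul ?_
  refine continuous_tsum (fun n => ?_) (hasSum_geo 9 (by norm_num) 8).summable fun n x => ?_
  · have h1 : Continuous (res (dec n).1) := continuous_pi fun i => continuous_apply _
    have : Continuous fun σ : Om => ((((dec n).2 (res (dec n).1 σ) : ℕ) : ℤ) : ℝ) :=
      (continuous_of_discreteTopology
        (f := fun a : Fin (dec n).1 → Fin 2 => ((((dec n).2 a : ℕ) : ℤ) : ℝ))).comp h1
    exact this.div_const _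
  · have h : (((dig x n : ℕ) : ℤ) : ℝ) ≤ 8 := by
      have := (dig x n).2
      exact_mod_cast (by omega : ((dig x n : ℕ) : ℤ) ≤ 8)
    rw [Real.norm_of_nonneg (by positivity)]
    gcongr

open Classical in
/-- number of slots of block `k` with property `D` -/
noncomputable def cnt (D : ℕ → Prop) (k : ℕ) : ℕ :=
  (univ.filter fun f : Blk k => D (enc ⟨k, f⟩)).card

def Big (D : ℕ → Prop) : Prop := ∀ K, ∃ k ≥ K, Fintype.card (Blk k) < 61 * cnt D k

def Rb (F : Finset Om) (j : ℕ) : Prop := ∀ a : Fin 9, ∃ σ ∈ F, dig σ j = a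

lemma exists_inj (F : Finset Om) : ∃ K, ∀ k ≥ K, Set.InjOn (res k) (F : Set Om) := by
  have h : ∀ p : Om × Om, ∃ n, p.1 ≠ p.2 → p.1 n ≠ p.2 n := by
    intro p
    by_cases hp : p.1 = p.2
    · exact ⟨0, fun h => absurd hp h⟩
    · obtain ⟨n, hn⟩ := Function.ne_iff.1 hp
      exact ⟨n, fun _ => hn⟩
  choose N hN using h
  refine ⟨(F ×ˢ F).sup N + 1, fun k hk x hx y hy hxy => ?_⟩
  by_contra hne
  have h1 : N (x, y) ≤ (F ×ˢ F).sup N :=
    Finset.le_sup (f := N) (Finset.mem_product.2 ⟨hx, hy⟩)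
  exact hN (x, y) hne (congrFun hxy ⟨N (x, y), by omega⟩)

lemma miss_count {ι : Type} [Fintype ι] [DecidableEq ι] (T : Finset ι) (a : Fin 9) :
    (univ.filter fun f : ι → Fin 9 => ∀ p ∈ T, f p ≠ a).card * 9 ^ T.card =
      8 ^ T.card * 9 ^ Fintype.card ι := by
  have h : (univ.filter fun f : ι → Fin 9 => ∀ p ∈ T, f p ≠ a) =
      Fintype.piFinset fun p => if p ∈ T then univ.erase a else univ := by
    ext f
    simp only [Finset.mem_filter, mem_univ, true_and, Fintype.mem_piFinset]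
    constructor
    · intro h p
      split_ifs with hp
      · simpa using h p hp
      · simp
    · intro h p hp
      have := h p
      rw [if_pos hp] at this
      simpa using this
  rw [h, Fintype.card_piFinset]
  have h2 : ∀ p, (if p ∈ T then univ.erase a else (univ : Finset (Fin 9))).card =
      if p ∈ T then 8 else 9 := by
    intro p
    split_ifs <;> simp
  simp only [h2]
  rw [Finset.prod_ite, Finset.prod_const, Finset.prod_const, Finset.filter_mem_eq_inter,
    Finset.univ_inter, mul_assoc, ← pow_add]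
  congr 2
  have := Finset.card_filter_add_card_filter_not (s := (univ : Finset ι)) (fun p => p ∈ T)
  rw [Finset.filter_mem_eq_inter, Finset.univ_inter, Finset.card_univ] at this
  omega

lemma nonrb_small (F : Finset Om) (hF : F.card = 60) :
    ∃ K, ∀ k ≥ K, 61 * cnt (fun j => ¬ Rb F j) k < Fintype.card (Blk k) := by
  classical
  obtain ⟨K, hK⟩ := exists_inj F
  refine ⟨K, fun k hk => ?_⟩
  have hT : (F.image (res k)).card = 60 := by rw [Finset.card_image_of_injOn (hK k hk), hF]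
  have hsub : (univ.filter fun f : Blk k => ¬ Rb F (enc ⟨k, f⟩)) ⊆
      univ.biUnion fun a : Fin 9 => univ.filter fun f : Blk k => ∀ p ∈ F.image (res k), f p ≠ a := by
    intro f hf
    have := (Finset.mem_filter.1 hf).2
    unfold Rb at this
    push Not at this
    obtain ⟨a, ha⟩ := this
    refine Finset.mem_biUnion.2 ⟨a, mem_univ _, Finset.mem_filter.2 ⟨mem_univ _, fun p hp => ?_⟩⟩
    obtain ⟨σ, hσ, rfl⟩ := Finset.mem_image.1 hp
    rw [← dig_enc σ k f]
    exact ha σ hσ
  have h1 : cnt (fun j => ¬ Rb F j) k ≤ ∑ a : Fin 9,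
      (univ.filter fun f : Blk k => ∀ p ∈ F.image (res k), f p ≠ a).card := by
    refine le_trans ?_ Finset.card_biUnion_le
    unfold cnt
    apply Finset.card_le_card
    intro f hf
    exact hsub (by simpa using hf)
  have h2 : cnt (fun j => ¬ Rb F j) k * 9 ^ 60 ≤
      9 * (8 ^ 60 * 9 ^ Fintype.card (Fin k → Fin 2)) := by
    refine le_trans (Nat.mul_le_mul_right _ h1) ?_
    rw [Finset.sum_mul]
    have : ∀ a : Fin 9, (univ.filter fun f : Blk k => ∀ p ∈ F.image (res k), f p ≠ a).card * 9 ^ 60 =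
        8 ^ 60 * 9 ^ Fintype.card (Fin k → Fin 2) := by
      intro a
      have := miss_count (F.image (res k)) a
      rwa [hT] at this
    simp only [this, Finset.sum_const, Finset.card_univ, Fintype.card_fin, smul_eq_mul]
    exact le_rfl
  have h3 : Fintype.card (Blk k) = 9 ^ Fintype.card (Fin k → Fin 2) := by
    rw [Fintype.card_fun, Fintype.card_fin]
  rw [h3]
  have hpos : 0 < 9 ^ Fintype.card (Fin k → Fin 2) := by positivity
  generalize 9 ^ Fintype.card (Fin k → Fin 2) = M at h2 hpos ⊢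
  generalize cnt (fun j => ¬ Rb F j) k = c at h2 ⊢
  norm_num at h2
  omega

def DD (s : ℝ) (j : ℕ) : Prop := Arc (2 * j) s

lemma rb_arc {F : Finset Om} {j : ℕ} (h : Rb F j) (w : ℝ) : ∃ σ ∈ F, DD (qq σ + w) j := by
  obtain ⟨a, ha⟩ := rainbow w j
  obtain ⟨σ, hσ, e⟩ := h a
  exact ⟨σ, hσ, ha (dig σ) e⟩

lemma bad1_finite (w : ℝ) : {σ : Om | ¬ Big (DD (qq σ + w))}.Finite := by
  classical
  by_contra hinf
  obtain ⟨F, hFs, hF⟩ := Set.Infinite.exists_subset_card_eq hinf 60
  have h1 : ∀ σ : Om, ∃ K, σ ∈ F → ∀ k ≥ K, 61 * cnt (DD (qq σ + w)) k ≤ Fintype.card (Blk k) := by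
    intro σ
    by_cases hσ : σ ∈ F
    · have : ¬ Big (DD (qq σ + w)) := hFs hσ
      unfold Big at this
      push Not at this
      obtain ⟨K, hK⟩ := this
      exact ⟨K, fun _ => hK⟩
    · exact ⟨0, fun h => absurd h hσ⟩
  choose N hN using h1
  obtain ⟨K, hK⟩ := nonrb_small F hF
  let k := max K (F.sup N)
  have h2 := hK k (le_max_left _ _)
  have h3 : ∀ σ ∈ F, 61 * cnt (DD (qq σ + w)) k ≤ Fintype.card (Blk k) := fun σ hσ =>
    hN σ hσ k (le_trans (Finset.le_sup (f := N) hσ) (le_max_right _ _))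
  have hsub : (univ : Finset (Blk k)) ⊆ (univ.filter fun f : Blk k => ¬ Rb F (enc ⟨k, f⟩)) ∪
      F.biUnion fun σ => univ.filter fun f : Blk k => DD (qq σ + w) (enc ⟨k, f⟩) := by
    intro f _
    by_cases hr : Rb F (enc ⟨k, f⟩)
    · obtain ⟨σ, hσ, hd⟩ := rb_arc hr w
      exact Finset.mem_union_right _
        (Finset.mem_biUnion.2 ⟨σ, hσ, Finset.mem_filter.2 ⟨mem_univ _, hd⟩⟩)
    · exact Finset.mem_union_left _ (Finset.mem_filter.2 ⟨mem_univ _, hr⟩)
  have h4 : Fintype.card (Blk k) ≤ cnt (fun j => ¬ Rb F j) k + ∑ σ ∈ F, cnt (DD (qq σ + w)) k := by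
    have := (Finset.card_le_card hsub).trans (Finset.card_union_le _ _)
    refine le_trans this (add_le_add ?_ (Finset.card_biUnion_le.trans ?_))
    · unfold cnt; convert le_rfl
    · unfold cnt; convert le_rfl
  have h5 : 61 * ∑ σ ∈ F, cnt (DD (qq σ + w)) k ≤ 60 * Fintype.card (Blk k) := by
    rw [Finset.mul_sum]
    refine (Finset.sum_le_sum h3).trans ?_
    rw [Finset.sum_const, hF, smul_eq_mul]
  omega

lemma bad2_finite (w : ℝ) (D : ℕ → Prop) :
    {σ : Om | Big D ∧ ∀ j, ¬ (D j ∧ DD (qq σ + w) j)}.Finite := by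
  classical
  by_contra hinf
  obtain ⟨F, hFs, hF⟩ := Set.Infinite.exists_subset_card_eq hinf 60
  obtain ⟨σ0, hσ0⟩ : F.Nonempty := Finset.card_pos.1 (by omega)
  have hD : Big D := (hFs hσ0).1
  obtain ⟨K, hK⟩ := nonrb_small F hF
  obtain ⟨k, hk, h1⟩ := hD K
  have h2 := hK k hk
  have h3 : cnt D k ≤ cnt (fun j => ¬ Rb F j) k := by
    unfold cnt
    apply Finset.card_le_card
    intro f hf
    simp only [Finset.mem_filter, mem_univ, true_and] at hf ⊢
    intro hr
    obtain ⟨σ, hσ, hd⟩ := rb_arc hr w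
    exact (hFs hσ).2 _ ⟨hf, hd⟩
  omega

end Pool.Agent.H230Z.Can
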