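import Mathlib

set_option autoImplicit false

open MeasureTheory
open scoped ENNReal

namespace Pool.Agent.H230Z.Can

/-- the fair coin `(δ_0 + δ_1) / 2` on `{0, 1}` -/
noncomputable def coin : Measure (Fin 2) :=
  (1 / 2 : ℝ≥0∞) • Measure.dirac 0 + (1 / 2 : ℝ≥0∞) • Measure.dirac 1

/-- the map `(x_n) ↦ ∑ 2 x_n 3^{-n}` (the sequence is indexed from `0`, the exponent from `1`) -/
noncomputable def cantorMap (x : ℕ → Fin 2) : ℝ := ∑' n, 2 * ((x n : ℕ) : ℝ) / 3 ^ (n + 1)

/-- the Cantor measure: the image of the product of fair coins under `cantorMap` -/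
noncomputable def cantorMeasure : Measure ℝ :=
  (Measure.infinitePi fun _ : ℕ => coin).map cantorMap

/-! Sanity checks: the map is continuous and the measure is a probability measure. -/

theorem coin_prob : IsProbabilityMeasure coin := by
  constructor
  simp [coin, ENNReal.inv_two_add_inv_two]

theorem cantorMap_continuous : Continuous cantorMap := by
  have hs : Summable fun n : ℕ => (2 : ℝ) / 3 ^ (n + 1) := by
    have := (summable_geometric_of_lt_one (r := (1 / 3 : ℝ)) (by norm_num) (by norm_num)).mul_left
      (2 / 3)
    refine this.congr fun n => ?_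
    rw [pow_succ, one_div, inv_pow]
    field_simp
  refine continuous_tsum (fun n => ?_) hs fun n x => ?_
  · have : Continuous fun x : ℕ → Fin 2 => ((x n : ℕ) : ℝ) :=
      (continuous_of_discreteTopology (f := fun a : Fin 2 => ((a : ℕ) : ℝ))).comp
        (continuous_apply n)
    fun_prop
  · have h : ((x n : ℕ) : ℝ) ≤ 1 := by exact_mod_cast Nat.lt_succ_iff.1 (x n).2
    rw [Real.norm_of_nonneg (by positivity)]
    gcongr
    linarith

theorem cantorMeasure_prob : IsProbabilityMeasure cantorMeasure := by
  haveI := coin_prob
  exact Measure.isProbabilityMeasure_map cantorMap_continuous.measurable.aemeasurable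

end Pool.Agent.H230Z.Can
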