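import Pool.Agent.H230Z.CanDefs

set_option autoImplicit false

open Finset

namespace Pool.Agent.H230Z.Can

noncomputable def val (b : ℕ) (d : ℕ → ℤ) : ℝ := ∑' j, (d j : ℝ) / (b : ℝ) ^ (j + 1)

lemma hasSum_geo (b : ℕ) (hb : 2 ≤ b) (c : ℝ) :
    HasSum (fun j : ℕ => c / (b : ℝ) ^ (j + 1)) (c / ((b : ℝ) - 1)) := by
  have hb' : (2 : ℝ) ≤ b := by exact_mod_cast hb
  have h := (hasSum_geometric_of_lt_one (r := ((b : ℝ))⁻¹) (by positivity)
    (inv_lt_one_of_one_lt₀ (by linarith))).mul_left (c / b)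
  have e1 : (fun j : ℕ => c / (b : ℝ) ^ (j + 1)) = fun i => c / (b : ℝ) * ((b : ℝ))⁻¹ ^ i := by
    funext j
    rw [pow_succ, inv_pow]
    field_simp
  have e2 : c / ((b : ℝ) - 1) = c / (b : ℝ) * (1 - ((b : ℝ))⁻¹)⁻¹ := by
    have : (b : ℝ) - 1 ≠ 0 := by linarith
    field_simp
  rw [e1, e2]
  exact h

lemma summable_val (b : ℕ) (hb : 2 ≤ b) (d : ℕ → ℤ) (lo hi : ℤ) (h : ∀ j, lo ≤ d j ∧ d j ≤ hi) :
    Summable fun j => (d j : ℝ) / (b : ℝ) ^ (j + 1) := by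
  refine Summable.of_norm_bounded (hasSum_geo b hb (|(lo : ℝ)| + |(hi : ℝ)|)).summable fun j => ?_
  have hb' : (0 : ℝ) < b := by exact_mod_cast (by omega : 0 < b)
  rw [norm_div, Real.norm_of_nonneg (by positivity : (0 : ℝ) ≤ (b : ℝ) ^ (j + 1))]
  gcongr
  have h1 : (lo : ℝ) ≤ d j := by exact_mod_cast (h j).1
  have h2 : (d j : ℝ) ≤ hi := by exact_mod_cast (h j).2
  rw [Real.norm_eq_abs, abs_le]
  constructor <;> linarith [neg_abs_le (lo : ℝ), le_abs_self (hi : ℝ), abs_nonneg (lo : ℝ),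
    abs_nonneg (hi : ℝ)]

lemma val_bounds (b : ℕ) (hb : 2 ≤ b) (d : ℕ → ℤ) (lo hi : ℤ) (h : ∀ j, lo ≤ d j ∧ d j ≤ hi) :
    (lo : ℝ) / ((b : ℝ) - 1) ≤ val b d ∧ val b d ≤ (hi : ℝ) / ((b : ℝ) - 1) := by
  have hs := (summable_val b hb d lo hi h).hasSum
  have hb' : (0 : ℝ) < b := by exact_mod_cast (by omega : 0 < b)
  constructor
  · refine hasSum_le (fun j => ?_) (hasSum_geo b hb lo) hs
    gcongr
    exact_mod_cast (h j).1
  · refine hasSum_le (fun j => ?_) hs (hasSum_geo b hb hi)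
    gcongr
    exact_mod_cast (h j).2

lemma val_step (b : ℕ) (hb : 2 ≤ b) (d : ℕ → ℤ) (lo hi : ℤ) (h : ∀ j, lo ≤ d j ∧ d j ≤ hi) :
    (b : ℝ) * val b d = d 0 + val b (fun j => d (j + 1)) := by
  have hb' : (b : ℝ) ≠ 0 := by exact_mod_cast (by omega : b ≠ 0)
  unfold val
  rw [(summable_val b hb d lo hi h).tsum_eq_zero_add, mul_add, ← tsum_mul_left]
  congr 1
  · field_simp
    ring
  · refine tsum_congr fun j => ?_
    rw [pow_succ _ (j + 1)]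
    field_simp

lemma val_pow (b : ℕ) (hb : 2 ≤ b) (d : ℕ → ℤ) (lo hi : ℤ) (h : ∀ j, lo ≤ d j ∧ d j ≤ hi) (n : ℕ) :
    ∃ I : ℤ, (b : ℝ) ^ n * val b d = I + val b (fun j => d (j + n)) := by
  induction n with
  | zero => exact ⟨0, by simp⟩
  | succ n ih =>
    obtain ⟨I, hI⟩ := ih
    refine ⟨b * I + d n, ?_⟩
    have := val_step b hb (fun j => d (j + n)) lo hi (fun j => h _)
    rw [pow_succ', mul_assoc, hI, mul_add, this]
    push_cast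
    have e : (fun j => d (j + 1 + n)) = fun j => d (j + (n + 1)) := by
      funext j; congr 1; omega
    rw [e, zero_add]
    ring

lemma val_digit (b : ℕ) (hb : 2 ≤ b) (d : ℕ → ℤ) (lo hi : ℤ) (h : ∀ j, lo ≤ d j ∧ d j ≤ hi) (n : ℕ) :
    ∃ (I : ℤ) (v : ℝ), (b : ℝ) ^ n * val b d = I + (d n + v) / b ∧
      (lo : ℝ) / ((b : ℝ) - 1) ≤ v ∧ v ≤ (hi : ℝ) / ((b : ℝ) - 1) := by
  obtain ⟨I, hI⟩ := val_pow b hb d lo hi h n
  have hb' : (b : ℝ) ≠ 0 := by exact_mod_cast (by omega : b ≠ 0)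
  have h2 := val_step b hb (fun j => d (j + n)) lo hi (fun j => h _)
  refine ⟨I, val b (fun j => d (j + 1 + n)), ?_, val_bounds b hb _ lo hi fun j => h _⟩
  rw [hI]
  congr 1
  rw [eq_div_iff hb', mul_comm, h2, zero_add]

lemma cantorMap_sub (x y : ℕ → Fin 2) :
    cantorMap x - cantorMap y = 2 * val 3 (fun j => ((x j : ℕ) : ℤ) - ((y j : ℕ) : ℤ)) := by
  have hs : ∀ z : ℕ → Fin 2, Summable fun n => 2 * ((z n : ℕ) : ℝ) / 3 ^ (n + 1) := by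
    intro z
    have := (summable_val 3 (by norm_num) (fun j => ((z j : ℕ) : ℤ)) 0 1
      (fun j => by have := (z j).2; omega)).mul_left 2
    refine this.congr fun n => ?_
    push_cast
    ring
  unfold cantorMap val
  rw [← (hs x).tsum_sub (hs y), ← tsum_mul_left]
  refine tsum_congr fun j => ?_
  push_cast
  ring

/-- position `n` of `s / 2` lies in the open arc `(1/6, 1/2)` -/
def Arc (n : ℕ) (s : ℝ) : Prop := ∃ I : ℤ, 1 / 6 < 3 ^ n * (s / 2) - I ∧ 3 ^ n * (s / 2) - I < 1 / 2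

lemma arc_digit (x y : ℕ → Fin 2) (n : ℕ) (h : Arc n (cantorMap x - cantorMap y)) :
    x n = 1 ∧ y n = 0 := by
  obtain ⟨I, h1, h2⟩ := h
  obtain ⟨J, v, e, hv1, hv2⟩ := val_digit 3 (by norm_num)
    (fun j => ((x j : ℕ) : ℤ) - ((y j : ℕ) : ℤ)) (-1) 1
    (fun j => by have := (x j).2; have := (y j).2; omega) n
  rw [cantorMap_sub, mul_div_cancel_left₀ _ (two_ne_zero)] at h1 h2
  push_cast at e hv1 hv2
  rw [e] at h1 h2
  have hx := (x n).2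
  have hy := (y n).2
  have k1 : (-1 : ℝ) < 3 * ((J - I : ℤ) : ℝ) + (((x n : ℕ) : ℤ) - ((y n : ℕ) : ℤ) : ℤ) - 1 := by
    push_cast; linarith
  have k2 : 3 * ((J - I : ℤ) : ℝ) + (((x n : ℕ) : ℤ) - ((y n : ℕ) : ℤ) : ℤ) - 1 < 1 := by
    push_cast; linarith
  have k3 : (-1 : ℤ) < 3 * (J - I) + (((x n : ℕ) : ℤ) - ((y n : ℕ) : ℤ)) - 1 := by exact_mod_cast k1
  have k4 : 3 * (J - I) + (((x n : ℕ) : ℤ) - ((y n : ℕ) : ℤ)) - 1 < 1 := by exact_mod_cast k2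
  constructor <;> apply Fin.ext <;> simp <;> omega

lemma cantorMap_inj : Function.Injective cantorMap := by
  intro x y hxy
  funext n
  obtain ⟨J, v, e, hv1, hv2⟩ := val_digit 3 (by norm_num)
    (fun j => ((x j : ℕ) : ℤ) - ((y j : ℕ) : ℤ)) (-1) 1
    (fun j => by have := (x j).2; have := (y j).2; omega) n
  have h0 := cantorMap_sub x y
  rw [hxy, sub_self] at h0
  have h1 : val 3 (fun j => ((x j : ℕ) : ℤ) - ((y j : ℕ) : ℤ)) = 0 := by linarith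
  rw [h1] at e
  push_cast at e hv1 hv2
  have hx := (x n).2
  have hy := (y n).2
  have k1 : (-1 : ℝ) < 3 * (J : ℝ) + (((x n : ℕ) : ℤ) - ((y n : ℕ) : ℤ) : ℤ) := by
    push_cast; linarith
  have k2 : 3 * (J : ℝ) + (((x n : ℕ) : ℤ) - ((y n : ℕ) : ℤ) : ℤ) < 1 := by
    push_cast; linarith
  have k3 : (-1 : ℤ) < 3 * J + (((x n : ℕ) : ℤ) - ((y n : ℕ) : ℤ)) := by exact_mod_cast k1
  have k4 : 3 * J + (((x n : ℕ) : ℤ) - ((y n : ℕ) : ℤ)) < 1 := by exact_mod_cast k2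
  apply Fin.ext
  omega

lemma rainbow (w : ℝ) (j : ℕ) : ∃ a : Fin 9, ∀ d : ℕ → Fin 9, d j = a →
    Arc (2 * j) (2 * val 9 (fun i => ((d i : ℕ) : ℤ)) + w) := by
  set β : ℝ := 9 ^ j * (w / 2) with hβ
  set p : ℤ := ⌊9 * (1 / 6 - β)⌋ + 1 with hp
  have hp1 : 9 * (1 / 6 - β) < p := by rw [hp]; push_cast; exact Int.lt_floor_add_one _
  have hp2 : (p : ℝ) ≤ 9 * (1 / 6 - β) + 1 := by
    rw [hp]; push_cast; linarith [Int.floor_le (9 * (1 / 6 - β))]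
  have hm0 : 0 ≤ p % 9 := Int.emod_nonneg _ (by norm_num)
  have hm1 : p % 9 < 9 := Int.emod_lt_of_pos _ (by norm_num)
  refine ⟨⟨(p % 9).toNat, by omega⟩, fun d hd => ?_⟩
  obtain ⟨J, v, e, hv1, hv2⟩ := val_digit 9 (by norm_num) (fun i => ((d i : ℕ) : ℤ)) 0 8
    (fun i => by have := (d i).2; omega) j
  have hdj : ((d j : ℕ) : ℤ) = p - 9 * (p / 9) := by
    rw [hd]
    simp only
    omega
  have hdj' : (((d j : ℕ) : ℤ) : ℝ) = p - 9 * ((p / 9 : ℤ) : ℝ) := by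
    rw [hdj]; push_cast; ring
  rw [hdj'] at e
  push_cast at e hv1 hv2
  refine ⟨J - p / 9, ?_⟩
  have e2 : (3 : ℝ) ^ (2 * j) * ((2 * val 9 (fun i => ((d i : ℕ) : ℤ)) + w) / 2) =
      9 ^ j * val 9 (fun i => ((d i : ℕ) : ℤ)) + β := by
    rw [hβ, pow_mul]
    norm_num
    ring
  rw [e2, e]
  push_cast
  constructor <;> linarith

end Pool.Agent.H230Z.Can
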