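import Pool.Agent.H230Z.CanBlock

set_option autoImplicit false

open MeasureTheory Cardinal Set
open scoped ENNReal

namespace Pool.Agent.H230Z.Can

noncomputable def nu : Measure Om := Measure.infinitePi fun _ : ℕ => coin

instance nu_prob : IsProbabilityMeasure nu := by
  haveI := coin_prob
  unfold nu
  infer_instance

lemma coin_single (a : Fin 2) : coin {a} = 1 / 2 := by
  fin_cases a <;> simp [coin]

lemma nu_single (x : Om) : nu {x} = 0 := by
  haveI := coin_prob
  have h : ∀ n : ℕ, nu {x} ≤ (1 / 2) ^ n := by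
    intro n
    have h1 : ({x} : Set Om) ⊆ Set.pi (Finset.range n : Set ℕ) fun i => {x i} := by
      rintro y rfl i _
      rfl
    refine (measure_mono h1).trans ?_
    unfold nu
    rw [Measure.infinitePi_pi _ (fun i _ => MeasurableSet.singleton _)]
    simp [coin_single]
  have h2 : Filter.Tendsto (fun n : ℕ => ((1 / 2 : ℝ≥0∞)) ^ n) Filter.atTop (nhds 0) :=
    ENNReal.tendsto_pow_atTop_nhds_zero_of_lt_one (by simp)
  exact le_antisymm (ge_of_tendsto' h2 h) bot_le

instance : NullSingletonClass nu := ⟨nu_single⟩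

instance : TopologicalSpace.IsCompletelyMetrizableSpace (Fin 2) :=
  TopologicalSpace.IsCompletelyMetrizableSpace.discrete

instance : TopologicalSpace.IsCompletelyMetrizableSpace Om :=
  TopologicalSpace.IsCompletelyMetrizableSpace.pi_countable

instance : SecondCountableTopology Om := inferInstance

instance : PolishSpace Om := ⟨⟩

lemma continuum_le {S : Set Om} (hS : MeasurableSet S) (h : nu S ≠ 0) : 𝔠 ≤ #S := by
  obtain ⟨K, hKS, hK, hpos⟩ := hS.exists_lt_isCompact (μ := nu) (pos_iff_ne_zero.2 h)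
  have hunc : ¬ K.Countable := fun hc => hpos.ne' (hc.measure_zero nu)
  obtain ⟨f, hf, -, hinj⟩ := hK.isClosed.exists_nat_bool_injection_of_not_countable hunc
  have := mk_le_of_injective (f := fun a => (⟨f a, hKS (hf ⟨a, rfl⟩)⟩ : S))
    (fun a b hab => hinj (congrArg Subtype.val hab))
  simpa using this

lemma exists_shift {N : Set ℝ} (hN : MeasurableSet N) (h0 : volume N = 0) :
    ∃ u : ℝ, 𝔠 ≤ #{σ : Om | qq σ + u ∉ N} := by
  have hm : Measurable fun p : Om × ℝ => qq p.1 + p.2 :=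
    (qq_continuous.measurable.comp measurable_fst).add measurable_snd
  have h1 : ∀ᵐ σ ∂nu, ∀ᵐ u ∂(volume : Measure ℝ), qq σ + u ∉ N := by
    refine Filter.Eventually.of_forall fun σ => ?_
    have : volume ((fun u => qq σ + u) ⁻¹' N) = 0 := by rw [measure_preimage_add, h0]
    exact measure_eq_zero_iff_ae_notMem.1 this
  have h2 := (Measure.ae_ae_comm (p := fun σ u => qq σ + u ∉ N) (hm hN).compl).1 h1
  obtain ⟨u, hu⟩ := h2.exists
  refine ⟨u, continuum_le ((qq_continuous.measurable.add_const u) hN).compl ?_⟩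
  intro hz
  have h3 : nu {σ : Om | qq σ + u ∉ N}ᶜ = 0 := hu
  have h4 := measure_union_le (μ := nu) {σ : Om | qq σ + u ∉ N} {σ : Om | qq σ + u ∉ N}ᶜ
  rw [hz, h3, union_compl_self, measure_univ] at h4
  simp at h4

lemma step {N : Set ℝ} (hN : MeasurableSet N) (h0 : volume N = 0) (E : Set ℝ) (hE : #E < 𝔠) :
    ∃ z, z ∉ N ∧ (∀ x ∈ E, Big (DD (z - x))) ∧
      ∀ x ∈ E, ∀ y ∈ E, Big (DD (x - y)) → ∃ j, DD (x - y) j ∧ DD (z - x) j := by
  obtain ⟨u, hu⟩ := exists_shift hN h0
  let B : E × E → Set Om := fun p => {σ : Om | ¬ Big (DD (qq σ + (u - p.1)))} ∪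
    {σ : Om | Big (DD (p.1.1 - p.2.1)) ∧ ∀ j, ¬ (DD (p.1.1 - p.2.1) j ∧ DD (qq σ + (u - p.1)) j)}
  have hB : ∀ p, (B p).Finite := fun p => (bad1_finite _).union (bad2_finite _ _)
  have hc : #(⋃ p, B p) < 𝔠 := by
    refine lt_of_le_of_lt (mk_iUnion_le_sum_mk.trans (sum_le_sum _ (fun _ => ℵ₀)
      fun p => (hB p).lt_aleph0.le)) ?_
    rw [sum_const', mk_prod, lift_id]
    exact mul_lt_of_lt aleph0_le_continuum (mul_lt_of_lt aleph0_le_continuum hE hE)
      aleph0_lt_continuum
  have : ¬ {σ : Om | qq σ + u ∉ N} ⊆ ⋃ p, B p := fun hs =>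
    absurd (hu.trans (mk_le_mk_of_subset hs)) (not_le.2 hc)
  obtain ⟨σ, h1, h2⟩ := Set.not_subset.1 this
  simp only [Set.mem_iUnion, not_exists] at h2
  refine ⟨qq σ + u, h1, fun x hx => ?_, fun x hx y hy hb => ?_⟩
  · by_contra hcon
    apply h2 (⟨x, hx⟩, ⟨x, hx⟩)
    left
    rwa [add_sub_assoc] at hcon
  · by_contra hcon
    apply h2 (⟨x, hx⟩, ⟨y, hy⟩)
    right
    refine ⟨hb, fun j hj => hcon ⟨j, hj.1, ?_⟩⟩
    rw [add_sub_assoc]
    exact hj.2

lemma card_meas : #{t : Set ℝ // MeasurableSet t} ≤ 𝔠 := by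
  have h := MeasurableSpace.cardinal_measurableSet_le_continuum
    (s := ⋃ (a : ℚ), {Set.Iio (a : ℝ)}) (by
      refine le_trans ?_ aleph0_le_continuum
      rw [le_aleph0_iff_set_countable]
      exact Set.countable_iUnion fun _ => Set.countable_singleton _)
  rw [← Real.borel_eq_generateFrom_Iio_rat] at h
  exact h

lemma exists_seq : ∃ (W : Type) (_ : LinearOrder W) (x : W → ℝ),
    (∀ N : Set ℝ, MeasurableSet N → volume N = 0 → ∃ a, x a ∉ N) ∧
    (∀ a b, b < a → Big (DD (x a - x b))) ∧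
    ∀ a b c, c < a → b < a → Big (DD (x b - x c)) → ∃ j, DD (x b - x c) j ∧ DD (x a - x b) j := by
  let W := (𝔠 : Cardinal.{0}).ord.ToType
  let T := {t : Set ℝ // MeasurableSet t ∧ volume t = 0}
  have hT : #T ≤ #W := by
    rw [mk_ord_toType]
    refine le_trans (mk_le_of_injective (f := fun t : T => (⟨t.1, t.2.1⟩ : {t : Set ℝ // MeasurableSet t}))
      fun a b hab => Subtype.ext (Subtype.mk.inj hab)) card_meas
  haveI : Nonempty T := ⟨⟨∅, MeasurableSet.empty, measure_empty⟩⟩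
  obtain ⟨ι⟩ := hT
  let N : W → T := Function.invFun ι
  have hN : Function.Surjective N := Function.invFun_surjective ι.injective
  have hstep : ∀ (a : W) (f : ∀ b, b < a → ℝ), ∃ z, z ∉ (N a).1 ∧
      (∀ b hb, Big (DD (z - f b hb))) ∧
      ∀ b hb c hc, Big (DD (f b hb - f c hc)) → ∃ j, DD (f b hb - f c hc) j ∧ DD (z - f b hb) j := by
    intro a f
    obtain ⟨z, h1, h2, h3⟩ := step (N a).2.1 (N a).2.2 (Set.range fun b : Set.Iio a => f b.1 b.2)
      (lt_of_le_of_lt mk_range_le (mk_Iio_toType_ord_lt a))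
    exact ⟨z, h1, fun b hb => h2 _ ⟨⟨b, hb⟩, rfl⟩,
      fun b hb c hc => h3 _ ⟨⟨b, hb⟩, rfl⟩ _ ⟨⟨c, hc⟩, rfl⟩⟩
  choose F hF using hstep
  let x : W → ℝ := (wellFounded_lt (α := W)).fix F
  have hx : ∀ a, x a = F a fun b _ => x b := fun a => WellFounded.fix_eq _ F a
  refine ⟨W, inferInstance, x, fun M hM hM0 => ?_, fun a b hb => ?_, fun a b c hc hb h => ?_⟩
  · obtain ⟨a, ha⟩ := hN ⟨M, hM, hM0⟩
    refine ⟨a, ?_⟩
    have := (hF a fun b _ => x b).1
    rwa [ha, ← hx] at this
  · have := (hF a fun b _ => x b).2.1 b hb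
    rwa [← hx] at this
  · have := (hF a fun b _ => x b).2.2 b hb c hc h
    rwa [← hx] at this

lemma null_of_finite {S : Set ℝ} (h : (S ∩ Set.range cantorMap).Finite) : cantorMeasure S = 0 := by
  have hm := cantorMap_continuous.measurable
  have h1 : cantorMeasure (Set.range cantorMap)ᶜ = 0 := by
    unfold cantorMeasure
    rw [Measure.map_apply hm (isCompact_range cantorMap_continuous).measurableSet.compl]
    simp
  have h2 : cantorMeasure (S ∩ Set.range cantorMap) = 0 := by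
    unfold cantorMeasure
    rw [Measure.map_apply hm h.measurableSet]
    exact ((h.preimage cantorMap_inj.injOn).countable.measure_zero nu)
  refine measure_mono_null (fun z hz => ?_) (measure_union_null h2 h1)
  by_cases hz2 : z ∈ Set.range cantorMap
  · exact Or.inl ⟨hz, hz2⟩
  · exact Or.inr hz2

theorem main : ∃ X : Set ℝ, 0 < volume X ∧ ∀ t : ℝ, cantorMeasure ((fun x => x + t) '' X) = 0 := by
  obtain ⟨W, _, x, h1, h2, h3⟩ := exists_seq
  refine ⟨Set.range x, ?_, fun t => null_of_finite ?_⟩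
  · rw [pos_iff_ne_zero]
    intro h0
    obtain ⟨a, ha⟩ := h1 (toMeasurable volume (Set.range x)) (measurableSet_toMeasurable _ _)
      (by rwa [measure_toMeasurable])
    exact ha (subset_toMeasurable _ _ ⟨a, rfl⟩)
  · have hfin : {a : W | x a + t ∈ Set.range cantorMap}.Finite := by
      by_contra hinf
      obtain ⟨F, hFs, hF⟩ := Set.Infinite.exists_subset_card_eq hinf 3
      let e := F.orderEmbOfFin hF
      have hm : ∀ i, x (e i) + t ∈ Set.range cantorMap := fun i =>
        hFs (F.orderEmbOfFin_mem hF i)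
      obtain ⟨c0, e0⟩ := hm 0
      obtain ⟨c1, e1⟩ := hm 1
      obtain ⟨c2, e2⟩ := hm 2
      have l01 : e 0 < e 1 := e.strictMono (by decide)
      have l12 : e 1 < e 2 := e.strictMono (by decide)
      obtain ⟨j, a1, a2⟩ := h3 (e 2) (e 1) (e 0) (l01.trans l12) l12 (h2 _ _ l01)
      have s1 : x (e 1) - x (e 0) = cantorMap c1 - cantorMap c0 := by rw [e0, e1]; ring
      have s2 : x (e 2) - x (e 1) = cantorMap c2 - cantorMap c1 := by rw [e2, e1]; ring
      rw [s1] at a1
      rw [s2] at a2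
      have b1 := (arc_digit _ _ _ a1).1
      have b2 := (arc_digit _ _ _ a2).2
      rw [b1] at b2
      exact absurd b2 (by decide)
    refine (hfin.image fun a => x a + t).subset ?_
    rintro z ⟨⟨_, ⟨a, rfl⟩, rfl⟩, hz⟩
    exact ⟨a, hz, rfl⟩

end Pool.Agent.H230Z.Can
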