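import Mathlib

set_option autoImplicit false
set_option maxRecDepth 100000

namespace Pool.Agent.H230Z.Code

def hL : List ℕ := [1, 2, 4, 8, 16, 32, 64, 128, 256, 512, 1024, 2048, 4096, 8192, 63, 455, 729, 874, 948, 1825, 2045, 1243, 2872, 3031, 2280, 2149, 2949, 2778, 2365, 1581, 1492, 1208, 1862, 7939, 4711, 7523, 4346, 8160, 4791, 7594, 7628, 4622, 7913, 4396, 8062, 4261, 7281, 5037, 7150, 6093, 6774, 5714, 5916, 6950, 5806, 6803, 6663, 5861, 6877, 5688, 5309, 6214, 5197, 6321, 8972, 11683, 11944, 11855, 11610, 9158, 8404, 8373, 9080, 11348, 12190, 11442, 12134, 8313, 9130, 9809, 9853, 10253, 10278, 9238, 9251, 10848, 10834, 10945, 10796, 9695, 9525, 10958, 10810, 9722, 9481, 15420, 12338, 13306, 16371, 12929, 16022, 15725, 12669, 12549, 15818, 16257, 13129, 15856, 12582, 13150, 16271, 13699, 15021, 14778, 13971, 14134, 14337, 15141, 13333, 13471, 15216, 14820, 13836, 13410, 15252, 14643, 14018]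

def RL : List ℕ := [43811443232248638021834083266029273089, 53911315886332585595170319903521685506, 30455111764215974942368977205111078916, 5999159237022462870810266727615774728, 66202603191968690706237079757545357328, 57380567578081040467644204309624537120, 14622428756610041628547087231534465088, 24631183719178580230021042834666520704, 68013894521583355078974906858223862016, 28149512460751888722841249259949326848, 17014086028786609440124479690126132224, 68056960273030112021686575397517395968, 85070591690620534627158227126289698816, 85070591730234615847396907784232509440]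

def h (a : ℕ) : ℕ := hL.getD a 0
def R (j : ℕ) : ℕ := RL.getD j 0

def pop : ℕ → ℕ → ℕ
  | 0, _ => 0
  | f + 1, n => n % 2 + pop f (n / 2)

def T8 : ℕ := 95125173855764218123276304889944061997689682402263585766959741291920687686033329201817409157123347502415384089435969498586180241031507595463600295898153685276653211633572815512294064538494957912327413386667662218713394765509704508661031522276467630197481635010039778342554499416459730172574551513689147646224

def pop8 (b : ℕ) : ℕ := Nat.mod (Nat.shiftRight T8 (Nat.mul 4 b)) 16

theorem pop8_ok : ∀ b < 256, pop8 b = pop 8 b := by decide +kernel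

def fpop (f : ℕ) : ℕ → ℕ :=
  Nat.rec (fun _ => 0) (fun _ ih n => Nat.add (pop8 (Nat.mod n 256)) (ih (Nat.div n 256))) f

def allW (m : ℕ) : ℕ → Bool :=
  Nat.rec (fun c => Nat.ble (fpop 16 c) 72) (fun m ih c => ih c && ih (Nat.xor c (R m))) m

lemma allW_zero (c : ℕ) : allW 0 c = Nat.ble (fpop 16 c) 72 := rfl
lemma allW_succ (m c : ℕ) : allW (m + 1) c = (allW m c && allW m (c ^^^ R m)) := rfl
lemma fpop_zero (n : ℕ) : fpop 0 n = 0 := rfl
lemma fpop_succ (f n : ℕ) : fpop (f + 1) n = pop8 (n % 256) + fpop f (n / 256) := rfl

theorem allW_ok : allW 14 0 = true := by decide +kernel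

def nodupBits : List ℕ → ℕ → Bool
  | [], _ => true
  | x :: xs, m => !(m.testBit x) && nodupBits xs (m ||| (1 <<< x))

def pairs : List (ℕ × ℕ) := (List.range 128).flatMap fun b => (List.range b).map fun a => (a, b)

theorem sidon_ok : nodupBits (pairs.map fun q => h q.1 ^^^ h q.2) 1 = true := by decide +kernel

theorem rows_ok : ∀ j < 14, ∀ a < 126, (R j).testBit a = (h a).testBit j := by decide +kernel

theorem h_lt : ∀ a < 128, h a < 2 ^ 14 := by decide +kernel

theorem h_sys : ∀ a < 14, ∀ j < 14, (h a).testBit j = decide (a = j) := by decide +kernel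

theorem h_last : h 127 = 0 := by decide +kernel

end Pool.Agent.H230Z.Code
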