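import Pool.Agent.H230Z.CayCode

set_option autoImplicit false
set_option maxRecDepth 100000

open Finset

namespace Pool.Agent.H230Z.Code

def bt (n i : ℕ) : ℤ := if n.testBit i then 1 else 0

lemma bt_cases (n i : ℕ) : bt n i = 0 ∨ bt n i = 1 := by
  unfold bt; split_ifs <;> simp

lemma bt_xor (x y i : ℕ) : bt (x ^^^ y) i % 2 = (bt x i + bt y i) % 2 := by
  unfold bt
  rw [Nat.testBit_xor]
  cases x.testBit i <;> cases y.testBit i <;> simp

lemma pop_eq (f : ℕ) : ∀ n, (pop f n : ℤ) = ∑ i ∈ range f, bt n i := by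
  induction f with
  | zero => intro n; simp [pop]
  | succ f ih =>
    intro n
    rw [Finset.sum_range_succ', pop]
    push_cast
    rw [ih, add_comm]
    congr 1
    · refine Finset.sum_congr rfl fun i _ => ?_
      unfold bt
      rw [Nat.testBit_succ]
    · unfold bt
      rw [Nat.testBit_zero]
      rcases Nat.mod_two_eq_zero_or_one n with h | h
      · simp [h]; omega
      · simp [h]; omega

lemma fpop_eq (f : ℕ) : ∀ n, (fpop f n : ℤ) = ∑ i ∈ range (8 * f), bt n i := by
  induction f with
  | zero => intro n; simp [fpop_zero]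
  | succ f ih =>
    intro n
    rw [fpop_succ, pop8_ok _ (Nat.mod_lt _ (by norm_num)), show 8 * (f + 1) = 8 + 8 * f by ring,
      Finset.sum_range_add]
    push_cast
    rw [ih, pop_eq]
    congr 1
    · refine Finset.sum_congr rfl fun i hi => ?_
      unfold bt
      rw [show (256 : ℕ) = 2 ^ 8 by norm_num, Nat.testBit_mod_two_pow]
      simp [Finset.mem_range.1 hi]
    · refine Finset.sum_congr rfl fun i _ => ?_
      unfold bt
      rw [show (256 : ℕ) = 2 ^ 8 by norm_num, Nat.testBit_div_two_pow, add_comm]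

lemma allW_spec (y : ℕ → ℤ) (m : ℕ) : ∀ c, allW m c = true →
    ∃ n, ∑ i ∈ range 126, bt n i ≤ 72 ∧
      ∀ i, bt n i % 2 = (bt c i + ∑ j ∈ range m, y j * bt (R j) i) % 2 := by
  induction m with
  | zero =>
    intro c hc
    refine ⟨c, ?_, by simp⟩
    rw [allW_zero, Nat.ble_eq] at hc
    have h1 : (fpop 16 c : ℤ) ≤ 72 := by exact_mod_cast hc
    rw [fpop_eq, show 8 * 16 = 126 + 1 + 1 by norm_num, Finset.sum_range_succ,
      Finset.sum_range_succ] at h1
    have := bt_cases c 126
    have := bt_cases c (126 + 1)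
    omega
  | succ m ih =>
    intro c hc
    rw [allW_succ, Bool.and_eq_true] at hc
    rcases Int.emod_two_eq_zero_or_one (y m) with hy | hy
    · obtain ⟨n, h1, h2⟩ := ih c hc.1
      refine ⟨n, h1, fun i => ?_⟩
      rw [Finset.sum_range_succ, h2 i]
      rcases bt_cases (R m) i with h | h <;> rw [h] <;> omega
    · obtain ⟨n, h1, h2⟩ := ih _ hc.2
      refine ⟨n, h1, fun i => ?_⟩
      rw [Finset.sum_range_succ, h2 i]
      have := bt_xor c (R m) i
      rcases bt_cases (R m) i with h | h <;> rw [h] at this ⊢ <;> omega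

theorem weight_le (y : ℕ → ℤ) : ∃ n, ∑ i ∈ range 126, bt n i ≤ 72 ∧
    ∀ i < 126, bt n i % 2 = (∑ j ∈ range 14, y j * bt (h i) j) % 2 := by
  obtain ⟨n, h1, h2⟩ := allW_spec y 14 0 allW_ok
  refine ⟨n, h1, fun i hi => ?_⟩
  rw [h2 i]
  have : bt 0 i = 0 := by simp [bt]
  rw [this, zero_add]
  congr 1
  refine Finset.sum_congr rfl fun j hj => ?_
  unfold bt
  rw [rows_ok j (Finset.mem_range.1 hj) i hi]

lemma nodupBits_spec (l : List ℕ) : ∀ m, nodupBits l m = true →
    l.Nodup ∧ ∀ x ∈ l, m.testBit x = false := by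
  induction l with
  | nil => intro m _; simp
  | cons x xs ih =>
    intro m hm
    rw [nodupBits, Bool.and_eq_true] at hm
    obtain ⟨h1, h2⟩ := ih _ hm.2
    have h3 : m.testBit x = false := by simpa using hm.1
    refine ⟨List.nodup_cons.2 ⟨fun hx => ?_, h1⟩, ?_⟩
    · have := h2 x hx
      rw [Nat.testBit_or, Nat.one_shiftLeft, Nat.testBit_two_pow_self] at this
      simp at this
    · intro z hz
      rcases List.mem_cons.1 hz with rfl | hz
      · exact h3
      · have := h2 z hz
        rw [Nat.testBit_or] at this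
        simp only [Bool.or_eq_false_iff] at this
        exact this.1

lemma mem_pairs {a b : ℕ} (hab : a < b) (hb : b < 128) : (a, b) ∈ pairs := by
  unfold pairs
  simp only [List.mem_flatMap, List.mem_range, List.mem_map]
  exact ⟨b, hb, a, hab, rfl⟩

lemma xor_ne_zero {a b : ℕ} (hab : a < b) (hb : b < 128) : h a ^^^ h b ≠ 0 := by
  intro h0
  have := (nodupBits_spec _ _ sidon_ok).2 (h a ^^^ h b) (List.mem_map.2 ⟨(a, b), mem_pairs hab hb, rfl⟩)
  rw [h0] at this
  simp at this

lemma sidon {a b c d : ℕ} (hab : a < b) (hb : b < 128) (hcd : c < d) (hd : d < 128)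
    (e : h a ^^^ h b = h c ^^^ h d) : a = c ∧ b = d := by
  have := List.inj_on_of_nodup_map (nodupBits_spec _ _ sidon_ok).1 (mem_pairs hab hb)
    (mem_pairs hcd hd) e
  simpa using this

lemma xor_eq {a b c d : ℕ} (ha : a < 128) (hb : b < 128) (hc : c < 128) (hd : d < 128)
    (e : ∀ j < 14, (bt (h a) j + bt (h b) j + bt (h c) j + bt (h d) j) % 2 = 0) :
    h a ^^^ h b = h c ^^^ h d := by
  apply Nat.eq_of_testBit_eq
  intro j
  rw [Nat.testBit_xor, Nat.testBit_xor]
  by_cases hj : j < 14
  · have := e j hj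
    unfold bt at this
    revert this
    cases (h a).testBit j <;> cases (h b).testBit j <;> cases (h c).testBit j <;>
      cases (h d).testBit j <;> simp
  · have key : ∀ x < 128, (h x).testBit j = false := fun x hx =>
      Nat.testBit_lt_two_pow (lt_of_lt_of_le (h_lt x hx) (Nat.pow_le_pow_right (by norm_num) (by omega)))
    rw [key a ha, key b hb, key c hc, key d hd]

lemma sidon' {a b c d : ℕ} (ha : a < 128) (hb : b < 128) (hc : c < 128) (hd : d < 128)
    (hab : a ≠ b) (hac : a ≠ c) (had : a ≠ d)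
    (e : ∀ j < 14, (bt (h a) j + bt (h b) j + bt (h c) j + bt (h d) j) % 2 = 0) : False := by
  have e1 := xor_eq ha hb hc hd e
  have hne : h a ^^^ h b ≠ 0 := by
    rcases lt_or_gt_of_ne hab with h1 | h1
    · exact xor_ne_zero h1 hb
    · rw [Nat.xor_comm]; exact xor_ne_zero h1 ha
  have hcd : c ≠ d := by
    rintro rfl
    rw [Nat.xor_self] at e1
    exact hne e1
  rcases lt_or_gt_of_ne hab with h1 | h1 <;> rcases lt_or_gt_of_ne hcd with h2 | h2
  · exact hac (sidon h1 hb h2 hd e1).1
  · rw [Nat.xor_comm (h c)] at e1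
    exact had (sidon h1 hb h2 hc e1).1
  · rw [Nat.xor_comm (h a)] at e1
    exact had (sidon h1 ha h2 hd e1).2
  · rw [Nat.xor_comm (h a), Nat.xor_comm (h c)] at e1
    exact hac (sidon h1 ha h2 hc e1).2

theorem dual5 (S : Finset ℕ) (hS : ∀ a ∈ S, a < 127) (hne : S.Nonempty)
    (e : ∀ j < 14, (∑ a ∈ S, bt (h a) j) % 2 = 0) : 5 ≤ S.card := by
  by_contra hlt
  have hpos := hne.card_pos
  have z : ∀ j, bt (h 127) j = 0 := by intro j; rw [h_last]; simp [bt]
  have : S.card = 1 ∨ S.card = 2 ∨ S.card = 3 ∨ S.card = 4 := by omega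
  rcases this with h1 | h1 | h1 | h1
  · obtain ⟨a, rfl⟩ := Finset.card_eq_one.1 h1
    have ha := hS a (by simp)
    refine sidon' (a := a) (b := 127) (c := 127) (d := 127) (by omega) (by omega) (by omega)
      (by omega) (by omega) (by omega) (by omega) fun j hj => ?_
    have := e j hj
    rw [Finset.sum_singleton] at this
    rw [z]; omega
  · obtain ⟨a, b, hab, rfl⟩ := Finset.card_eq_two.1 h1
    have ha := hS a (by simp)
    have hb := hS b (by simp)
    refine sidon' (a := a) (b := b) (c := 127) (d := 127) (by omega) (by omega) (by omega)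
      (by omega) hab (by omega) (by omega) fun j hj => ?_
    have := e j hj
    rw [Finset.sum_pair hab] at this
    rw [z]; omega
  · obtain ⟨a, b, c, hab, hac, hbc, rfl⟩ := Finset.card_eq_three.1 h1
    have ha := hS a (by simp)
    have hb := hS b (by simp)
    have hc := hS c (by simp)
    refine sidon' (a := a) (b := b) (c := c) (d := 127) (by omega) (by omega) (by omega)
      (by omega) hab hac (by omega) fun j hj => ?_
    have := e j hj
    rw [Finset.sum_insert (by simp [hab, hac]), Finset.sum_pair hbc] at this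
    rw [z]; omega
  · obtain ⟨a, b, c, d, hab, hac, had, hbc, hbd, hcd, rfl⟩ := Finset.card_eq_four.1 h1
    have ha := hS a (by simp)
    have hb := hS b (by simp)
    have hc := hS c (by simp)
    have hd := hS d (by simp)
    refine sidon' (a := a) (b := b) (c := c) (d := d) (by omega) (by omega) (by omega)
      (by omega) hab hac had fun j hj => ?_
    have := e j hj
    rw [Finset.sum_insert (by simp [hab, hac, had]), Finset.sum_insert (by simp [hbc, hbd]),
      Finset.sum_pair hcd] at this
    omega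

end Pool.Agent.H230Z.Code
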