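import Mathlib

set_option autoImplicit false

open scoped Pointwise

namespace Pool.Agent.H230Z.Cay

/-- the real point with the given integer coordinates -/
def toReal {ι : Type} (z : ι → ℤ) : ι → ℝ := fun r => (z r : ℝ)

/-- a lattice polytope: the convex hull of a nonempty finite set of integer points -/
def IsLatticePolytope {ι : Type} (P : Set (ι → ℝ)) : Prop :=
  ∃ V : Finset (ι → ℤ), V.Nonempty ∧ P = convexHull ℝ (toReal '' (V : Set (ι → ℤ)))

/-- the least `k ≥ 1` such that the dilate `kP` has a lattice point in its interior -/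
noncomputable def codegree {d : ℕ} (P : Set (Fin d → ℝ)) : ℕ :=
  sInf {k : ℕ | 1 ≤ k ∧ ∃ z : Fin d → ℤ, toReal z ∈ interior ((k : ℝ) • P)}

/-- the degree `d + 1 - codegree` of a `d`-dimensional lattice polytope in `ℝ^d` -/
noncomputable def degree {d : ℕ} (P : Set (Fin d → ℝ)) : ℤ := (d : ℤ) + 1 - codegree P

/-- the points `e_0 = 0, e_1, …, e_k` of `ℝ^k` -/
def cayVertex {k : ℕ} (i : Fin (k + 1)) : Fin k → ℝ := fun j => if i = j.succ then 1 else 0

/-- the Cayley polytope `conv (Q_0 × {e_0}, …, Q_k × {e_k})` in `ℝ^m × ℝ^k` -/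
def cayley {m k : ℕ} (Q : Fin (k + 1) → Set (Fin m → ℝ)) : Set (Fin m ⊕ Fin k → ℝ) :=
  convexHull ℝ (⋃ i, (fun q => Sum.elim q (cayVertex i)) '' Q i)

/-- lattice equivalence: an affine map `x ↦ A x + b` with `A` an integer matrix having an integer
inverse and `b` an integer vector carries `P` onto `P'` -/
def LatticeEquiv {ι κ : Type} [Fintype ι] [Fintype κ] [DecidableEq ι] [DecidableEq κ]
    (P : Set (ι → ℝ)) (P' : Set (κ → ℝ)) : Prop :=
  ∃ (A : Matrix κ ι ℤ) (B : Matrix ι κ ℤ) (b : κ → ℤ), A * B = 1 ∧ B * A = 1 ∧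
    (fun x => (A.map (fun n : ℤ => (n : ℝ))).mulVec x + toReal b) '' P = P'

/-- `P ⊆ ℝ^d` is a Cayley polytope of `c` lattice polytopes -/
def IsCayley {d : ℕ} (P : Set (Fin d → ℝ)) (c : ℕ) : Prop :=
  ∃ (m k : ℕ) (Q : Fin (k + 1) → Set (Fin m → ℝ)), c = k + 1 ∧ m + k = d ∧
    (∀ i, IsLatticePolytope (Q i)) ∧ LatticeEquiv P (cayley Q)

end Pool.Agent.H230Z.Cay
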