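import Pool.Agent.H230Z.CayDefs

set_option autoImplicit false
set_option linter.unusedSimpArgs false
set_option linter.unusedSectionVars false

open scoped Pointwise
open Finset

namespace Pool.Agent.H230Z.Cay

section simplex

variable {ι : Type} [Fintype ι] [DecidableEq ι] (p : ι → Prop) [DecidablePred p] (B : ι → ι → ℤ)

def Vx (a r : ι) : ℤ :=
  if p a then (if p r then (if r = a then 2 else 0) else B r a) else (if r = a then 1 else 0)

def Tz (r : ι) (z : ι → ℤ) : ℤ :=
  if p r then z r else 2 * z r - ∑ j, (if p j then B r j * z j else 0)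

def Tl (r : ι) : (ι → ℝ) →ₗ[ℝ] ℝ where
  toFun x := if p r then x r else 2 * x r - ∑ j, (if p j then (B r j : ℝ) * x j else 0)
  map_add' x y := by
    split_ifs
    · simp
    · have : ∀ j, (if p j then (B r j : ℝ) * (x + y) j else 0) =
          (if p j then (B r j : ℝ) * x j else 0) + (if p j then (B r j : ℝ) * y j else 0) := by
        intro j; split_ifs <;> simp [mul_add]
      rw [Finset.sum_congr rfl fun j _ => this j, sum_add_distrib, Pi.add_apply]
      ring
  map_smul' c x := by
    split_ifs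
    · simp
    · have : ∀ j, (if p j then (B r j : ℝ) * (c • x) j else 0) =
          c * (if p j then (B r j : ℝ) * x j else 0) := by
        intro j; split_ifs <;> simp; ring
      rw [Finset.sum_congr rfl fun j _ => this j, ← mul_sum]
      simp only [Pi.smul_apply, smul_eq_mul, RingHom.id_apply]
      ring

lemma Tl_apply (r : ι) (x : ι → ℝ) :
    Tl p B r x = if p r then x r else 2 * x r - ∑ j, (if p j then (B r j : ℝ) * x j else 0) := rfl

lemma Tl_toReal (r : ι) (z : ι → ℤ) : Tl p B r (toReal z) = (Tz p B r z : ℝ) := by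
  rw [Tl_apply]
  unfold Tz toReal
  split_ifs
  · rfl
  · push_cast
    rfl

lemma Tz_Vx (r a : ι) : Tz p B r (Vx p B a) = if r = a then 2 else 0 := by
  unfold Tz Vx
  by_cases hr : p r <;> by_cases ha : p a
  · simp [hr, ha]
  · have : r ≠ a := fun h => ha (h ▸ hr)
    simp [hr, ha, this]
  · have hne : r ≠ a := fun h => hr (h ▸ ha)
    have : ∀ j, (if p j then B r j * (if p j then (if j = a then (2 : ℤ) else 0) else B j a) else 0)
        = if j = a then 2 * B r a else 0 := by
      intro j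
      by_cases hj : j = a
      · subst hj; simp [ha, mul_comm]
      · by_cases hpj : p j <;> simp [hj, hpj]
    simp only [hr, ha, if_true, if_false, this, hne]
    simp
  · have : ∀ j, (if p j then B r j * (if j = a then (1 : ℤ) else 0) else 0) = 0 := by
      intro j
      by_cases hj : j = a
      · subst hj; simp [ha]
      · simp [hj]
    simp only [hr, ha, if_false, this]
    split_ifs <;> simp

lemma sum_Tl_Vx (x : ι → ℝ) (r : ι) : ∑ a, Tl p B a x * (Vx p B a r : ℝ) = 2 * x r := by
  by_cases hr : p r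
  · rw [Finset.sum_eq_single r]
    · simp [Tl_apply, Vx, hr, mul_comm]
    · intro a _ ha
      have : r ≠ a := fun h => ha h.symm
      by_cases hpa : p a <;> simp [Vx, hr, this, hpa]
    · simp
  · have : ∀ a, Tl p B a x * (Vx p B a r : ℝ) =
        (if p a then (B r a : ℝ) * x a else 0) + (if a = r then Tl p B r x else 0) := by
      intro a
      by_cases hpa : p a
      · have : a ≠ r := fun h => hr (h ▸ hpa)
        simp [Tl_apply, Vx, hr, hpa, this, mul_comm]
      · by_cases har : a = r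
        · subst har; simp [Vx, hr]
        · have : r ≠ a := fun h => har h.symm
          simp [Vx, hpa, har, this]
    simp only [this, sum_add_distrib, Finset.sum_ite_eq', mem_univ, if_true]
    rw [Tl_apply, if_neg hr]
    ring

def Vs : Finset (ι → ℤ) := insert 0 (univ.image (Vx p B))

def PP : Set (ι → ℝ) := convexHull ℝ (toReal '' (Vs p B : Set (ι → ℤ)))

lemma isLat : IsLatticePolytope (PP p B) := ⟨Vs p B, ⟨0, by simp [Vs]⟩, rfl⟩

lemma toReal_zero : toReal (0 : ι → ℤ) = 0 := by
  funext r; simp [toReal]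

lemma zero_mem_PP : (0 : ι → ℝ) ∈ PP p B :=
  subset_convexHull ℝ _ ⟨0, by simp [Vs], toReal_zero⟩

lemma Vx_mem_PP (a : ι) : toReal (Vx p B a) ∈ PP p B :=
  subset_convexHull ℝ _ ⟨Vx p B a, by simp [Vs], rfl⟩

lemma decomp (x : ι → ℝ) : x = ∑ a, (Tl p B a x / 2) • toReal (Vx p B a) := by
  funext r
  have := sum_Tl_Vx p B x r
  simp only [Finset.sum_apply, Pi.smul_apply, smul_eq_mul, toReal]
  have e : ∑ a, Tl p B a x / 2 * (Vx p B a r : ℝ) = (∑ a, Tl p B a x * (Vx p B a r : ℝ)) / 2 := by
    rw [Finset.sum_div]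
    refine Finset.sum_congr rfl fun a _ => by ring
  rw [e, this]
  ring

lemma mem_PP (x : ι → ℝ) :
    x ∈ PP p B ↔ (∀ r, 0 ≤ Tl p B r x) ∧ ∑ r, Tl p B r x ≤ 2 := by
  constructor
  · intro hx
    have hc : Convex ℝ {x : ι → ℝ | (∀ r, 0 ≤ Tl p B r x) ∧ ∑ r, Tl p B r x ≤ 2} := by
      intro x hx y hy a b ha hb hab
      refine ⟨fun r => ?_, ?_⟩
      · simp only [map_add, map_smul, smul_eq_mul]
        have := hx.1 r
        have := hy.1 r
        positivity
      · simp only [map_add, map_smul, smul_eq_mul, sum_add_distrib, ← mul_sum]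
        have h1 := hx.2
        have h2 := hy.2
        nlinarith
    refine convexHull_min ?_ hc hx
    rintro _ ⟨z, hz, rfl⟩
    simp only [Vs, coe_insert, coe_image, coe_univ, Set.image_univ, Set.mem_insert_iff,
      Set.mem_range] at hz
    rcases hz with rfl | ⟨a, rfl⟩
    · rw [toReal_zero]
      simp
    · refine ⟨fun r => ?_, ?_⟩
      · rw [Tl_toReal, Tz_Vx]
        split_ifs <;> norm_num
      · simp only [Tl_toReal, Tz_Vx]
        push_cast
        simp
  · rintro ⟨h1, h2⟩
    have hc : Convex ℝ (PP p B) := convex_convexHull ℝ _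
    have := hc.sum_mem (t := (univ : Finset (Option ι)))
      (w := fun o => o.elim (1 - (∑ r, Tl p B r x) / 2) fun a => Tl p B a x / 2)
      (z := fun o => o.elim 0 fun a => toReal (Vx p B a))
      (by
        rintro (_ | a) _
        · simp only [Option.elim]; linarith
        · simp only [Option.elim]; linarith [h1 a])
      (by
        rw [Fintype.sum_option]
        simp only [Option.elim, ← Finset.sum_div]
        ring)
      (by
        rintro (_ | a) _
        · exact zero_mem_PP p B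
        · exact Vx_mem_PP p B a)
    rw [Fintype.sum_option] at this
    simp only [Option.elim, smul_zero, zero_add] at this
    rwa [← decomp p B x] at this

lemma mem_smul_PP {k : ℝ} (hk : 0 < k) (x : ι → ℝ) :
    x ∈ k • PP p B ↔ (∀ r, 0 ≤ Tl p B r x) ∧ ∑ r, Tl p B r x ≤ 2 * k := by
  rw [Set.mem_smul_set_iff_inv_smul_mem₀ hk.ne', mem_PP]
  simp only [map_smul, smul_eq_mul, ← mul_sum]
  have hi : 0 < k⁻¹ := inv_pos.2 hk
  constructor
  · rintro ⟨h1, h2⟩
    refine ⟨fun r => (mul_nonneg_iff_of_pos_left hi).1 (h1 r), ?_⟩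
    rw [inv_mul_le_iff₀ hk] at h2
    linarith
  · rintro ⟨h1, h2⟩
    refine ⟨fun r => mul_nonneg hi.le (h1 r), ?_⟩
    rw [inv_mul_le_iff₀ hk]
    linarith

omit [DecidableEq ι] in
lemma lt_of_interior {S : Set (ι → ℝ)} {x : ι → ℝ} (hx : x ∈ interior S) (f : (ι → ℝ) →ₗ[ℝ] ℝ)
    (c : ℝ) (hS : ∀ y ∈ S, f y ≤ c) (u : ι → ℝ) (hu : 0 < f u) : f x < c := by
  have hc : Continuous fun e : ℝ => x + e • u := by fun_prop
  have h1 : (fun e : ℝ => x + e • u) ⁻¹' interior S ∈ nhds (0 : ℝ) := by
    apply hc.continuousAt.preimage_mem_nhds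
    simpa using isOpen_interior.mem_nhds hx
  obtain ⟨ε, hε, hb⟩ := Metric.mem_nhds_iff.1 h1
  have h2 : ε / 2 ∈ Metric.ball (0 : ℝ) ε := by
    rw [Metric.mem_ball, Real.dist_eq, sub_zero, abs_of_pos (by linarith)]
    linarith
  have h3 := hS _ (interior_subset (hb h2))
  simp only [map_add, map_smul, smul_eq_mul] at h3
  have : 0 < ε / 2 * f u := by positivity
  linarith

lemma mem_interior_PP [Nonempty ι] {k : ℝ} (hk : 0 < k) (x : ι → ℝ) :
    x ∈ interior (k • PP p B) ↔ (∀ r, 0 < Tl p B r x) ∧ ∑ r, Tl p B r x < 2 * k := by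
  constructor
  · intro hx
    refine ⟨fun r => ?_, ?_⟩
    · have := lt_of_interior hx (-Tl p B r) 0
        (fun y hy => by simpa using ((mem_smul_PP p B hk y).1 hy).1 r) (-toReal (Vx p B r))
        (by simp [Tl_toReal, Tz_Vx])
      simpa using this
    · obtain ⟨a⟩ := ‹Nonempty ι›
      have := lt_of_interior hx (∑ r, Tl p B r) (2 * k)
        (fun y hy => by simpa using ((mem_smul_PP p B hk y).1 hy).2) (toReal (Vx p B a))
        (by
          simp only [LinearMap.coe_sum, Finset.sum_apply, Tl_toReal, Tz_Vx]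
          push_cast
          simp)
      simpa using this
  · intro hx
    have ho : IsOpen {x : ι → ℝ | (∀ r, 0 < Tl p B r x) ∧ ∑ r, Tl p B r x < 2 * k} := by
      have h1 : ∀ r, Continuous (Tl p B r) := fun r => LinearMap.continuous_of_finiteDimensional _
      have : {x : ι → ℝ | (∀ r, 0 < Tl p B r x) ∧ ∑ r, Tl p B r x < 2 * k} =
          (⋂ r, {x | 0 < Tl p B r x}) ∩ {x | ∑ r, Tl p B r x < 2 * k} := by
        ext x; simp
      rw [this]
      refine (isOpen_iInter_of_finite fun r => isOpen_lt continuous_const (h1 r)).inter ?_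
      exact isOpen_lt (continuous_finsetSum _ fun r _ => h1 r) continuous_const
    refine interior_maximal (fun y hy => ?_) ho hx
    exact (mem_smul_PP p B hk y).2 ⟨fun r => (hy.1 r).le, hy.2.le⟩

lemma lattice_interior [Nonempty ι] {k : ℕ} (hk : 1 ≤ k) (z : ι → ℤ) :
    toReal z ∈ interior ((k : ℝ) • PP p B) ↔
      (∀ r, 0 < Tz p B r z) ∧ ∑ r, Tz p B r z < 2 * k := by
  rw [mem_interior_PP p B (by exact_mod_cast hk)]
  simp only [Tl_toReal]
  constructor
  · rintro ⟨h1, h2⟩
    exact ⟨fun r => by exact_mod_cast h1 r, by exact_mod_cast h2⟩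
  · rintro ⟨h1, h2⟩
    exact ⟨fun r => by exact_mod_cast h1 r, by exact_mod_cast h2⟩

lemma span_top [Nonempty ι] : affineSpan ℝ (PP p B) = ⊤ := by
  have hcv : Convex ℝ (PP p B) := convex_convexHull ℝ _
  rw [← hcv.interior_nonempty_iff_affineSpan_eq_top]
  have hn : (0 : ℝ) < Fintype.card ι := by exact_mod_cast Fintype.card_pos
  refine ⟨∑ a, (1 / (2 * (Fintype.card ι : ℝ))) • toReal (Vx p B a), ?_⟩
  have h := (mem_interior_PP p B one_pos
    (∑ a, (1 / (2 * (Fintype.card ι : ℝ))) • toReal (Vx p B a))).2 ?_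
  · simpa using h
  · have : ∀ r, Tl p B r (∑ a, (1 / (2 * (Fintype.card ι : ℝ))) • toReal (Vx p B a)) =
        1 / (Fintype.card ι : ℝ) := by
      intro r
      simp only [map_sum, map_smul, smul_eq_mul, Tl_toReal, Tz_Vx, ← mul_sum]
      push_cast
      simp
    simp only [this]
    refine ⟨fun _ => by positivity, ?_⟩
    simp

end simplex

section cay

variable {m k : ℕ}

/-- barycentric coordinates of the Cayley structure -/
def ell (i : Fin (k + 1)) (w : Fin m ⊕ Fin k → ℝ) : ℝ :=
  Fin.cases (1 - ∑ j, w (Sum.inr j)) (fun j => w (Sum.inr j)) i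

lemma sum_ell (w : Fin m ⊕ Fin k → ℝ) : ∑ i, ell i w = 1 := by
  rw [Fin.sum_univ_succ]
  simp [ell]

lemma ell_vertex (i i' : Fin (k + 1)) (q : Fin m → ℝ) :
    ell i (Sum.elim q (cayVertex i')) = if i' = i then 1 else 0 := by
  refine Fin.cases ?_ (fun j => ?_) i
  · refine Fin.cases ?_ (fun j' => ?_) i'
    · simp [ell, cayVertex, (Fin.succ_ne_zero _).symm]
    · simp [ell, cayVertex]
  · simp [ell, cayVertex]

lemma ell_nonneg (Q : Fin (k + 1) → Set (Fin m → ℝ)) {w : Fin m ⊕ Fin k → ℝ} (hw : w ∈ cayley Q)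
    (i : Fin (k + 1)) : 0 ≤ ell i w := by
  have hc : Convex ℝ {w : Fin m ⊕ Fin k → ℝ | 0 ≤ ell i w} := by
    intro x hx y hy a b ha hb hab
    have : ell i (a • x + b • y) = a * ell i x + b * ell i y := by
      refine Fin.cases ?_ (fun j => ?_) i
      · simp only [ell, Fin.cases_zero, Pi.add_apply, Pi.smul_apply, smul_eq_mul, sum_add_distrib,
          ← mul_sum]
        linear_combination (-1 : ℝ) * hab
      · simp [ell]
    show 0 ≤ ell i (a • x + b • y)
    rw [this]
    have h1 : 0 ≤ ell i x := hx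
    have h2 : 0 ≤ ell i y := hy
    positivity
  refine convexHull_min ?_ hc hw
  intro w hw
  simp only [Set.mem_iUnion, Set.mem_image] at hw
  obtain ⟨i', q, -, rfl⟩ := hw
  show 0 ≤ ell i _
  rw [ell_vertex]
  split_ifs <;> norm_num

/-- A Cayley structure gives integral affine functionals, nonnegative on `P`, with sum one, each
taking the value one somewhere on `P`. -/
lemma cayley_functionals {d c : ℕ} {P : Set (Fin d → ℝ)} (h : IsCayley P c) :
    ∃ (w : Fin c → Fin d → ℤ) (w0 : Fin c → ℤ),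
      (∀ i, ∀ x ∈ P, 0 ≤ ∑ r, (w i r : ℝ) * x r + w0 i) ∧
      (∀ x : Fin d → ℝ, ∑ i, (∑ r, (w i r : ℝ) * x r + w0 i) = 1) ∧
      (∀ i, ∃ x ∈ P, ∑ r, (w i r : ℝ) * x r + w0 i = 1) := by
  obtain ⟨m, k, Q, rfl, -, hQ, A, B, b, -, -, him⟩ := h
  let w : Fin (k + 1) → Fin d → ℤ :=
    fun i r => Fin.cases (-∑ j, A (Sum.inr j) r) (fun j => A (Sum.inr j) r) i
  let w0 : Fin (k + 1) → ℤ := fun i => Fin.cases (1 - ∑ j, b (Sum.inr j)) (fun j => b (Sum.inr j)) i
  have key : ∀ (i : Fin (k + 1)) (x : Fin d → ℝ), ∑ r, (w i r : ℝ) * x r + w0 i =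
      ell i ((A.map (fun n : ℤ => (n : ℝ))).mulVec x + toReal b) := by
    intro i x
    refine Fin.cases ?_ (fun j => ?_) i
    · simp only [w, w0, ell, Fin.cases_zero, Pi.add_apply, Matrix.mulVec, dotProduct,
        Matrix.map_apply, toReal, sum_add_distrib]
      push_cast
      rw [Finset.sum_comm]
      simp only [neg_mul, sum_mul, sum_neg_distrib]
      ring
    · simp [w, w0, ell, Matrix.mulVec, dotProduct, toReal]
  refine ⟨w, w0, fun i x hx => ?_, fun x => ?_, fun i => ?_⟩
  · rw [key]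
    apply ell_nonneg Q
    rw [← him]
    exact ⟨x, hx, rfl⟩
  · simp only [key]
    exact sum_ell _
  · obtain ⟨V, ⟨z, hz⟩, hV⟩ := hQ i
    have hq : toReal z ∈ Q i := by
      rw [hV]
      exact subset_convexHull ℝ _ ⟨z, hz, rfl⟩
    have : Sum.elim (toReal z) (cayVertex i) ∈ cayley Q :=
      subset_convexHull ℝ _ (Set.mem_iUnion.2 ⟨i, toReal z, hq, rfl⟩)
    rw [← him] at this
    obtain ⟨x, hx, hx2⟩ := this
    refine ⟨x, hx, ?_⟩
    rw [key]
    have hx3 : (A.map (fun n : ℤ => (n : ℝ))).mulVec x + toReal b =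
      Sum.elim (toReal z) (cayVertex i) := hx2
    rw [hx3, ell_vertex]
    simp

end cay

end Pool.Agent.H230Z.Cay
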