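import Pool.Agent.H230Z.CayGeom
import Pool.Agent.H230Z.CayCode2

set_option autoImplicit false
set_option maxRecDepth 100000

open Finset
open scoped Pointwise

namespace Pool.Agent.H230Z.Cay

open Pool.Agent.H230Z.Code

def pp (r : Fin 126) : Prop := r.val < 14

instance : DecidablePred pp := fun r => inferInstanceAs (Decidable (r.val < 14))

def BB (r j : Fin 126) : ℤ := bt (h r.val) j.val

def P0 : Set (Fin 126 → ℝ) := PP pp BB

def y0 (j : ℕ) : ℤ := if (13 : ℕ).testBit j then 1 else 2

def z0 (r : Fin 126) : ℤ :=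
  if r.val < 14 then y0 r.val else (∑ j ∈ range 14, bt (h r.val) j * y0 j) / 2 + 1

lemma sum_info (z : Fin 126 → ℤ) (g : ℕ → ℤ) (y : ℕ → ℤ) (hy : ∀ j : Fin 126, j.val < 14 → y j = z j) :
    ∑ j : Fin 126, (if pp j then g j.val * z j else 0) = ∑ j ∈ range 14, g j * y j := by
  have h1 : ∑ j : Fin 126, (if pp j then g j.val * z j else 0) =
      ∑ j : Fin 126, (fun n : ℕ => if n < 14 then g n * y n else 0) j.val := by
    refine Finset.sum_congr rfl fun j _ => ?_
    by_cases hj : j.val < 14
    · have : pp j := hj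
      simp [this, hj, hy j hj]
    · have : ¬ pp j := hj
      simp [this, hj]
  rw [h1, Fin.sum_univ_eq_sum_range (fun n : ℕ => if n < 14 then g n * y n else 0) 126,
    show 126 = 14 + 112 by norm_num, Finset.sum_range_add]
  have h2 : ∑ x ∈ range 112, (if 14 + x < 14 then g (14 + x) * y (14 + x) else 0) = 0 := by
    refine Finset.sum_eq_zero fun x _ => ?_
    rw [if_neg (by omega)]
  rw [h2, add_zero]
  refine Finset.sum_congr rfl fun j hj => ?_
  rw [if_pos (Finset.mem_range.1 hj)]

def t0 (r : ℕ) : ℤ :=
  if r < 14 then y0 r else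
    2 * ((∑ j ∈ range 14, bt (h r) j * y0 j) / 2 + 1) - ∑ j ∈ range 14, bt (h r) j * y0 j

lemma Tz_z0 (r : Fin 126) : Tz pp BB r z0 = t0 r.val := by
  unfold Tz t0
  by_cases hr : r.val < 14
  · have : pp r := hr
    simp [this, hr, z0]
  · have : ¬ pp r := hr
    rw [if_neg this, if_neg hr]
    have := sum_info z0 (fun j => bt (h r.val) j) y0 (fun j hj => by simp [z0, hj])
    unfold BB
    rw [this]
    simp [z0, hr]

theorem t0_pos : ∀ r < 126, 0 < t0 r := by decide +kernel

theorem t0_sum : ∑ r ∈ range 126, t0 r = 180 := by decide +kernel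

lemma mem91 : toReal z0 ∈ interior (((91 : ℕ) : ℝ) • P0) := by
  unfold P0
  rw [lattice_interior pp BB (by norm_num)]
  simp only [Tz_z0]
  refine ⟨fun r => t0_pos r r.2, ?_⟩
  rw [Fin.sum_univ_eq_sum_range t0 126, t0_sum]
  norm_num

lemma ge91 {k : ℕ} (hk : 1 ≤ k) (z : Fin 126 → ℤ) (hz : toReal z ∈ interior ((k : ℝ) • P0)) :
    91 ≤ k := by
  unfold P0 at hz
  rw [lattice_interior pp BB hk] at hz
  obtain ⟨h1, h2⟩ := hz
  let y : ℕ → ℤ := fun j => if hj : j < 126 then z ⟨j, hj⟩ else 0
  have hy : ∀ j : Fin 126, y j = z j := fun j => by simp [y]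
  obtain ⟨n, hn, hpar⟩ := weight_le y
  have key : ∀ r : Fin 126, 2 - bt n r.val ≤ Tz pp BB r z := by
    intro r
    have hp := hpar r.val r.2
    have hpos := h1 r
    have hc := bt_cases n r.val
    have : Tz pp BB r z % 2 = (∑ j ∈ range 14, y j * bt (h r.val) j) % 2 := by
      unfold Tz
      by_cases hr : r.val < 14
      · have : pp r := hr
        rw [if_pos this, Finset.sum_eq_single r.val]
        · unfold bt
          rw [h_sys _ hr _ hr, hy]
          simp
        · intro j hj hjr
          unfold bt
          rw [h_sys _ hr _ (Finset.mem_range.1 hj)]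
          simp [Ne.symm hjr]
        · intro hh
          exact absurd (Finset.mem_range.2 hr) hh
      · have hr' : ¬ pp r := hr
        rw [if_neg hr']
        have := sum_info z (fun j => bt (h r.val) j) y (fun j _ => hy j)
        unfold BB
        rw [this]
        have e : ∑ j ∈ range 14, y j * bt (h r.val) j = ∑ j ∈ range 14, bt (h r.val) j * y j :=
          Finset.sum_congr rfl fun j _ => mul_comm _ _
        rw [e]
        omega
    omega
  have h3 : ∑ r : Fin 126, (2 - bt n r.val) ≤ ∑ r, Tz pp BB r z := Finset.sum_le_sum fun r _ => key r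
  rw [Finset.sum_sub_distrib, Fin.sum_univ_eq_sum_range (fun r => bt n r) 126] at h3
  simp only [Finset.sum_const, Finset.card_univ, Fintype.card_fin] at h3
  norm_num at h3
  omega

theorem codegree_P0 : codegree P0 = 91 := by
  unfold codegree
  apply le_antisymm
  · exact Nat.sInf_le ⟨by norm_num, z0, mem91⟩
  · refine le_csInf ⟨91, by norm_num, z0, mem91⟩ ?_
    rintro k ⟨hk, z, hz⟩
    exact ge91 hk z hz

theorem par_ok : ∀ j < 14,
    (1 + ∑ r ∈ range 126, (if r < 14 then 0 else bt (h r) j) + bt (h 126) j) % 2 = 0 := by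
  decide +kernel

def idx : Option (Fin 126) → ℕ
  | none => 126
  | some a => a.val

lemma idx_inj : Function.Injective idx := by
  rintro (_ | a) (_ | b) hab
  · rfl
  · have := b.2; simp [idx] at hab; omega
  · have := a.2; simp [idx] at hab; omega
  · simp only [idx] at hab
    rw [Fin.ext hab]

def val (w : Fin 126 → ℤ) (w0 : ℤ) : Option (Fin 126) → ℤ
  | none => w0
  | some a => ∑ r, w r * Vx pp BB a r + w0

lemma val_par (w : Fin 126 → ℤ) (w0 : ℤ) (j : ℕ) (hj : j < 14) :
    (∑ o, val w w0 o * bt (h (idx o)) j) % 2 = 0 := by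
  rw [Fintype.sum_option]
  let J : Fin 126 := ⟨j, by omega⟩
  have hJ : pp J := hj
  have h1 : ∀ a : Fin 126, val w w0 (some a) * bt (h (idx (some a))) j =
      (if a = J then val w w0 (some J) else 0) +
        ((if pp a then 0 else w a * bt (h a.val) j) +
          w0 * (if a.val < 14 then 0 else bt (h a.val) j)) := by
    intro a
    by_cases ha : a.val < 14
    · have hpa : pp a := ha
      simp only [idx, hpa, ha, if_true]
      unfold bt
      rw [h_sys _ ha _ hj]
      by_cases e : a = J
      · subst e; simp [J]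
      · have : a.val ≠ j := fun hh => e (Fin.ext hh)
        simp [e, this]
    · have hpa : ¬ pp a := ha
      have e : a ≠ J := fun hh => hpa (hh ▸ hJ)
      simp only [idx, hpa, ha, if_false, e, val, Vx]
      simp only [mul_ite, mul_one, mul_zero, Finset.sum_ite_eq', mem_univ, if_true]
      ring
  have h2 : val w w0 (some J) = 2 * w J + ∑ a, (if pp a then 0 else w a * bt (h a.val) j) + w0 := by
    simp only [val, Vx, hJ, if_true]
    congr 1
    have : ∀ r, w r * (if pp r then (if r = J then (2 : ℤ) else 0) else BB r J) =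
        (if r = J then 2 * w J else 0) + (if pp r then 0 else w r * bt (h r.val) j) := by
      intro r
      by_cases e : r = J
      · subst e; simp [hJ, mul_comm]
      · by_cases hr : pp r <;> simp [e, hr, BB, J]
    rw [Finset.sum_congr rfl fun r _ => this r, Finset.sum_add_distrib]
    simp
  rw [Finset.sum_congr rfl fun a _ => h1 a, Finset.sum_add_distrib, Finset.sum_add_distrib,
    ← Finset.mul_sum,
    Fin.sum_univ_eq_sum_range (fun r => if r < 14 then 0 else bt (h r) j) 126]
  simp only [Finset.sum_ite_eq', mem_univ, if_true]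
  rw [h2]
  have h3 := par_ok j hj
  obtain ⟨q, hq⟩ : ∃ q : ℤ, 1 + ∑ r ∈ range 126, (if r < 14 then 0 else bt (h r) j) +
      bt (h 126) j = 2 * q := ⟨_, (Int.mul_ediv_cancel' (Int.dvd_of_emod_eq_zero h3)).symm⟩
  simp only [val, idx]
  have e : w0 * bt (h 126) j + (2 * w J + ∑ a, (if pp a then 0 else w a * bt (h a.val) j) + w0 +
      (∑ a, (if pp a then 0 else w a * bt (h a.val) j) +
        w0 * ∑ r ∈ range 126, (if r < 14 then 0 else bt (h r) j))) =
      2 * (w J + ∑ a, (if pp a then 0 else w a * bt (h a.val) j) + w0 * q) := by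
    linear_combination w0 * hq
  rw [e]
  omega

def pt : Option (Fin 126) → (Fin 126 → ℝ)
  | none => 0
  | some a => toReal (Vx pp BB a)

lemma pt_mem (o : Option (Fin 126)) : pt o ∈ P0 := by
  cases o with
  | none => exact zero_mem_PP pp BB
  | some a => exact Vx_mem_PP pp BB a

lemma val_cast (w : Fin 126 → ℤ) (w0 : ℤ) (o : Option (Fin 126)) :
    ∑ r, (w r : ℝ) * pt o r + w0 = (val w w0 o : ℝ) := by
  cases o with
  | none => simp [pt, val]
  | some a => simp [pt, val, toReal]

theorem cayley_le {c : ℕ} (hc : IsCayley P0 c) : c ≤ 25 := by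
  obtain ⟨w, w0, h1, h2, h3⟩ := cayley_functionals hc
  have v0 : ∀ i o, 0 ≤ val (w i) (w0 i) o := by
    intro i o
    have := h1 i _ (pt_mem o)
    rw [val_cast] at this
    exact_mod_cast this
  have vs : ∀ o, ∑ i, val (w i) (w0 i) o = 1 := by
    intro o
    have := h2 (pt o)
    simp only [val_cast] at this
    exact_mod_cast this
  have v1 : ∀ i o, val (w i) (w0 i) o ≤ 1 := by
    intro i o
    rw [← vs o]
    exact Finset.single_le_sum (fun i _ => v0 i o) (mem_univ i)
  have five : ∀ i, 5 ≤ ∑ o, val (w i) (w0 i) o := by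
    intro i
    let S : Finset (Option (Fin 126)) := univ.filter fun o => val (w i) (w0 i) o = 1
    have hind : ∀ o, val (w i) (w0 i) o = if val (w i) (w0 i) o = 1 then 1 else 0 := by
      intro o
      have := v0 i o
      have := v1 i o
      split_ifs <;> omega
    have hcard : ∑ o, val (w i) (w0 i) o = S.card := by
      rw [Finset.sum_congr rfl fun o _ => hind o, Finset.sum_boole]
    have hne : S.Nonempty := by
      by_contra hS
      have hz : ∀ o, val (w i) (w0 i) o = 0 := by
        intro o
        rw [hind o, if_neg]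
        intro ho
        exact hS ⟨o, Finset.mem_filter.2 ⟨mem_univ _, ho⟩⟩
      obtain ⟨x, -, hx⟩ := h3 i
      have hw0 : w0 i = 0 := hz none
      have hv : ∀ a, ∑ r, (w i r : ℝ) * toReal (Vx pp BB a) r = 0 := by
        intro a
        have := val_cast (w i) (w0 i) (some a)
        rw [hz, hw0] at this
        simpa [pt] using this
      have : ∑ r, (w i r : ℝ) * x r = 0 := by
        conv_lhs => rw [decomp pp BB x]
        simp only [Finset.sum_apply, Pi.smul_apply, smul_eq_mul, Finset.mul_sum]
        rw [Finset.sum_comm]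
        refine Finset.sum_eq_zero fun a _ => ?_
        have e : ∑ r, (w i r : ℝ) * (Tl pp BB a x / 2 * toReal (Vx pp BB a) r) =
            Tl pp BB a x / 2 * ∑ r, (w i r : ℝ) * toReal (Vx pp BB a) r := by
          rw [Finset.mul_sum]
          exact Finset.sum_congr rfl fun r _ => by ring
        rw [e, hv, mul_zero]
      rw [this, hw0] at hx
      simp at hx
    have h5 := dual5 (S.image idx)
      (by
        intro a ha
        obtain ⟨o, -, rfl⟩ := Finset.mem_image.1 ha
        cases o with
        | none => simp [idx]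
        | some a => have := a.2; simp only [idx]; omega)
      (hne.image _)
      (by
        intro j hj
        rw [Finset.sum_image fun a _ b _ hab => idx_inj hab]
        have := val_par (w i) (w0 i) j hj
        rw [← this]
        congr 1
        rw [Finset.sum_filter]
        refine Finset.sum_congr rfl fun o _ => ?_
        split_ifs with ho
        · rw [ho, one_mul]
        · rw [hind o, if_neg ho, zero_mul])
    rw [Finset.card_image_of_injective _ idx_inj] at h5
    rw [hcard]
    exact_mod_cast h5
  have h6 : ∑ _i : Fin c, (5 : ℤ) ≤ ∑ i, ∑ o, val (w i) (w0 i) o := Finset.sum_le_sum fun i _ => five i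
  rw [Finset.sum_comm] at h6
  simp only [vs, Finset.sum_const, Finset.card_univ, Fintype.card_fin, Fintype.card_option] at h6
  norm_num at h6
  omega

theorem main : ∃ (d s : ℕ) (P : Set (Fin d → ℝ)), IsLatticePolytope P ∧ affineSpan ℝ P = ⊤ ∧
    degree P = s ∧ 1 ≤ s ∧ (17 * (s : ℚ) - 4) / 6 < d ∧
    ∀ c : ℕ, (d : ℤ) + 1 - ⌊(17 * (s : ℚ) - 4) / 6⌋ ≤ c → ¬ IsCayley P c := by
  refine ⟨126, 36, P0, isLat pp BB, span_top pp BB, ?_, by norm_num, by norm_num, ?_⟩
  · unfold degree
    rw [codegree_P0]
    norm_num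
  · intro c hc h
    have h1 := cayley_le h
    have h2 : ⌊(17 * ((36 : ℕ) : ℚ) - 4) / 6⌋ = 101 := by
      rw [Int.floor_eq_iff]
      norm_num
    rw [h2] at hc
    push_cast at hc
    omega

end Pool.Agent.H230Z.Cay
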