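import Pool.Agent.H230Z.DDMatch
import Pool.Agent.Helper879.ECD.Tutte

set_option autoImplicit false

namespace Pool.Agent.H230Z.DD

open Finset
open Pool.Agent.Helper879.ECD

variable {V : Type} [DecidableEq V] [Fintype V] {G : SimpleGraph V}

/-- Tutte theorem for an induced subgraph, in finset form -/
theorem tutte_fin (W : Finset V) (hev : Even #W) (h : ¬ PM G W) :
    ∃ T : Finset V, ∃ Q : Finset (Finset V), T ⊆ W ∧ #T + 2 ≤ #Q ∧
      (∀ Z ∈ Q, Z ⊆ W ∧ Disjoint Z T ∧ Odd #Z ∧ ∀ x ∈ Z, ∀ y ∈ W, G.Adj x y → y ∈ Z ∨ y ∈ T) ∧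
      ∀ Z ∈ Q, ∀ Z' ∈ Q, Z ≠ Z' → Disjoint Z Z' := by
  classical
  let H : SimpleGraph W := G.comap Subtype.val
  obtain ⟨U, hU, -⟩ := exists_min_barrier (H := H) (by simpa using hev) (by
    rintro ⟨M, hM⟩
    apply h
    have k : ∀ v : W, ∃ w : W, M.Adj v w ∧ ∀ y, M.Adj v y → y = w := fun v =>
      hM.1 (hM.2 v)
    choose g hg1 hg2 using k
    refine ⟨fun x => if hx : x ∈ W then (g ⟨x, hx⟩).1 else x, ?_⟩
    intro x hx
    simp only [dif_pos hx, dif_pos (g ⟨x, hx⟩).2]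
    refine ⟨(g ⟨x, hx⟩).2, ?_, M.adj_sub (hg1 ⟨x, hx⟩)⟩
    have := hg2 (g ⟨x, hx⟩) ⟨x, hx⟩ (hg1 ⟨x, hx⟩).symm
    exact (congrArg Subtype.val this).symm)
  let φ : Set W → Finset V := fun Z => W.filter (fun x => ∃ hx : x ∈ W, (⟨x, hx⟩ : W) ∈ Z)
  have mφ : ∀ (Z : Set W) (x : W), x.1 ∈ φ Z ↔ x ∈ Z := by
    intro Z x
    simp only [φ, mem_filter]
    exact ⟨fun h => h.2.2, fun h => ⟨x.2, x.2, h⟩⟩
  have sφ : ∀ Z, φ Z ⊆ W := fun Z => filter_subset _ _
  have cφ : ∀ Z : Set W, #(φ Z) = Z.ncard := by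
    intro Z
    rw [← Set.ncard_image_of_injective Z Subtype.val_injective, ← Set.ncard_coe_finset]
    congr 1
    ext x
    constructor
    · intro hx
      have hW := sφ Z hx
      exact ⟨⟨x, hW⟩, (mφ Z ⟨x, hW⟩).mp hx, rfl⟩
    · rintro ⟨y, hy, rfl⟩
      exact (mφ Z y).mpr hy
  have iφ : Function.Injective φ := by
    intro Z Z' e
    ext x
    rw [← mφ, ← mφ, e]
  refine ⟨φ U, (Set.toFinite {Z | OddComp H U Z}).toFinset.image φ, sφ U, ?_, ?_, ?_⟩
  · rw [card_image_of_injective _ iφ, cφ, ← Set.ncard_eq_toFinset_card]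
    exact hU
  · intro Z hZ
    obtain ⟨Y, hY, rfl⟩ := mem_image.mp hZ
    have hY' : OddComp H U Y := by simpa using hY
    refine ⟨sφ Y, ?_, cφ Y ▸ hY'.2, ?_⟩
    · rw [disjoint_left]
      intro x hx hx'
      have hW := sφ Y hx
      exact hY'.notMem ((mφ Y ⟨x, hW⟩).mp hx) ((mφ U ⟨x, hW⟩).mp hx')
    · intro x hx y hy a
      have hW := sφ Y hx
      by_cases e : (⟨y, hy⟩ : W) ∈ U
      · exact Or.inr ((mφ U ⟨y, hy⟩).mpr e)
      · exact Or.inl ((mφ Y ⟨y, hy⟩).mpr (hY'.closed ((mφ Y ⟨x, hW⟩).mp hx) e a))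
  · intro Z hZ Z' hZ' hne
    obtain ⟨Y, hY, rfl⟩ := mem_image.mp hZ
    obtain ⟨Y', hY', rfl⟩ := mem_image.mp hZ'
    have h1 : OddComp H U Y := by simpa using hY
    have h2 : OddComp H U Y' := by simpa using hY'
    rw [disjoint_left]
    intro x hx hx'
    have hW := sφ Y hx
    exact hne (by rw [h1.eq_of_mem h2 ((mφ Y ⟨x, hW⟩).mp hx) ((mφ Y' ⟨x, hW⟩).mp hx')])

def Valid (G : SimpleGraph V) (S : Finset V) (P : Finset (Finset V)) : Prop :=
  (∀ K ∈ P, Disjoint K S ∧ Odd #K ∧ ∀ x ∈ K, ∀ y, G.Adj x y → y ∈ K ∨ y ∈ S) ∧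
    ∀ K ∈ P, ∀ K' ∈ P, K ≠ K' → Disjoint K K'

theorem exists_lexmax (G : SimpleGraph V) : ∃ S P, Valid G S P ∧ ∀ S' P', Valid G S' P' →
    #P' + #S ≤ #P + #S' ∧ (#P' + #S = #P + #S' → #S' ≤ #S) := by
  classical
  obtain ⟨⟨S0, P0⟩, h0, m0⟩ := exists_max_image
    (univ.filter (fun s : Finset V × Finset (Finset V) => Valid G s.1 s.2))
    (fun s => (#s.2 : ℤ) - #s.1) ⟨(∅, ∅), by simp [Valid]⟩
  obtain ⟨⟨S, P⟩, h1, m1⟩ := exists_max_image
    (univ.filter (fun s : Finset V × Finset (Finset V) => Valid G s.1 s.2 ∧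
      (#s.2 : ℤ) - #s.1 = (#P0 : ℤ) - #S0)) (fun s => #s.1) ⟨(S0, P0), by simpa using h0⟩
  simp only [mem_filter, mem_univ, true_and] at h0 m0 h1 m1
  refine ⟨S, P, h1.1, fun S' P' h => ?_⟩
  have k := m0 (S', P') h
  have k1 := h1.2
  simp only at k
  refine ⟨by omega, fun e => m1 (S', P') ⟨h, ?_⟩⟩
  simp only
  omega

theorem decomp (G : SimpleGraph V) : ∃ S P, Valid G S P ∧ #S ≤ #P ∧
    (∀ v, v ∈ S ∨ ∃ K ∈ P, v ∈ K) ∧ ∀ K ∈ P, FC G K := by
  classical
  obtain ⟨S, P, hv, hm⟩ := exists_lexmax G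
  have hne : ∀ {K : Finset V}, Odd #K → K.Nonempty := fun h => card_pos.mp h.pos
  refine ⟨S, P, hv, ?_, ?_, ?_⟩
  · simpa using (hm ∅ ∅ (by simp [Valid])).1
  · by_contra hn
    push Not at hn
    obtain ⟨e, he1, he2⟩ := hn
    let R := univ.filter (fun v => v ∉ S ∧ ∀ K ∈ P, v ∉ K)
    have mR : ∀ v, v ∈ R ↔ v ∉ S ∧ ∀ K ∈ P, v ∉ K := fun v => by simp [R]
    have cR : ∀ x ∈ R, ∀ y, G.Adj x y → y ∈ R ∨ y ∈ S := by
      intro x hx y a
      by_cases hy : y ∈ S
      · exact Or.inr hy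
      · refine Or.inl ((mR y).mpr ⟨hy, fun K hK hyK => ?_⟩)
        rcases (hv.1 K hK).2.2 y hyK x a.symm with h | h
        · exact ((mR x).mp hx).2 K hK h
        · exact ((mR x).mp hx).1 h
    have gen : ∀ T R' : Finset V, R' ⊆ R → T ⊆ R → Disjoint R' T → (∀ x ∈ R, x ∈ R' ∨ x ∈ T) →
        Odd #R' → Valid G (T ∪ S) (insert R' P) ∧ #(insert R' P) = #P + 1 := by
      intro T R' h1 h2 h3 h4 h5
      have dj : ∀ K ∈ P, Disjoint R' K := fun K hK =>
        disjoint_left.mpr (fun x hx => ((mR x).mp (h1 hx)).2 K hK)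
      refine ⟨⟨?_, ?_⟩, card_insert_of_notMem ?_⟩
      · intro K hK
        rcases mem_insert.mp hK with rfl | hK
        · refine ⟨disjoint_union_right.mpr ⟨h3, disjoint_left.mpr
            (fun x hx => ((mR x).mp (h1 hx)).1)⟩, h5, fun x hx y a => ?_⟩
          rcases cR x (h1 hx) y a with h | h
          · exact (h4 y h).imp id (mem_union_left _)
          · exact Or.inr (mem_union_right _ h)
        · obtain ⟨a, b, c⟩ := hv.1 K hK
          refine ⟨disjoint_union_right.mpr ⟨disjoint_right.mpr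
            (fun x hx => ((mR x).mp (h2 hx)).2 K hK), a⟩, b, fun x hx y a => ?_⟩
          exact (c x hx y a).imp id (mem_union_right _)
      · intro K hK K' hK' hne
        rcases mem_insert.mp hK with e1 | e1 <;> rcases mem_insert.mp hK' with e2 | e2
        · exact absurd (e1.trans e2.symm) hne
        · exact e1 ▸ dj _ e2
        · exact e2 ▸ (dj _ e1).symm
        · exact hv.2 K e1 K' e2 hne
      · intro h
        obtain ⟨x, hx⟩ := hne h5
        exact ((mR x).mp (h1 hx)).2 R' h hx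
    have heR : e ∈ R := (mR e).mpr ⟨he1, he2⟩
    rcases Nat.even_or_odd #R with h | h
    · obtain ⟨a, b⟩ := gen {e} (R.erase e) (erase_subset _ _) (by simpa using heR) (by simp)
        (fun x hx => by by_cases k : x = e <;> simp [k, hx]) (by
          rw [card_erase_of_mem heR]
          have := card_pos.mpr ⟨e, heR⟩
          obtain ⟨k, hk⟩ := h
          exact ⟨k - 1, by omega⟩)
      have k := hm _ _ a
      rw [b, singleton_union, card_insert_of_notMem he1] at k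
      omega
    · obtain ⟨a, b⟩ := gen ∅ R (Subset.refl _) (empty_subset _) (by simp)
        (fun x hx => Or.inl hx) h
      have k := hm _ _ a
      rw [b, empty_union] at k
      omega
  · intro K hK c hc
    by_contra hn
    obtain ⟨d1, o1, c1⟩ := hv.1 K hK
    obtain ⟨T, Q, hT, hcard, hQ, hd⟩ := tutte_fin (K.erase c) (by
      rw [card_erase_of_mem hc]
      obtain ⟨k, hk⟩ := o1
      exact ⟨k, by omega⟩) hn
    have hTK : insert c T ⊆ K := insert_subset hc (hT.trans (erase_subset _ _))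
    have hQK : ∀ Z ∈ Q, Z ⊆ K := fun Z hZ => (hQ Z hZ).1.trans (erase_subset _ _)
    have dj : ∀ K' ∈ P.erase K, ∀ Z ∈ Q, Disjoint K' Z := fun K' hK' Z hZ =>
      (hv.2 K' (mem_of_mem_erase hK') K hK (mem_erase.mp hK').1).mono_right (hQK Z hZ)
    have val : Valid G (insert c T ∪ S) (P.erase K ∪ Q) := by
      refine ⟨?_, ?_⟩
      · intro K' hK'
        rcases mem_union.mp hK' with h | h
        · obtain ⟨a, b, c⟩ := hv.1 K' (mem_of_mem_erase h)
          refine ⟨disjoint_union_right.mpr ⟨(hv.2 K' (mem_of_mem_erase h) K hK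
            (mem_erase.mp h).1).mono_right hTK, a⟩, b, fun x hx y a => ?_⟩
          exact (c x hx y a).imp id (mem_union_right _)
        · obtain ⟨a1, a2, a3, a4⟩ := hQ K' h
          refine ⟨disjoint_union_right.mpr ⟨disjoint_insert_right.mpr
            ⟨fun k => (mem_erase.mp (a1 k)).1 rfl, a2⟩, d1.mono_left (hQK K' h)⟩, a3,
            fun x hx y a => ?_⟩
          rcases c1 x (hQK K' h hx) y a with k | k
          · by_cases e : y = c
            · exact Or.inr (mem_union_left _ (e ▸ mem_insert_self _ _))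
            · exact (a4 x hx y (mem_erase.mpr ⟨e, k⟩) a).imp id
                (fun k => mem_union_left _ (mem_insert_of_mem k))
          · exact Or.inr (mem_union_right _ k)
      · intro K1 h1 K2 h2 hne
        rcases mem_union.mp h1 with h1 | h1 <;> rcases mem_union.mp h2 with h2 | h2
        · exact hv.2 _ (mem_of_mem_erase h1) _ (mem_of_mem_erase h2) hne
        · exact dj _ h1 _ h2
        · exact (dj _ h2 _ h1).symm
        · exact hd _ h1 _ h2 hne
    have k := hm _ _ val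
    have e1 : #(insert c T ∪ S) = #T + 1 + #S := by
      rw [card_union_of_disjoint (d1.mono_left hTK),
        card_insert_of_notMem (fun k => (mem_erase.mp (hT k)).1 rfl)]
    have e2 : #(P.erase K ∪ Q) = #P - 1 + #Q := by
      rw [card_union_of_disjoint, card_erase_of_mem hK]
      rw [disjoint_left]
      intro Z h1 h2
      obtain ⟨x, hx⟩ := hne (hQ Z h2).2.2.1
      exact disjoint_left.mp (dj Z h1 Z h2) hx hx
    have := card_pos.mpr ⟨K, hK⟩
    rw [e1, e2] at k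
    omega

end Pool.Agent.H230Z.DD
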