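import Pool.Agent.H230Z.DDStrong

set_option autoImplicit false

namespace Pool.Agent.H230Z.DD

open Finset

variable {V : Type*} [DecidableEq V]

def OddS (A : V → V → Prop) (X : Finset V) : Prop :=
  ∀ Y ⊆ X, Y.Nonempty → Strong A Y → Odd #Y

def Good (A : V → V → Prop) (X : Finset V) (x : V) : Prop :=
  (∀ u ∈ X, ∀ u' ∈ X, A u x → A u' x → u = u') ∧ (∀ u ∈ X, ∀ u' ∈ X, A x u → A x u' → u = u')

theorem Strong.union {A : V → V → Prop} {X Y : Finset V} (hX : Strong A X) (hY : Strong A Y)
    {t : V} (h1 : t ∈ X) (h2 : t ∈ Y) : Strong A (X ∪ Y) := by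
  intro Z hz hc
  have cX : ∀ u ∈ X, ∀ v ∈ X, A u v → v ∈ Z → u ∈ Z := fun u hu v hv =>
    hc u (mem_union_left _ hu) v (mem_union_left _ hv)
  have cY : ∀ u ∈ Y, ∀ v ∈ Y, A u v → v ∈ Z → u ∈ Z := fun u hu v hv =>
    hc u (mem_union_right _ hu) v (mem_union_right _ hv)
  have ht : t ∈ Z := by
    obtain ⟨z, hz, hzZ⟩ := hz
    rcases mem_union.mp hz with h | h
    · exact hX Z ⟨z, h, hzZ⟩ cX t h1
    · exact hY Z ⟨z, h, hzZ⟩ cY t h2
  intro x hx
  rcases mem_union.mp hx with h | h
  · exact hX Z ⟨t, h1, ht⟩ cX x h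
  · exact hY Z ⟨t, h2, ht⟩ cY x h

omit [DecidableEq V] in
theorem down {A : V → V → Prop} {Y : Finset V} {Z : Set V} {c : ℕ → V} {a b : ℕ}
    (hc : ∀ u ∈ Y, ∀ v ∈ Y, A u v → v ∈ Z → u ∈ Z) (hY : ∀ n, a ≤ n → n ≤ b → c n ∈ Y)
    (hA : ∀ n, a ≤ n → n < b → A (c n) (c (n + 1))) (hb : c b ∈ Z) :
    ∀ n, a ≤ n → n ≤ b → c n ∈ Z := by
  intro n han hnb
  induction hnb using Nat.decreasingInduction with
  | self => exact hb
  | of_succ k hk ih =>
    exact hc _ (hY k han (by omega)) _ (hY (k + 1) (by omega) (by omega)) (hA k han hk)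
      (ih (by omega))

theorem strong_interval {A : V → V → Prop} {c : ℕ → V} {i m : ℕ} (him : i ≤ m)
    (hA : ∀ n, i ≤ n → n < m → A (c n) (c (n + 1))) (hb : A (c m) (c i)) :
    Strong A ((Icc i m).image c) := by
  intro Z hz hc
  have hY : ∀ n, i ≤ n → n ≤ m → c n ∈ (Icc i m).image c := fun n h1 h2 =>
    mem_image_of_mem _ (mem_Icc.mpr ⟨h1, h2⟩)
  obtain ⟨z, hz, hzZ⟩ := hz
  obtain ⟨j, hj, rfl⟩ := mem_image.mp hz
  rw [mem_Icc] at hj
  have h1 : c i ∈ Z := down hc (fun n h1 h2 => hY n h1 (by omega))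
    (fun n h1 h2 => hA n h1 (by omega)) hzZ i le_rfl hj.1
  have h2 : c m ∈ Z := hc _ (hY m him le_rfl) _ (hY i le_rfl him) hb h1
  intro x hx
  obtain ⟨k, hk, rfl⟩ := mem_image.mp hx
  rw [mem_Icc] at hk
  exact down hc hY hA h2 k hk.1 hk.2

theorem ear {A : V → V → Prop} {X : Finset V} (irr : ∀ v, ¬ A v v) (hX : Strong A X)
    (hO : OddS A X) (h2 : 2 ≤ #X) {w : V} (hw : w ∈ X) :
    (∃ x ∈ X, x ≠ w ∧ Good A X x) ∨
      ∃ p ∈ X, ∃ q ∈ X, p ≠ w ∧ q ≠ w ∧ A p q ∧ (∀ v ∈ X, A p v → v = q) ∧
        ∀ u ∈ X, A u q → u = p := by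
  classical
  have hXne : X.Nonempty := ⟨w, hw⟩
  obtain ⟨H, hH, hmax⟩ := exists_max_image
    (X.powerset.filter (fun H => w ∈ H ∧ H ≠ X ∧ Strong A H)) card ⟨{w}, by
      simp only [mem_filter, mem_powerset, singleton_subset_iff, mem_singleton, true_and]
      refine ⟨hw, ?_, ?_⟩
      · intro e
        rw [← e] at h2
        simp at h2
      · intro Z hz _ x hx
        obtain ⟨z, hz, hzZ⟩ := hz
        rw [mem_singleton] at hz hx
        rw [hx, ← hz]
        exact hzZ⟩
  simp only [mem_filter, mem_powerset] at hH hmax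
  obtain ⟨hHX, hwH, hHne, hHs⟩ := hH
  obtain ⟨ρ, nxt, r0, r1, r2⟩ := layers (fun u v => A v u) X H
    (fun Z hZ hc => hX Z ⟨w, hw, hZ w hwH⟩ (fun u hu v hv a => hc v hv u hu a))
  have rH : ∀ v ∈ X, ρ v = 0 → v ∈ H := by
    intro v hv h
    by_contra hn
    have := (r1 v hv hn).2.2
    omega
  have iter : ∀ v ∈ X, ∀ k, k ≤ ρ v → nxt^[k] v ∈ X ∧ ρ (nxt^[k] v) + k = ρ v := by
    intro v hv k
    induction k with
    | zero => intro _; exact ⟨hv, rfl⟩
    | succ k ih =>
      intro hk
      obtain ⟨a, b⟩ := ih (by omega)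
      have hn : nxt^[k] v ∉ H := fun h => by
        have := r0 _ h
        omega
      obtain ⟨c, -, e⟩ := r1 _ a hn
      rw [Function.iterate_succ_apply']
      exact ⟨c, by omega⟩
  have step : ∀ v ∈ X, ∀ k, k < ρ v → A (nxt^[k] v) (nxt^[k + 1] v) := by
    intro v hv k hk
    obtain ⟨a, b⟩ := iter v hv k hk.le
    have hn : nxt^[k] v ∉ H := fun h => by
      have := r0 _ h
      omega
    rw [Function.iterate_succ_apply']
    exact (r1 _ a hn).2.1
  have key : ∀ p ∈ X, p ∉ H → (∃ u ∈ H, A u p) → ∀ v ∈ X, v ∉ H →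
      ∃ k, k < ρ p ∧ nxt^[k] p = v := by
    rintro p hp hpH ⟨u, hu, a⟩ v hv hvH
    have hρ : 0 < ρ p := Nat.pos_of_ne_zero (fun h => hpH (rH p hp h))
    let Y := H ∪ (range (ρ p)).image (fun k => nxt^[k] p)
    have hend : nxt^[ρ p] p ∈ H := by
      obtain ⟨a, b⟩ := iter p hp (ρ p) le_rfl
      exact rH _ a (by omega)
    have hY : ∀ n, 0 ≤ n → n ≤ ρ p → nxt^[n] p ∈ Y := by
      intro n _ hn
      rcases hn.lt_or_eq with h | h
      · exact mem_union_right _ (mem_image.mpr ⟨n, mem_range.mpr h, rfl⟩)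
      · exact mem_union_left _ (h ▸ hend)
    have hYs : Strong A Y := by
      intro Z hz hc
      have cH : ∀ u ∈ H, ∀ v ∈ H, A u v → v ∈ Z → u ∈ Z := fun u hu v hv =>
        hc u (mem_union_left _ hu) v (mem_union_left _ hv)
      have k1 : ∃ z ∈ H, z ∈ Z := by
        obtain ⟨z, hz, hzZ⟩ := hz
        rcases mem_union.mp hz with h | h
        · exact ⟨z, h, hzZ⟩
        · obtain ⟨j, hj, rfl⟩ := mem_image.mp h
          rw [mem_range] at hj
          have := down (c := fun k => nxt^[k] p) (a := 0) (b := j) hc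
            (fun n h1 h2 => hY n h1 (by omega)) (fun n _ h2 => step p hp n (by omega)) hzZ
            0 le_rfl (Nat.zero_le _)
          exact ⟨u, hu, hc u (mem_union_left _ hu) p (hY 0 le_rfl (Nat.zero_le _)) a this⟩
      have k2 := hHs Z k1 cH
      intro x hx
      rcases mem_union.mp hx with h | h
      · exact k2 x h
      · obtain ⟨j, hj, rfl⟩ := mem_image.mp h
        rw [mem_range] at hj
        exact down (c := fun k => nxt^[k] p) (a := 0) (b := ρ p) hc hY
          (fun n _ h2 => step p hp n h2) (k2 _ hend) j (Nat.zero_le _) hj.le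
    have hYX : Y ⊆ X := by
      intro x hx
      rcases mem_union.mp hx with h | h
      · exact hHX h
      · obtain ⟨j, hj, rfl⟩ := mem_image.mp h
        rw [mem_range] at hj
        exact (iter p hp j hj.le).1
    have hE : Y = X := by
      by_contra hne
      have k1 := hmax Y ⟨hYX, mem_union_left _ hwH, hne, hYs⟩
      have k2 : H ⊂ Y := ⟨subset_union_left, fun h => hpH (h (hY 0 le_rfl (Nat.zero_le _)))⟩
      have := card_lt_card k2
      omega
    rw [← hE] at hv
    rcases mem_union.mp hv with h | h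
    · exact absurd h hvH
    · obtain ⟨j, hj, e⟩ := mem_image.mp h
      exact ⟨j, mem_range.mp hj, e⟩
  obtain ⟨p, hp, hpH, hent⟩ : ∃ p ∈ X, p ∉ H ∧ ∃ u ∈ H, A u p := by
    by_contra hn
    push Not at hn
    apply hHne
    refine Subset.antisymm hHX (fun x hx => ?_)
    refine hX.out (↑H) ⟨w, hw, hwH⟩ ?_ x hx
    intro u _ v hv a hu
    by_contra hvH
    exact hn v hv hvH u hu a
  set l := ρ p with hl
  let c : ℕ → V := fun k => nxt^[k] p
  have cX : ∀ n, n ≤ l → c n ∈ X ∧ ρ (c n) + n = l := fun n hn => iter p hp n hn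
  have cH : ∀ n, n < l → c n ∉ H := fun n hn h => by
    have := r0 _ h
    have := (cX n hn.le).2
    omega
  have cA : ∀ n, n < l → A (c n) (c (n + 1)) := fun n hn => step p hp n hn
  have call : ∀ v ∈ X, v ∈ H ∨ ∃ k, k < l ∧ c k = v := by
    intro v hv
    by_cases h : v ∈ H
    · exact Or.inl h
    · exact Or.inr (key p hp hpH hent v hv h)
  have fa : ∀ n m, n < l → m < l → A (c n) (c m) → m ≤ n + 1 := by
    intro n m hn hm a
    have := r2 _ (cX m hm.le).1 _ (cX n hn.le).1 a
    have := (cX n hn.le).2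
    have := (cX m hm.le).2
    omega
  have fb : ∀ n, n < l → ∀ h ∈ H, A (c n) h → n + 1 = l := by
    intro n hn h hh a
    have := r2 _ (hHX hh) _ (cX n hn.le).1 a
    have := (cX n hn.le).2
    have := r0 h hh
    omega
  have fc : ∀ m, m < l → ∀ h ∈ H, A h (c m) → m = 0 := by
    intro m hm h hh a
    obtain ⟨k, hk, e⟩ := key (c m) (cX m hm.le).1 (cH m hm) ⟨h, hh, a⟩ p hp hpH
    have k1 := (iter _ (cX m hm.le).1 k hk.le).2
    rw [e] at k1
    have := (cX m hm.le).2
    omega
  have hl0 : 0 < l := Nat.pos_of_ne_zero (fun h => hpH (rH p hp h))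
  have hl2 : 2 ≤ l := by
    by_contra hn
    have e : X = insert p H := by
      refine Subset.antisymm (fun x hx => ?_) (insert_subset hp hHX)
      rcases call x hx with h | ⟨k, hk, rfl⟩
      · exact mem_insert_of_mem h
      · have : k = 0 := by omega
        subst this
        exact mem_insert_self _ _
    obtain ⟨a, ha⟩ := hO X (Subset.refl _) hXne hX
    obtain ⟨b, hb⟩ := hO H hHX ⟨w, hwH⟩ hHs
    rw [e, card_insert_of_notMem hpH] at ha
    omega
  have cw : ∀ n, n < l → c n ≠ w := fun n hn h => cH n hn (h ▸ hwH)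
  have par : ∀ i m, i ≤ m → m < l → Strong A ((Icc i m).image c) → (m - i) % 2 = 0 := by
    intro i m him hm hs
    have k1 := hO _ (by
      intro x hx
      obtain ⟨j, hj, rfl⟩ := mem_image.mp hx
      rw [mem_Icc] at hj
      exact (cX j (by omega)).1) ⟨c i, mem_image_of_mem _ (mem_Icc.mpr ⟨le_rfl, him⟩)⟩ hs
    rw [card_image_of_injOn, Nat.card_Icc] at k1
    · obtain ⟨a, ha⟩ := k1
      omega
    · intro a ha b hb e
      rw [mem_coe, mem_Icc] at ha hb
      have k2 := (cX a (by omega)).2
      have k3 := (cX b (by omega)).2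
      rw [e] at k2
      omega
  have si : ∀ i m, i ≤ m → m < l → A (c m) (c i) → Strong A ((Icc i m).image c) :=
    fun i m him hm a => strong_interval him (fun n _ h => cA n (by omega)) a
  have su : ∀ a b a' b', a ≤ a' → a' ≤ b → b ≤ b' → Strong A ((Icc a b).image c) →
      Strong A ((Icc a' b').image c) → Strong A ((Icc a b').image c) := by
    intro a b a' b' h1 h2 h3 s1 s2
    have e : Icc a b' = Icc a b ∪ Icc a' b' := by
      ext x
      simp only [mem_union, mem_Icc]
      omega
    rw [e, image_union]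
    exact s1.union s2 (t := c b) (mem_image_of_mem _ (mem_Icc.mpr ⟨by omega, le_rfl⟩))
      (mem_image_of_mem _ (mem_Icc.mpr ⟨h2, h3⟩))
  by_cases hback : ∃ d, ∃ i, 0 < d ∧ i + d < l ∧ A (c (i + d)) (c i)
  · left
    obtain ⟨i, hd0, hd1, hd2⟩ := Nat.find_spec hback
    have hmin := fun m => Nat.find_min' hback (m := m)
    set d := Nat.find hback with hd
    have s0 := si i (i + d) (by omega) hd1 hd2
    have p0 := par i (i + d) (by omega) hd1 s0
    have k1 : ∀ u ∈ X, A u (c (i + 1)) → u = c i := by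
      intro u hu a
      rcases call u hu with h | ⟨j, hj, rfl⟩
      · have := fc (i + 1) (by omega) u h a
        omega
      · have k := fa j (i + 1) hj (by omega) a
        rcases Nat.lt_trichotomy j (i + 1) with h | h | h
        · rw [show j = i by omega]
        · subst h
          exact absurd a (irr _)
        · have k2 := hmin (j - (i + 1)) ⟨i + 1, by omega, by omega,
            by rw [show i + 1 + (j - (i + 1)) = j by omega]; exact a⟩
          have s1 := si (i + 1) j (by omega) hj a
          have p1 := par (i + 1) j (by omega) hj s1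
          have p2 := par i j (by omega) hj
            (su i (i + d) (i + 1) j (by omega) (by omega) (by omega) s0 s1)
          omega
    have k2 : ∀ u ∈ X, A (c (i + 1)) u → u = c (i + 2) := by
      intro u hu a
      rcases call u hu with h | ⟨j, hj, rfl⟩
      · have := fb (i + 1) (by omega) u h a
        omega
      · have k := fa (i + 1) j (by omega) hj a
        rcases Nat.lt_trichotomy j (i + 1) with h | h | h
        · have s1 := si j (i + 1) (by omega) (by omega) a
          have p1 := par j (i + 1) (by omega) (by omega) s1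
          have p2 := par j (i + d) (by omega) hd1
            (su j (i + 1) i (i + d) (by omega) (by omega) (by omega) s1 s0)
          omega
        · subst h
          exact absurd a (irr _)
        · rw [show j = i + 2 by omega]
    refine ⟨c (i + 1), (cX _ (by omega)).1, cw _ (by omega), ?_, ?_⟩
    · intro u hu u' hu' a a'
      rw [k1 u hu a, k1 u' hu' a']
    · intro u hu u' hu' a a'
      rw [k2 u hu a, k2 u' hu' a']
  · right
    refine ⟨c 0, (cX 0 (by omega)).1, c 1, (cX 1 (by omega)).1, cw 0 (by omega), cw 1 (by omega),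
      cA 0 (by omega), ?_, ?_⟩
    · intro u hu a
      rcases call u hu with h | ⟨j, hj, rfl⟩
      · have := fb 0 (by omega) u h a
        omega
      · have k := fa 0 j (by omega) hj a
        rcases Nat.eq_zero_or_pos j with h | h
        · subst h
          exact absurd a (irr _)
        · rw [show j = 1 by omega]
    · intro u hu a
      rcases call u hu with h | ⟨j, hj, rfl⟩
      · have := fc 1 (by omega) u h a
        omega
      · rcases Nat.lt_trichotomy j 1 with h | h | h
        · rw [show j = 0 by omega]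
        · subst h
          exact absurd a (irr _)
        · exact absurd ⟨j - 1, 1, by omega, by omega,
            by rw [show 1 + (j - 1) = j by omega]; exact a⟩ hback

end Pool.Agent.H230Z.DD
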