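import Pool.Agent.H230Z.DDEar

set_option autoImplicit false

namespace Pool.Agent.H230Z.DD

open Finset

variable {V : Type*} [DecidableEq V]

theorem good_exists : ∀ (n : ℕ) (A : V → V → Prop) (X : Finset V), #X = n → (∀ v, ¬ A v v) →
    Strong A X → OddS A X → 2 ≤ #X → ∀ w ∈ X, ∃ x ∈ X, x ≠ w ∧ Good A X x := by
  intro n
  induction n using Nat.strong_induction_on with
  | _ n ih =>
  intro A X hn irr hX hO h2 w hw
  rcases ear irr hX hO h2 hw with h | ⟨p, hp, q, hq, hpw, hqw, apq, hout, hin⟩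
  · exact h
  have hpq : p ≠ q := fun e => irr p (by rw [← e] at apq; exact apq)
  have nqp : ¬ A q p := by
    intro a
    have k := hO {p, q} (by
      intro x hx
      simp only [mem_insert, mem_singleton] at hx
      rcases hx with rfl | rfl <;> assumption) (by simp) (by
      intro Z hz hc
      have e : p ∈ Z ↔ q ∈ Z := ⟨hc q (by simp) p (by simp) a, hc p (by simp) q (by simp) apq⟩
      obtain ⟨z, hz, hzZ⟩ := hz
      intro x hx
      simp only [mem_insert, mem_singleton] at hz hx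
      rcases hz with rfl | rfl <;> rcases hx with rfl | rfl <;> tauto)
    rw [card_pair hpq] at k
    exact absurd k (by decide)
  by_cases hI : ∀ u ∈ X, ∀ u' ∈ X, A u p → A u' p → u = u'
  · exact ⟨p, hp, hpw, hI, fun u hu u' hu' a a' => (hout u hu a).trans (hout u' hu' a').symm⟩
  by_cases hJ : ∀ u ∈ X, ∀ u' ∈ X, A q u → A q u' → u = u'
  · exact ⟨q, hq, hqw, fun u hu u' hu' a a' => (hin u hu a).trans (hin u' hu' a').symm, hJ⟩
  push Not at hI hJ
  obtain ⟨i1, hi1, i2, hi2, ai1, ai2, hi⟩ := hI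
  obtain ⟨o1, ho1, o2, ho2, ao1, ao2, ho⟩ := hJ
  let X' := (X.erase p).erase q
  let A' : V → V → Prop := fun u v => A u v ∨ (A u p ∧ A q v ∧ u ≠ v)
  have mX : ∀ u, u ∈ X' ↔ u ∈ X ∧ u ≠ p ∧ u ≠ q := by
    intro u
    simp only [X', mem_erase]
    tauto
  have mI : ∀ u ∈ X, A u p → u ∈ X' := fun u hu a =>
    (mX u).mpr ⟨hu, fun e => irr p (e ▸ a), fun e => nqp (e ▸ a)⟩
  have mO : ∀ u ∈ X, A q u → u ∈ X' := fun u hu a =>
    (mX u).mpr ⟨hu, fun e => nqp (e ▸ a), fun e => irr q (e ▸ a)⟩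
  have hX' : Strong A' X' := by
    intro Z hz hc
    have k := hX {v | (v ∈ X' ∧ v ∈ Z) ∨ ((v = p ∨ v = q) ∧ ∃ o ∈ X', o ∈ Z ∧ A q o)} (by
      obtain ⟨z, hz, hzZ⟩ := hz
      exact ⟨z, ((mX z).mp hz).1, Or.inl ⟨hz, hzZ⟩⟩) (by
      rintro u hu v hv a (⟨h1, h2⟩ | ⟨h1, o, h2, h3, h4⟩)
      · by_cases e1 : u = p
        · exact absurd (hout v hv (e1 ▸ a)) ((mX v).mp h1).2.2
        by_cases e2 : u = q
        · exact Or.inr ⟨Or.inr e2, v, h1, h2, e2 ▸ a⟩
        · have hu' := (mX u).mpr ⟨hu, e1, e2⟩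
          exact Or.inl ⟨hu', hc u hu' v h1 (Or.inl a) h2⟩
      · rcases h1 with h1 | h1
        · rw [h1] at a
          have hu' := mI u hu a
          by_cases e : u = o
          · exact Or.inl ⟨hu', e ▸ h3⟩
          · exact Or.inl ⟨hu', hc u hu' o h2 (Or.inr ⟨a, h4, e⟩) h3⟩
        · rw [h1] at a
          exact Or.inr ⟨Or.inl (hin u hu a), o, h2, h3, h4⟩)
    intro x hx
    obtain ⟨h1, h2, h3⟩ := (mX x).mp hx
    rcases k x h1 with h | ⟨h | h, -⟩
    · exact h.2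
    · exact absurd h h2
    · exact absurd h h3
  have hO' : OddS A' X' := by
    intro Y hY hne hs
    have hYX : Y ⊆ X := fun y hy => ((mX y).mp (hY hy)).1
    by_cases hc : ∃ u ∈ Y, ∃ v ∈ Y, A u p ∧ A q v
    · obtain ⟨u, hu, v, hv, au, av⟩ := hc
      have k := hO (insert p (insert q Y)) (insert_subset hp (insert_subset hq hYX)) (by simp) (by
        intro Z hz hc
        have mp : p ∈ insert p (insert q Y) := by simp
        have mq : q ∈ insert p (insert q Y) := by simp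
        have my : ∀ y ∈ Y, y ∈ insert p (insert q Y) := fun y hy => by simp [hy]
        have k1 : q ∈ Z → p ∈ Z := hc p mp q mq apq
        have k2 : ∀ y ∈ Y, y ∈ Z := by
          apply hs Z
          · obtain ⟨z, hz, hzZ⟩ := hz
            simp only [mem_insert] at hz
            rcases hz with rfl | rfl | hz
            · exact ⟨u, hu, hc u (my u hu) _ mp au hzZ⟩
            · exact ⟨u, hu, hc u (my u hu) _ mp au (k1 hzZ)⟩
            · exact ⟨z, hz, hzZ⟩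
          · rintro a ha b hb (h | ⟨h1, h2, -⟩) hZ
            · exact hc a (my a ha) b (my b hb) h hZ
            · exact hc a (my a ha) p mp h1 (k1 (hc q mq b (my b hb) h2 hZ))
        have k3 : q ∈ Z := hc q mq v (my v hv) av (k2 v hv)
        intro x hx
        simp only [mem_insert] at hx
        rcases hx with rfl | rfl | hx
        · exact k1 k3
        · exact k3
        · exact k2 x hx)
      have n1 : q ∉ Y := fun h => ((mX q).mp (hY h)).2.2 rfl
      have n2 : p ∉ insert q Y := by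
        simp only [mem_insert, not_or]
        exact ⟨hpq, fun h => ((mX p).mp (hY h)).2.1 rfl⟩
      rw [card_insert_of_notMem n2, card_insert_of_notMem n1] at k
      obtain ⟨a, ha⟩ := k
      exact ⟨a - 1, by omega⟩
    · apply hO Y hYX hne
      intro Z hz hc'
      apply hs Z hz
      rintro a ha b hb (h | ⟨h1, h2, -⟩) hZ
      · exact hc' a ha b hb h hZ
      · exact absurd ⟨a, ha, b, hb, h1, h2⟩ hc
  have hcard : #X' + 2 = #X := by
    simp only [X']
    rw [card_erase_of_mem (mem_erase.mpr ⟨hpq.symm, hq⟩), card_erase_of_mem hp]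
    omega
  have h2' : 2 ≤ #X' := one_lt_card.mpr ⟨i1, mI i1 hi1 ai1, i2, mI i2 hi2 ai2, hi⟩
  obtain ⟨x, hx, hxw, g1, g2⟩ := ih (#X') (by omega) A' X' rfl
    (fun v h => h.elim (irr v) (fun h => h.2.2 rfl)) hX' hO' h2' w
    ((mX w).mpr ⟨hw, hpw.symm, hqw.symm⟩)
  obtain ⟨hxX, hxp, hxq⟩ := (mX x).mp hx
  by_cases axp : A x p <;> by_cases aqx : A q x
  · exfalso
    obtain ⟨y, hy, ay, hyx⟩ : ∃ y ∈ X', A y p ∧ y ≠ x := by
      by_cases e : i1 = x
      · exact ⟨i2, mI i2 hi2 ai2, ai2, fun e' => hi (e.trans e'.symm)⟩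
      · exact ⟨i1, mI i1 hi1 ai1, ai1, e⟩
    obtain ⟨y', hy', ay', hyx'⟩ : ∃ y ∈ X', A q y ∧ y ≠ x := by
      by_cases e : o1 = x
      · exact ⟨o2, mO o2 ho2 ao2, ao2, fun e' => ho (e.trans e'.symm)⟩
      · exact ⟨o1, mO o1 ho1 ao1, ao1, e⟩
    have b1 : A' y x := Or.inr ⟨ay, aqx, hyx⟩
    have b2 : A' x y' := Or.inr ⟨axp, ay', hyx'.symm⟩
    have k1 := hO' (X'.erase x) (erase_subset _ _) ⟨y, mem_erase.mpr ⟨hyx, hy⟩⟩ (by
      intro Z hz hc
      have k := hX' {v | (v ≠ x ∧ v ∈ Z) ∨ (v = x ∧ y' ∈ Z)} (by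
        obtain ⟨z, hz, hzZ⟩ := hz
        exact ⟨z, mem_of_mem_erase hz, Or.inl ⟨(mem_erase.mp hz).1, hzZ⟩⟩) (by
        rintro u hu v hv a (⟨h1, h2⟩ | ⟨h1, h2⟩)
        · by_cases e : u = x
          · rw [e] at a
            exact Or.inr ⟨e, g2 v hv y' hy' a b2 ▸ h2⟩
          · exact Or.inl ⟨e, hc u (mem_erase.mpr ⟨e, hu⟩) v (mem_erase.mpr ⟨h1, hv⟩) a h2⟩
        · rw [h1] at a
          have e := g1 u hu y hy a b1
          rw [e]
          refine Or.inl ⟨hyx, ?_⟩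
          by_cases e' : y = y'
          · exact e' ▸ h2
          · exact hc y (mem_erase.mpr ⟨hyx, hy⟩) y' (mem_erase.mpr ⟨hyx', hy'⟩)
              (Or.inr ⟨ay, ay', e'⟩) h2)
      intro v hv
      rcases k v (mem_of_mem_erase hv) with h | h
      · exact h.2
      · exact absurd h.1 (mem_erase.mp hv).1)
    have k2 := hO' X' (Subset.refl _) ⟨x, hx⟩ hX'
    rw [card_erase_of_mem hx] at k1
    obtain ⟨a, ha⟩ := k1
    obtain ⟨b, hb⟩ := k2
    omega
  · exact absurd (g2 o1 (mO o1 ho1 ao1) o2 (mO o2 ho2 ao2)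
      (Or.inr ⟨axp, ao1, fun e => aqx (e ▸ ao1)⟩) (Or.inr ⟨axp, ao2, fun e => aqx (e ▸ ao2)⟩)) ho
  · exact absurd (g1 i1 (mI i1 hi1 ai1) i2 (mI i2 hi2 ai2)
      (Or.inr ⟨ai1, aqx, fun e => axp (e ▸ ai1)⟩) (Or.inr ⟨ai2, aqx, fun e => axp (e ▸ ai2)⟩)) hi
  · have m1 : ∀ u ∈ X, A u x → u ∈ X' := fun u hu a =>
      (mX u).mpr ⟨hu, fun e => hxq (hout x hxX (e ▸ a)), fun e => aqx (e ▸ a)⟩
    have m2 : ∀ u ∈ X, A x u → u ∈ X' := fun u hu a =>
      (mX u).mpr ⟨hu, fun e => axp (e ▸ a), fun e => hxp (hin x hxX (e ▸ a))⟩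
    exact ⟨x, hxX, hxw,
      fun u hu u' hu' a a' => g1 u (m1 u hu a) u' (m1 u' hu' a') (Or.inl a) (Or.inl a'),
      fun u hu u' hu' a a' => g2 u (m2 u hu a) u' (m2 u' hu' a') (Or.inl a) (Or.inl a')⟩

theorem two_good {A : V → V → Prop} {X : Finset V} (irr : ∀ v, ¬ A v v) (hX : Strong A X)
    (hc : ¬ Cheap A X) (h2 : 2 ≤ #X) :
    ∃ x ∈ X, ∃ y ∈ X, x ≠ y ∧ Good A X x ∧ Good A X y := by
  have hO : OddS A X := by
    intro Y hY hne hs
    by_contra h
    exact hc (cheap_of_even hX hY hne hs (Nat.not_odd_iff_even.mp h))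
  obtain ⟨w, hw⟩ : X.Nonempty := card_pos.mp (by omega)
  obtain ⟨x, hx, -, gx⟩ := good_exists _ A X rfl irr hX hO h2 w hw
  obtain ⟨y, hy, hyx, gy⟩ := good_exists _ A X rfl irr hX hO h2 x hx
  exact ⟨x, hx, y, hy, hyx.symm, gx, gy⟩

end Pool.Agent.H230Z.DD
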