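import Pool.Agent.H230Z.DDDec

set_option autoImplicit false

namespace Pool.Agent.H230Z.DD

open Finset

variable {V : Type} [DecidableEq V] [Fintype V] {G : SimpleGraph V} [DecidableRel G.Adj]
  {A : V → V → Prop}

theorem ext_ge {r : ℕ} (hr : 3 ≤ r) (hG : G.IsRegularOfDegree r) (h : Ori G A) {K S : Finset V}
    (hd : Disjoint K S) (ho : Odd #K) (hcl : ∀ x ∈ K, ∀ y, G.Adj x y → y ∈ K ∨ y ∈ S)
    (hK : FC G K) (hc : ¬ Cheap A K) : r ≤ ∑ x ∈ K, #(S.filter (G.Adj x)) := by
  classical
  have e1 : ∀ x ∈ K, #(S.filter (G.Adj x)) + (#(K.filter (A x)) + #(K.filter (fun y => A y x)))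
      = r := by
    intro x hx
    rw [← hG x, ← card_union_of_disjoint, ← card_union_of_disjoint, SimpleGraph.degree]
    · congr 1
      ext y
      simp only [mem_union, mem_filter, SimpleGraph.mem_neighborFinset]
      constructor
      · rintro (k | k | k)
        · exact k.2
        · exact h.1 _ _ k.2
        · exact (h.1 _ _ k.2).symm
      · intro a
        rcases hcl x hx y a with k | k
        · by_cases b : A x y
          · exact Or.inr (Or.inl ⟨k, b⟩)
          · exact Or.inr (Or.inr ⟨k, (h.2 _ _ a.symm).mpr b⟩)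
        · exact Or.inl ⟨k, a⟩
    · rw [disjoint_left]
      intro y h1 h2
      simp only [mem_union, mem_filter] at h1 h2
      exact disjoint_left.mp hd (h2.elim And.left And.left) h1.1
    · rw [disjoint_left]
      intro y h1 h2
      simp only [mem_filter] at h1 h2
      exact (h.2 _ _ (h.1 _ _ h1.2)).mp h1.2 h2.2
  have e2 : ∑ x ∈ K, #(K.filter (fun y => A y x)) = ∑ x ∈ K, #(K.filter (A x)) := by
    simp only [card_filter]
    exact sum_comm
  have e3 : ∑ x ∈ K, #(S.filter (G.Adj x)) + 2 * ∑ x ∈ K, #(K.filter (A x)) = #K * r := by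
    have := sum_congr rfl e1
    rw [sum_add_distrib, sum_add_distrib, e2, sum_const, smul_eq_mul] at this
    omega
  by_cases h1 : #K = 1
  · obtain ⟨x, rfl⟩ := card_eq_one.mp h1
    have k : ({x} : Finset V).filter (A x) = ∅ := by simp [h.irr x]
    simp only [sum_singleton, k, card_empty, card_singleton] at e3 ⊢
    omega
  · obtain ⟨x, hx, y, hy, hxy, gx, gy⟩ := two_good h.irr (strong_of_FC h hK hc) hc (by
      have := ho.pos
      omega)
    have g : ∀ z ∈ K, Good A K z → r ≤ #(S.filter (G.Adj z)) + 2 := by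
      intro z hz gz
      have k1 : #(K.filter (A z)) ≤ 1 := card_le_one.mpr (fun a ha b hb => by
        rw [mem_filter] at ha hb
        exact gz.2 a ha.1 b hb.1 ha.2 hb.2)
      have k2 : #(K.filter (fun y => A y z)) ≤ 1 := card_le_one.mpr (fun a ha b hb => by
        rw [mem_filter] at ha hb
        exact gz.1 a ha.1 b hb.1 ha.2 hb.2)
      have := e1 z hz
      omega
    have k1 := g x hx gx
    have k2 := g y hy gy
    have k3 : ∑ z ∈ ({x, y} : Finset V), #(S.filter (G.Adj z)) ≤
        ∑ z ∈ K, #(S.filter (G.Adj z)) :=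
      sum_le_sum_of_subset (insert_subset hx (singleton_subset_iff.mpr hy))
    rw [sum_pair hxy] at k3
    obtain ⟨k, hk⟩ := ho
    rcases hr.lt_or_eq with h4 | h4
    · omega
    · subst h4
      omega

theorem main {r : ℕ} (hr : 3 ≤ r) (hG : G.IsRegularOfDegree r) (h : Ori G A) :
    Cheap A (univ : Finset V) := by
  classical
  obtain ⟨S, P, hv, hSP, hcov, hFC⟩ := decomp G
  let B := P.filter (fun K => ¬ Cheap A K)
  let t : B → Finset V := fun K => S.filter (fun s => ∃ x ∈ K.1, G.Adj x s)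
  have hB : ∀ K ∈ B, K ∈ P ∧ ¬ Cheap A K := fun K hK => mem_filter.mp hK
  obtain ⟨ψ, hψ, hψt⟩ := (all_card_le_biUnion_card_iff_exists_injective t).mp (by
    intro s
    let E : B → Finset (V × V) := fun K => (K.1 ×ˢ S).filter (fun e => G.Adj e.1 e.2)
    have k1 : ∀ K ∈ s, r ≤ #(E K) := by
      intro K _
      obtain ⟨a, b⟩ := hB K.1 K.2
      obtain ⟨c, d, e⟩ := hv.1 K.1 a
      refine (ext_ge hr hG h c d e (hFC _ a) b).trans (le_of_eq ?_)
      simp only [E, card_filter, sum_product]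
    have k2 : #(s.biUnion E) = ∑ K ∈ s, #(E K) := by
      apply card_biUnion
      intro K _ K' _ hne
      have := hv.2 K.1 (hB _ K.2).1 K'.1 (hB _ K'.2).1 (fun e => hne (Subtype.ext e))
      rw [Function.onFun, disjoint_left]
      intro e h1 h2
      simp only [E, mem_filter, mem_product] at h1 h2
      exact disjoint_left.mp this h1.1.1 h2.1.1
    have k3 : s.biUnion E ⊆
        (s.biUnion t).biUnion (fun y => (G.neighborFinset y).image (fun x => (x, y))) := by
      rintro ⟨x, y⟩ he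
      simp only [E, t, mem_biUnion, mem_filter, mem_product, mem_image,
        SimpleGraph.mem_neighborFinset] at he ⊢
      obtain ⟨K, hK, ⟨a, b⟩, c⟩ := he
      exact ⟨y, ⟨K, hK, b, x, a, c⟩, x, c.symm, rfl⟩
    have k4 : #(s.biUnion E) ≤ #(s.biUnion t) * r := by
      refine (card_le_card k3).trans (card_biUnion_le_card_mul _ _ _ (fun y _ => ?_))
      exact card_image_le.trans (le_of_eq (hG y))
    have k5 : #s * r ≤ ∑ K ∈ s, #(E K) := by
      have := card_nsmul_le_sum s (fun K => #(E K)) r k1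
      simpa using this
    exact Nat.le_of_mul_le_mul_right (by omega) (show 0 < r by omega))
  have hT : ∀ K : Finset V, ∃ T : Finset V, K ∈ P → Dom A T K ∧
      (∀ hK : K ∈ B, ψ ⟨K, hK⟩ ∈ T ∨ ∃ u ∈ T, A u (ψ ⟨K, hK⟩)) ∧
      2 * #T + (if K ∈ B then 0 else 2) ≤ #K + 1 := by
    intro K
    by_cases hK : K ∈ P
    swap
    · exact ⟨∅, fun k => absurd k hK⟩
    by_cases hK' : K ∈ B
    · obtain ⟨-, c, hc, a⟩ := mem_filter.mp (hψt ⟨K, hK'⟩)
      obtain ⟨f, hf⟩ := hFC K hK c hc
      obtain ⟨T, h1, h2, -⟩ := tails h hf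
      rw [card_erase_of_mem hc] at h2
      have hp := card_pos.mpr ⟨c, hc⟩
      obtain ⟨z, z1, z2⟩ : ∃ z, (c = z ∨ A z c) ∧ (ψ ⟨K, hK'⟩ = z ∨ A z (ψ ⟨K, hK'⟩)) := by
        by_cases b : A c (ψ ⟨K, hK'⟩)
        · exact ⟨c, Or.inl rfl, Or.inr b⟩
        · exact ⟨_, Or.inr ((h.2 _ _ a.symm).mpr b), Or.inl rfl⟩
      refine ⟨insert z T, fun _ => ⟨?_, fun _ => ?_, ?_⟩⟩
      · intro v hv'
        by_cases e : v = c
        · rw [e]
          exact z1.imp (fun k => by rw [k]; exact mem_insert_self _ _)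
            (fun k => ⟨z, mem_insert_self _ _, k⟩)
        · exact (h1 v (mem_erase.mpr ⟨e, hv'⟩)).imp mem_insert_of_mem
            (fun ⟨u, k, k'⟩ => ⟨u, mem_insert_of_mem k, k'⟩)
      · exact z2.imp (fun k => by rw [k]; exact mem_insert_self _ _)
          (fun k => ⟨z, mem_insert_self _ _, k⟩)
      · have := card_insert_le z T
        simp only at h2 hp
        rw [if_pos hK']
        omega
    · have : Cheap A K := by
        by_contra k
        exact hK' (mem_filter.mpr ⟨hK, k⟩)
      obtain ⟨T, h1, h2⟩ := this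
      refine ⟨T, fun _ => ⟨h1, fun k => absurd k hK', ?_⟩⟩
      obtain ⟨k, hk⟩ := (hv.1 K hK).2.1
      rw [if_neg hK']
      omega
  choose T hT using hT
  let I : Finset V := univ.image ψ
  have hI : I ⊆ S := by
    intro x hx
    obtain ⟨K, -, rfl⟩ := mem_image.mp hx
    exact (mem_filter.mp (hψt K)).1
  have cI : #I = #B := by
    rw [card_image_of_injective _ hψ]
    simp
  refine ⟨P.biUnion T ∪ S \ I, ?_, ?_⟩
  · have lift : ∀ K ∈ P, ∀ v, (v ∈ T K ∨ ∃ u ∈ T K, A u v) →
        (v ∈ P.biUnion T ∪ S \ I ∨ ∃ u ∈ P.biUnion T ∪ S \ I, A u v) := by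
      intro K hK v k
      exact k.imp (fun k => mem_union_left _ (mem_biUnion.mpr ⟨K, hK, k⟩))
        (fun ⟨u, k, k'⟩ => ⟨u, mem_union_left _ (mem_biUnion.mpr ⟨K, hK, k⟩), k'⟩)
    intro v _
    rcases hcov v with k | ⟨K, hK, k⟩
    · by_cases e : v ∈ I
      · obtain ⟨K, -, rfl⟩ := mem_image.mp e
        exact lift K.1 (hB _ K.2).1 _ ((hT K.1 (hB _ K.2).1).2.1 K.2)
      · exact Or.inl (mem_union_right _ (mem_sdiff.mpr ⟨k, e⟩))
    · exact lift K hK v ((hT K hK).1 v k)
  · have k1 := card_union_le (P.biUnion T) (S \ I)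
    have k2 : #(P.biUnion T) ≤ ∑ K ∈ P, #(T K) := card_biUnion_le
    have k3 : #(S \ I) + #I = #S := card_sdiff_add_card_eq_card hI
    have k4 := sum_le_sum (fun K hK => (hT K hK).2.2)
    rw [sum_add_distrib, sum_add_distrib, ← mul_sum, sum_ite, sum_const, sum_const,
      sum_const] at k4
    simp only [smul_eq_mul] at k4
    have k5 := card_filter_add_card_filter_not (s := P) (fun K => K ∈ B)
    have k6 : #(P.filter (fun K => K ∈ B)) = #B := by
      congr 1
      ext K
      simp only [mem_filter]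
      exact ⟨fun k => k.2, fun k => ⟨(hB K k).1, k⟩⟩
    have k7 : #(P.biUnion id) = ∑ K ∈ P, #K := card_biUnion (fun K hK K' hK' hne =>
      hv.2 K hK K' hK' hne)
    have k8 : #(P.biUnion id ∪ S) = #(P.biUnion id) + #S := card_union_of_disjoint (by
      rw [disjoint_biUnion_left]
      exact fun K hK => (hv.1 K hK).1)
    have k9 : #(P.biUnion id ∪ S) ≤ #(univ : Finset V) := card_le_card (subset_univ _)
    omega

end Pool.Agent.H230Z.DD
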