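import Pool.Agent.H230Z.DDGood

set_option autoImplicit false

namespace Pool.Agent.H230Z.DD

open Finset

variable {V : Type*} [DecidableEq V]

/-- `A` is an orientation of `G` -/
def Ori (G : SimpleGraph V) (A : V → V → Prop) : Prop :=
  (∀ u v, A u v → G.Adj u v) ∧ ∀ u v, G.Adj u v → (A u v ↔ ¬ A v u)

def MF (G : SimpleGraph V) (W : Finset V) (f : V → V) : Prop :=
  ∀ x ∈ W, f x ∈ W ∧ f (f x) = x ∧ G.Adj x (f x)

def PM (G : SimpleGraph V) (W : Finset V) : Prop := ∃ f, MF G W f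

def FC (G : SimpleGraph V) (K : Finset V) : Prop := ∀ c ∈ K, PM G (K.erase c)

def NF (G : SimpleGraph V) (K : Finset V) (a : V) (f : V → V) : Prop :=
  MF G (K.erase a) f ∧ ∀ x, x ∉ K.erase a → f x = x

variable {G : SimpleGraph V} {A : V → V → Prop}

omit [DecidableEq V] in
theorem Ori.irr (h : Ori G A) (v : V) : ¬ A v v := fun a => (h.1 v v a).ne rfl

omit [DecidableEq V] in
theorem tails (h : Ori G A) {W : Finset V} {f : V → V} (hf : MF G W f) :
    ∃ S : Finset V, Dom A S W ∧ 2 * #S = #W ∧ ∀ x ∈ W, A x (f x) → x ∈ S := by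
  classical
  refine ⟨W.filter (fun x => A x (f x)), ?_, ?_, fun x hx a => mem_filter.mpr ⟨hx, a⟩⟩
  · intro v hv
    obtain ⟨a, b, c⟩ := hf v hv
    by_cases e : A v (f v)
    · exact Or.inl (mem_filter.mpr ⟨hv, e⟩)
    · have k : A (f v) v := (h.2 _ _ c.symm).mpr e
      exact Or.inr ⟨f v, mem_filter.mpr ⟨a, by rw [b]; exact k⟩, k⟩
  · have k1 := card_filter_add_card_filter_not (s := W) (fun x => A x (f x))
    have k2 : #(W.filter (fun x => A x (f x))) = #(W.filter (fun x => ¬ A x (f x))) := by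
      refine card_nbij' f f ?_ ?_ ?_ ?_
      · intro x hx
        simp only [coe_filter, Set.mem_setOf_eq] at hx ⊢
        obtain ⟨a, b, c⟩ := hf x hx.1
        exact ⟨a, by rw [b]; exact (h.2 _ _ c).mp hx.2⟩
      · intro x hx
        simp only [coe_filter, Set.mem_setOf_eq] at hx ⊢
        obtain ⟨a, b, c⟩ := hf x hx.1
        exact ⟨a, by rw [b]; exact (h.2 _ _ c.symm).mpr hx.2⟩
      · intro x hx
        simp only [coe_filter, Set.mem_setOf_eq] at hx
        exact (hf x hx.1).2.1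
      · intro x hx
        simp only [coe_filter, Set.mem_setOf_eq] at hx
        exact (hf x hx.1).2.1
    omega

theorem no_cherry (h : Ori G A) {K : Finset V} (hc : ¬ Cheap A K) {c u : V} (hcK : c ∈ K)
    {f : V → V} (hf : MF G (K.erase c) f) (hu : u ∈ K) (a : A u c) : A (f u) u := by
  have hu' : u ∈ K.erase c := mem_erase.mpr ⟨(h.1 _ _ a).ne, hu⟩
  rw [h.2 _ _ (hf u hu').2.2.symm]
  intro b
  obtain ⟨S, h1, h2, h3⟩ := tails h hf
  apply hc
  refine ⟨S, ?_, ?_⟩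
  · intro v hv
    by_cases e : v = c
    · exact Or.inr ⟨u, h3 u hu' b, e ▸ a⟩
    · exact h1 v (mem_erase.mpr ⟨e, hv⟩)
  · rw [h2]
    exact card_le_card (erase_subset _ _)

theorem exists_NF {K : Finset V} {a : V} (h : PM G (K.erase a)) : ∃ f, NF G K a f := by
  obtain ⟨f, hf⟩ := h
  refine ⟨fun x => if x ∈ K.erase a then f x else x, ?_, fun x hx => if_neg hx⟩
  intro x hx
  obtain ⟨h1, h2, h3⟩ := hf x hx
  simp only [if_pos hx, if_pos h1]
  exact ⟨h1, h2, h3⟩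

/-- moving the hole of a near perfect matching -/
def mv (f : V → V) (a b : V) : V → V := fun x => Equiv.swap a (f b) (f (Equiv.swap a (f b) x))

theorem NF.move {K : Finset V} {a b : V} {f : V → V} (hf : NF G K a f) (ha : a ∈ K) (hb : b ∈ K)
    (hba : G.Adj b a) : NF G K (f b) (mv f a b) ∧ mv f a b b = a := by
  have hb' : b ∈ K.erase a := mem_erase.mpr ⟨hba.ne, hb⟩
  obtain ⟨p1, p2, p3⟩ := hf.1 b hb'
  have hσ : ∀ x, Equiv.swap a (f b) x ∈ K.erase a ↔ x ∈ K.erase (f b) := by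
    intro x
    have := mem_erase.mp p1
    by_cases e1 : x = a
    · subst e1
      simp only [Equiv.swap_apply_left, mem_erase]
      tauto
    by_cases e2 : x = f b
    · subst e2
      simp
    · rw [Equiv.swap_apply_of_ne_of_ne e1 e2]
      simp [e1, e2]
  have hσ' : ∀ x, Equiv.swap a (f b) x ∈ K.erase (f b) ↔ x ∈ K.erase a := by
    intro x
    rw [← hσ, Equiv.swap_apply_self]
  have hbb : Equiv.swap a (f b) b = b := Equiv.swap_apply_of_ne_of_ne hba.ne p3.ne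
  have hmb : mv f a b b = a := by
    simp only [mv]
    rw [hbb, Equiv.swap_apply_right]
  refine ⟨⟨?_, ?_⟩, hmb⟩
  · intro x hx
    obtain ⟨q1, q2, q3⟩ := hf.1 _ ((hσ x).mpr hx)
    refine ⟨(hσ' _).mpr q1, ?_, ?_⟩
    · simp only [mv]
      rw [Equiv.swap_apply_self, q2, Equiv.swap_apply_self]
    · by_cases e1 : x = a
      · subst e1
        simp only [mv]
        rw [Equiv.swap_apply_left, p2, hbb]
        exact hba.symm
      by_cases e2 : x = b
      · subst e2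
        rw [hmb]
        exact hba
      · have e3 : x ≠ f b := (mem_erase.mp hx).1
        simp only [mv]
        rw [Equiv.swap_apply_of_ne_of_ne e1 e3] at q1 q2 q3 ⊢
        rw [Equiv.swap_apply_of_ne_of_ne (mem_erase.mp q1).1]
        · exact q3
        · intro e
          apply e2
          rw [← q2, e, p2]
  · intro x hx
    simp only [mv]
    rw [hf.2 _ (fun h => hx ((hσ x).mp h)), Equiv.swap_apply_self]

theorem out_closed [Finite V] (h : Ori G A) {K : Finset V} (hK : FC G K) (hc : ¬ Cheap A K)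
    {Z : Set V} (hZ : ∀ u ∈ K, ∀ v ∈ K, A u v → v ∈ Z → u ∈ Z) :
    ∀ b ∈ K, ∀ a ∈ K, A b a → b ∈ Z → a ∈ Z := by
  intro b hb a ha hba hbZ
  let T : Set ((V → V) × (V → V) × V × V) := {s | NF G K s.2.2.1 s.1 ∧ NF G K s.2.2.2 s.2.1 ∧
    s.2.2.1 ∈ K ∧ s.2.2.2 ∈ K ∧ A s.2.2.2 s.2.2.1 ∧ s.2.2.2 ∈ Z}
  let Φ : ((V → V) × (V → V) × V × V) → ((V → V) × (V → V) × V × V) := fun s =>
    (s.2.1, mv s.1 s.2.2.1 s.2.2.2, s.2.2.2, s.1 s.2.2.2)
  have hm : Set.MapsTo Φ T T := by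
    rintro ⟨f, g, a, b⟩ ⟨h1, h2, h3, h4, h5, h6⟩
    have k1 := no_cherry h hc h3 h1.1 h4 h5
    have k2 : f b ∈ K :=
      mem_of_mem_erase (h1.1 b (mem_erase.mpr ⟨(h.1 _ _ h5).ne, h4⟩)).1
    exact ⟨h2, (h1.move h3 h4 (h.1 _ _ h5)).1, h4, k2, k1, hZ _ k2 _ h4 k1 h6⟩
  have hi : Set.InjOn Φ T := by
    rintro ⟨f, g, a, b⟩ ⟨h1, -, h3, h4, h5, -⟩ ⟨f', g', a', b'⟩ ⟨h1', -, h3', h4', h5', -⟩ e
    simp only [Φ, Prod.mk.injEq] at e
    obtain ⟨e1, e2, e3, e4⟩ := e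
    subst e1 e3
    have k1 := (h1.move h3 h4 (h.1 _ _ h5)).2
    have k2 := (h1'.move h3' h4' (h.1 _ _ h5')).2
    simp only at k1 k2
    have e5 : a = a' := by rw [← k1, ← k2, e2]
    subst e5
    have e6 : f = f' := by
      funext x
      have := congrFun e2 (Equiv.swap a (f b) x)
      simp only [mv] at this
      rw [← e4, Equiv.swap_apply_self] at this
      exact (Equiv.swap a (f b)).injective this
    rw [e6]
  have hbij := ((Set.toFinite T).injOn_iff_bijOn_of_mapsTo hm).mp hi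
  obtain ⟨f, hf⟩ := exists_NF (hK a ha)
  obtain ⟨g, hg⟩ := exists_NF (hK b hb)
  obtain ⟨s, hs, e⟩ := hbij.surjOn (show (f, g, a, b) ∈ T from ⟨hf, hg, ha, hb, hba, hbZ⟩)
  simp only [Φ, Prod.mk.injEq] at e
  rw [← e.2.2.1]
  exact hs.2.2.2.2.2

theorem strong_of_FC [Finite V] (h : Ori G A) {K : Finset V} (hK : FC G K) (hc : ¬ Cheap A K) :
    Strong A K := by
  classical
  rintro Z ⟨z, hz, hzZ⟩ hZ x hx
  by_contra hxZ
  have ho := out_closed h hK hc hZ
  have hadj : ∀ u ∈ K, ∀ v ∈ K, G.Adj u v → u ∈ Z → v ∈ Z := by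
    intro u hu v hv a huZ
    by_cases e : A u v
    · exact ho u hu v hv e huZ
    · exact hZ v hv u hu ((h.2 _ _ a.symm).mpr e) huZ
  obtain ⟨f, hf⟩ := hK x hx
  obtain ⟨g, hg⟩ := hK z hz
  have k1 : MF G (K.filter (· ∈ Z)) f := by
    intro u hu
    rw [mem_filter] at hu
    obtain ⟨a, b, c⟩ := hf u (mem_erase.mpr ⟨fun e => hxZ (e ▸ hu.2), hu.1⟩)
    exact ⟨mem_filter.mpr ⟨mem_of_mem_erase a, hadj u hu.1 _ (mem_of_mem_erase a) c hu.2⟩, b, c⟩
  have k2 : MF G ((K.filter (· ∈ Z)).erase z) g := by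
    intro u hu
    rw [mem_erase, mem_filter] at hu
    obtain ⟨a, b, c⟩ := hg u (mem_erase.mpr ⟨hu.1, hu.2.1⟩)
    exact ⟨mem_erase.mpr ⟨(mem_erase.mp a).1, mem_filter.mpr ⟨mem_of_mem_erase a,
      hadj u hu.2.1 _ (mem_of_mem_erase a) c hu.2.2⟩⟩, b, c⟩
  obtain ⟨S, -, e1, -⟩ := tails h k1
  obtain ⟨S', -, e2, -⟩ := tails h k2
  have hm : z ∈ K.filter (· ∈ Z) := mem_filter.mpr ⟨hz, hzZ⟩
  rw [card_erase_of_mem hm] at e2
  have := card_pos.mpr ⟨z, hm⟩
  omega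

end Pool.Agent.H230Z.DD
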