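import Mathlib

set_option autoImplicit false

namespace Pool.Agent.H230Z.DD

open Finset

variable {V : Type*} [DecidableEq V]

/-- strongly connected, in cut form -/
def Strong (A : V → V → Prop) (X : Finset V) : Prop :=
  ∀ Z : Set V, (∃ z ∈ X, z ∈ Z) → (∀ u ∈ X, ∀ v ∈ X, A u v → v ∈ Z → u ∈ Z) → ∀ x ∈ X, x ∈ Z

/-- everything is reachable from `H` -/
def Rooted (A : V → V → Prop) (H X : Finset V) : Prop :=
  ∀ Z : Set V, (∀ h ∈ H, h ∈ Z) → (∀ u ∈ X, ∀ v ∈ X, A u v → u ∈ Z → v ∈ Z) → ∀ x ∈ X, x ∈ Z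

def Dom (A : V → V → Prop) (S X : Finset V) : Prop := ∀ v ∈ X, v ∈ S ∨ ∃ u ∈ S, A u v

def Cheap (A : V → V → Prop) (X : Finset V) : Prop := ∃ S : Finset V, Dom A S X ∧ 2 * #S ≤ #X

omit [DecidableEq V] in
theorem Strong.out {A : V → V → Prop} {X : Finset V} (h : Strong A X) (Z : Set V)
    (hz : ∃ z ∈ X, z ∈ Z) (hc : ∀ u ∈ X, ∀ v ∈ X, A u v → u ∈ Z → v ∈ Z) : ∀ x ∈ X, x ∈ Z := by
  intro x hx
  by_contra hn
  obtain ⟨z, hz, hzZ⟩ := hz
  exact h Zᶜ ⟨x, hx, hn⟩ (fun u hu v hv a hv' hu' => hv' (hc u hu v hv a hu')) z hz hzZ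

omit [DecidableEq V] in
theorem layers (B : V → V → Prop) (X H : Finset V) (hr : Rooted B H X) :
    ∃ ρ : V → ℕ, ∃ par : V → V, (∀ h ∈ H, ρ h = 0) ∧
      (∀ v ∈ X, v ∉ H → par v ∈ X ∧ B (par v) v ∧ ρ v = ρ (par v) + 1) ∧
      (∀ u ∈ X, ∀ v ∈ X, B u v → ρ v ≤ ρ u + 1) := by
  classical
  let L : ℕ → Set V := fun n =>
    Nat.rec (motive := fun _ => Set V) (↑H : Set V)
      (fun _ S => S ∪ {v | v ∈ X ∧ ∃ u ∈ X, u ∈ S ∧ B u v}) n
  have L0 : L 0 = ↑H := rfl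
  have Ls : ∀ n, L (n + 1) = L n ∪ {v | v ∈ X ∧ ∃ u ∈ X, u ∈ L n ∧ B u v} := fun n => rfl
  have hall : ∀ x ∈ X, ∃ n, x ∈ L n := by
    intro x hx
    refine hr {v | ∃ n, v ∈ L n} (fun h hh => ⟨0, by rw [L0]; exact hh⟩) ?_ x hx
    rintro u hu v hv b ⟨n, hn⟩
    exact ⟨n + 1, by rw [Ls]; exact Or.inr ⟨hv, u, hu, hn, b⟩⟩
  let ρ : V → ℕ := fun v => sInf {n | v ∈ L n}
  have hmem : ∀ x ∈ X, x ∈ L (ρ x) := fun x hx => Nat.sInf_mem (s := {n | x ∈ L n}) (hall x hx)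
  have hle : ∀ x n, x ∈ L n → ρ x ≤ n := fun x n h => Nat.sInf_le h
  have h3 : ∀ u ∈ X, ∀ v ∈ X, B u v → ρ v ≤ ρ u + 1 := by
    intro u hu v hv b
    apply hle
    rw [Ls]
    exact Or.inr ⟨hv, u, hu, hmem u hu, b⟩
  have h2 : ∀ v, ∃ p, v ∈ X → v ∉ H → p ∈ X ∧ B p v ∧ ρ v = ρ p + 1 := by
    intro v
    by_cases hv : v ∈ X
    swap
    · exact ⟨v, fun h => absurd h hv⟩
    by_cases hH : v ∈ H
    · exact ⟨v, fun _ h => absurd hH h⟩
    have h := hmem v hv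
    cases hρ : ρ v with
    | zero => rw [hρ, L0] at h; exact absurd h hH
    | succ m =>
      rw [hρ, Ls] at h
      rcases h with h | ⟨-, u, hu, hm, b⟩
      · have := hle v m h
        omega
      · refine ⟨u, fun _ _ => ⟨hu, b, ?_⟩⟩
        have := hle u m hm
        have := h3 u hu v hv b
        omega
  choose par hpar using h2
  refine ⟨ρ, par, fun h hh => ?_, hpar, h3⟩
  have := hle h 0 (by rw [L0]; exact hh)
  omega

theorem gal (A : V → V → Prop) (H : Finset V) (ρ : V → ℕ) (par : V → V) :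
    ∀ (n : ℕ) (X : Finset V), #X = n →
      (∀ v ∈ X, v ∉ H → par v ∈ X ∧ A (par v) v ∧ ρ v = ρ (par v) + 1) →
      ∃ S X0 : Finset V, X0 ⊆ X ∧ (∀ h ∈ H, h ∈ X → h ∈ X0) ∧
        (∀ v ∈ X0, v ∉ H → ∃ u ∈ H, A u v) ∧
        (∀ v ∈ X, v ∉ X0 → v ∈ S ∨ ∃ u ∈ S, A u v) ∧ 2 * #S + #X0 ≤ #X := by
  intro n
  induction n using Nat.strong_induction_on with
  | _ n ih =>
  intro X hX hp
  by_cases hne : (X.filter (fun v => v ∉ H ∧ par v ∉ H)).Nonempty
  · obtain ⟨v, hv, hmax⟩ := exists_max_image _ ρ hne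
    simp only [mem_filter] at hv hmax
    obtain ⟨hvX, hvH, hpH⟩ := hv
    obtain ⟨hpX, hA, hρ⟩ := hp v hvX hvH
    set p := par v with hpdef
    let X' := X.filter (fun u => u ≠ p ∧ ¬ (u ∉ H ∧ par u = p))
    have hvp : v ≠ p := by
      intro h
      rw [← h] at hρ
      omega
    have hcard : #X' + 2 ≤ #X := by
      have h1 : X' ⊆ (X.erase p).erase v := by
        intro u hu
        simp only [X', mem_filter] at hu
        simp only [mem_erase]
        refine ⟨?_, hu.2.1, hu.1⟩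
        rintro rfl
        exact hu.2.2 ⟨hvH, rfl⟩
      have h2 := card_le_card h1
      rw [card_erase_of_mem (mem_erase.mpr ⟨hvp, hvX⟩), card_erase_of_mem hpX] at h2
      have h3 : 1 < #X := one_lt_card.mpr ⟨v, hvX, p, hpX, hvp⟩
      omega
    obtain ⟨S, X0, h1, h2, h3, h4, h5⟩ := ih (#X') (by omega) X' rfl (by
      intro u hu huH
      simp only [X', mem_filter] at hu
      obtain ⟨a, b, c⟩ := hp u hu.1 huH
      refine ⟨?_, b, c⟩
      simp only [X', mem_filter]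
      refine ⟨a, fun h => hu.2.2 ⟨huH, h⟩, ?_⟩
      rintro ⟨d, e⟩
      have k1 := hmax u ⟨hu.1, huH, d⟩
      have k2 := (hp (par u) a d).2.2
      rw [e] at k2
      omega)
    refine ⟨insert p S, X0, h1.trans (filter_subset _ _), ?_, h3, ?_, ?_⟩
    · intro h hh hX
      apply h2 h hh
      simp only [X', mem_filter]
      exact ⟨hX, fun e => hpH (e ▸ hh), fun e => e.1 hh⟩
    · intro u hu hu0
      by_cases hu' : u ∈ X'
      · rcases h4 u hu' hu0 with h | ⟨t, ht, h⟩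
        · exact Or.inl (mem_insert_of_mem h)
        · exact Or.inr ⟨t, mem_insert_of_mem ht, h⟩
      · simp only [X', mem_filter, not_and, not_not] at hu'
        by_cases e : u = p
        · exact Or.inl (e ▸ mem_insert_self _ _)
        · have k : u ∉ H ∧ par u = p := by
            by_contra k
            exact k (by simpa using hu' hu e)
          exact Or.inr ⟨p, mem_insert_self _ _, k.2 ▸ (hp u hu k.1).2.1⟩
    · have := card_insert_le p S
      omega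
  · refine ⟨∅, X, Subset.refl _, fun _ _ h => h, ?_, fun v h h' => absurd h h', by simp⟩
    intro v hv hvH
    refine ⟨par v, ?_, (hp v hv hvH).2.1⟩
    by_contra h
    exact hne ⟨v, mem_filter.mpr ⟨hv, hvH, h⟩⟩

theorem gal' (A : V → V → Prop) (H X : Finset V) (hr : Rooted A H X) :
    ∃ S X0 : Finset V, X0 ⊆ X ∧ (∀ h ∈ H, h ∈ X → h ∈ X0) ∧
        (∀ v ∈ X0, v ∉ H → ∃ u ∈ H, A u v) ∧
        (∀ v ∈ X, v ∉ X0 → v ∈ S ∨ ∃ u ∈ S, A u v) ∧ 2 * #S + #X0 ≤ #X := by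
  obtain ⟨ρ, par, -, h, -⟩ := layers A X H hr
  exact gal A H ρ par _ X rfl h

theorem rooted (A : V → V → Prop) (z : V) (X : Finset V) (hz : z ∈ X) (hr : Rooted A {z} X) :
    ∃ S : Finset V, z ∈ S ∧ Dom A S X ∧ 2 * #S ≤ #X + 1 := by
  obtain ⟨S, X0, h1, h2, h3, h4, h5⟩ := gal' A {z} X hr
  refine ⟨insert z S, mem_insert_self _ _, ?_, ?_⟩
  · intro v hv
    by_cases h0 : v ∈ X0
    · by_cases e : v = z
      · exact Or.inl (e ▸ mem_insert_self _ _)
      · obtain ⟨u, hu, a⟩ := h3 v h0 (by simpa using e)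
        rw [mem_singleton] at hu
        exact Or.inr ⟨z, mem_insert_self _ _, hu ▸ a⟩
    · rcases h4 v hv h0 with h | ⟨t, ht, h⟩
      · exact Or.inl (mem_insert_of_mem h)
      · exact Or.inr ⟨t, mem_insert_of_mem ht, h⟩
  · have := card_insert_le z S
    have : 0 < #X0 := card_pos.mpr ⟨z, h2 z (mem_singleton_self z) hz⟩
    omega

theorem cheap_of_even {A : V → V → Prop} {X H : Finset V} (hX : Strong A X) (hH : H ⊆ X)
    (hne : H.Nonempty) (hs : Strong A H) (hev : Even #H) : Cheap A X := by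
  obtain ⟨z0, hz0⟩ := hne
  obtain ⟨S, X0, h1, h2, h3, h4, h5⟩ := gal' A H X
    (fun Z hZ hc => hX.out Z ⟨z0, hH hz0, hZ z0 hz0⟩ hc)
  have hH0 : H ⊆ X0 := fun h hh => h2 h hh (hH hh)
  suffices h : ∃ T : Finset V, Dom A T X0 ∧ 2 * #T ≤ #X0 by
    obtain ⟨T, hT, hc⟩ := h
    refine ⟨S ∪ T, ?_, ?_⟩
    · intro v hv
      by_cases h0 : v ∈ X0
      · rcases hT v h0 with h | ⟨t, ht, h⟩
        · exact Or.inl (mem_union_right _ h)
        · exact Or.inr ⟨t, mem_union_right _ ht, h⟩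
      · rcases h4 v hv h0 with h | ⟨t, ht, h⟩
        · exact Or.inl (mem_union_left _ h)
        · exact Or.inr ⟨t, mem_union_left _ ht, h⟩
    · have := card_union_le S T
      omega
  by_cases hsub : X0 ⊆ H
  · have e : X0 = H := Subset.antisymm hsub hH0
    obtain ⟨T, -, hT, hc⟩ := rooted A z0 H hz0
      (fun Z hZ hc => hs.out Z ⟨z0, hz0, hZ z0 (mem_singleton_self _)⟩ hc)
    refine ⟨T, e ▸ hT, ?_⟩
    rw [e]
    obtain ⟨k, hk⟩ := hev
    omega
  · obtain ⟨y, hy, hyH⟩ := not_subset.mp hsub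
    obtain ⟨z, hz, a⟩ := h3 y hy hyH
    have hm : ∀ h ∈ H, h ∈ X0.erase y := fun h hh =>
      mem_erase.mpr ⟨fun e => hyH (e ▸ hh), hH0 hh⟩
    obtain ⟨T, hzT, hT, hc⟩ := rooted A z (X0.erase y) (hm z hz) (by
      intro Z hZ hc
      have k : ∀ h ∈ H, h ∈ Z := hs.out Z ⟨z, hz, hZ z (mem_singleton_self _)⟩
        (fun u hu v hv => hc u (hm u hu) v (hm v hv))
      intro x hx
      by_cases hxH : x ∈ H
      · exact k x hxH
      · obtain ⟨u, hu, b⟩ := h3 x (mem_of_mem_erase hx) hxH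
        exact hc u (hm u hu) x hx b (k u hu))
    refine ⟨T, ?_, ?_⟩
    · intro v hv
      by_cases e : v = y
      · exact Or.inr ⟨z, hzT, e ▸ a⟩
      · exact hT v (mem_erase.mpr ⟨e, hv⟩)
    · rw [card_erase_of_mem hy] at hc
      have : 0 < #X0 := card_pos.mpr ⟨y, hy⟩
      omega

end Pool.Agent.H230Z.DD
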