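import Mathlib

set_option autoImplicit false

namespace Pool.Agent.H230Z.Lucky

open Finset

/-- hubs and gadget copies -/
abbrev W (H N T : Type) : Type :=
  (Bool × H) ⊕ ((Bool → T → Finset H) × Bool × N × Finset N × T)

variable {H N T : Type}

def adj : W H N T → W H N T → Prop
  | Sum.inl _, Sum.inl _ => False
  | Sum.inl a, Sum.inr b => a.1 = !b.2.1 ∧ a.2 ∈ b.1 b.2.1 b.2.2.2.2
  | Sum.inr b, Sum.inl a => a.1 = !b.2.1 ∧ a.2 ∈ b.1 b.2.1 b.2.2.2.2
  | Sum.inr a, Sum.inr b => a.1 = b.1 ∧ b.2.1 = !a.2.1 ∧ a.2.2.1 ∈ b.2.2.2.1 ∧ b.2.2.1 ∈ a.2.2.2.1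

def side : W H N T → Bool
  | Sum.inl a => a.1
  | Sum.inr b => b.2.1

theorem adj_side {u v : W H N T} (h : adj u v) : side u ≠ side v := by
  rcases u with a | a <;> rcases v with b | b
  · exact h.elim
  · simp only [side, h.1]; cases b.2.1 <;> simp
  · simp only [side, h.1]; cases a.2.1 <;> simp
  · simp only [side, h.2.1]; cases a.2.1 <;> simp

def Gr (H N T : Type) : SimpleGraph (W H N T) where
  Adj := adj
  symm := ⟨by
    rintro (a | a) (b | b) h
    · exact h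
    · exact h
    · exact h
    · exact ⟨h.1.symm, by rw [h.2.1]; simp, h.2.2.2, h.2.2.1⟩⟩
  loopless := ⟨fun v h => adj_side h rfl⟩

theorem colorable : (Gr H N T).Colorable 2 := by
  have c : (Gr H N T).Coloring Bool := SimpleGraph.Coloring.mk side (fun h => adj_side h)
  simpa using c.colorable

variable [Fintype N] [Fintype T] [DecidableEq N]

def phi (f : W H N T → ℕ) (κ : Bool → T → Finset H) (τ : Bool) (j i : N) : ℕ :=
  ∑ S ∈ univ.filter (fun S : Finset N => i ∈ S), ∑ t : T, f (Sum.inr (κ, τ, j, S, t))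

theorem sum_nbr (f : W H N T → ℕ) (κ : Bool → T → Finset H) (σ : Bool) (i : N) (S : Finset N)
    (t : T) (s : Finset (W H N T)) (hs : ∀ w, w ∈ s ↔ (Gr H N T).Adj (Sum.inr (κ, σ, i, S, t)) w) :
    ∑ w ∈ s, f w = ∑ h ∈ κ σ t, f (Sum.inl (!σ, h)) + ∑ j ∈ S, phi f κ (!σ) j i := by
  classical
  have e : s = ((κ σ t).image (fun h => (!σ, h))).disjSum
      ((S ×ˢ (univ.filter (fun S : Finset N => i ∈ S)) ×ˢ (univ : Finset T)).image
        (fun x => (κ, !σ, x.1, x.2.1, x.2.2))) := by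
    ext w
    rw [hs]
    rcases w with ⟨a, b⟩ | ⟨a, b, c, d, e⟩
    · simp only [Gr, adj, inl_mem_disjSum, mem_image, Prod.mk.injEq]
      constructor
      · rintro ⟨h1, h2⟩
        exact ⟨b, h2, h1.symm, rfl⟩
      · rintro ⟨x, h1, h2, h3⟩
        exact ⟨h2.symm, h3 ▸ h1⟩
    · simp only [Gr, adj, inr_mem_disjSum, mem_image, Prod.mk.injEq, mem_product, mem_filter,
        mem_univ, true_and, and_true]
      constructor
      · rintro ⟨h1, h2, h3, h4⟩
        exact ⟨(c, d, e), ⟨h4, h3⟩, h1, h2.symm, rfl, rfl, rfl⟩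
      · rintro ⟨⟨x, y, z⟩, ⟨h1, h2⟩, h3, h4, h5, h6, h7⟩
        simp only at h1 h2 h5 h6
        exact ⟨h3, h4.symm, h6 ▸ h2, h5 ▸ h1⟩
  rw [e, sum_disjSum, sum_image, sum_image, sum_product]
  · simp only [phi, sum_product]
  · rintro ⟨a, b, c⟩ - ⟨a', b', c'⟩ - h
    simp only [Prod.mk.injEq] at h ⊢
    exact h.2.2
  · intro a _ b _ h
    simp only [Prod.mk.injEq] at h
    exact h.2

theorem sum_phi_le (f : W H N T → ℕ) {C : ℕ} (hf : ∀ v, f v ≤ C) (κ : Bool → T → Finset H)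
    (τ : Bool) (i : N) (S : Finset N) :
    ∑ j ∈ S, phi f κ τ j i ≤
      Fintype.card N * (Fintype.card (Finset N) * (Fintype.card T * C)) := by
  refine (sum_le_card_nsmul _ _ (Fintype.card (Finset N) * (Fintype.card T * C)) ?_).trans
    (Nat.mul_le_mul_right _ (card_le_univ S))
  intro j _
  refine (sum_le_card_nsmul _ _ (Fintype.card T * C) ?_).trans
    (Nat.mul_le_mul_right _ (card_le_univ _))
  intro S' _
  exact sum_le_card_nsmul _ _ C (fun t _ => hf _)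

omit [Fintype T] in
theorem few_bad (g : ℕ) (hg : 0 < g) (ψ : N → ℕ) :
    #(univ.filter (fun j => ¬ ∃ S : Finset N, j ∈ S ∧ g ∣ ∑ k ∈ S, ψ k)) ≤ 2 * g := by
  classical
  by_contra hn
  obtain ⟨t, ht, hc, hd⟩ := Int.erdos_ginzburg_ziv (n := g) (fun k => (ψ k : ℤ))
    (s := univ.filter (fun j => ¬ ∃ S : Finset N, j ∈ S ∧ g ∣ ∑ k ∈ S, ψ k)) (by omega)
  obtain ⟨j, hj⟩ : t.Nonempty := card_pos.mp (by omega)
  exact (mem_filter.mp (ht hj)).2 ⟨t, hj, by exact_mod_cast hd⟩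

omit [Fintype T] in
theorem good_pair (g : ℕ) (hg : 0 < g) (hN : 4 * g < Fintype.card N) (φ ψ : N → N → ℕ) :
    ∃ i j : N, ∃ S S' : Finset N, j ∈ S ∧ i ∈ S' ∧ g ∣ ∑ k ∈ S, φ k i ∧ g ∣ ∑ k ∈ S', ψ k j := by
  classical
  by_contra hn
  let B : (N → N → ℕ) → N → Finset N := fun φ i =>
    univ.filter (fun j => ¬ ∃ S : Finset N, j ∈ S ∧ g ∣ ∑ k ∈ S, φ k i)
  have h1 : (univ : Finset (N × N)) ⊆
      (univ.biUnion (fun i => (B φ i).image (fun j => (i, j)))) ∪
      (univ.biUnion (fun j => (B ψ j).image (fun i => (i, j)))) := by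
    rintro ⟨i, j⟩ -
    simp only [mem_union, mem_biUnion, mem_image, mem_univ, true_and]
    by_cases h : j ∈ B φ i
    · exact Or.inl ⟨i, j, h, rfl⟩
    · refine Or.inr ⟨j, i, ?_, rfl⟩
      simp only [B, mem_filter, mem_univ, true_and, not_not] at h ⊢
      obtain ⟨S, a, b⟩ := h
      rintro ⟨S', c, d⟩
      exact hn ⟨i, j, S, S', a, c, b, d⟩
  have h2 := (card_le_card h1).trans (card_union_le _ _)
  have h3 := card_biUnion_le_card_mul univ (fun i => (B φ i).image (fun j => (i, j))) (2 * g)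
    (fun i _ => card_image_le.trans (few_bad g hg _))
  have h4 := card_biUnion_le_card_mul univ (fun j => (B ψ j).image (fun i => (i, j))) (2 * g)
    (fun i _ => card_image_le.trans (few_bad g hg _))
  rw [card_univ, Fintype.card_prod] at h2
  rw [card_univ] at h3 h4
  nlinarith

theorem core [Fintype H] {C K : ℕ} (hK2 : 2 ≤ K) (hN : 4 * (C * C) < Fintype.card N)
    (hK : Fintype.card N * (Fintype.card (Finset N) * ((2 * K + 1) * C)) ≤ K * K)
    (hH : C * (C * (2 * (K * K))) < Fintype.card H)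
    (f : W H N (Fin (2 * K + 1)) → ℕ) (hf : ∀ v, 1 ≤ f v ∧ f v ≤ C) :
    ∃ u v, (Gr H N (Fin (2 * K + 1))).Adj u v ∧ ∀ su sv : Finset (W H N (Fin (2 * K + 1))),
      (∀ w, w ∈ su ↔ (Gr H N (Fin (2 * K + 1))).Adj u w) →
      (∀ w, w ∈ sv ↔ (Gr H N (Fin (2 * K + 1))).Adj v w) → ∑ w ∈ su, f w = ∑ w ∈ sv, f w := by
  classical
  have hp : ∀ τ : Bool, ∃ α, (1 ≤ α ∧ α ≤ C) ∧
      C * (2 * (K * K)) < #(univ.filter (fun h : H => f (Sum.inl (τ, h)) = α)) := by
    intro τ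
    obtain ⟨α, h1, h2⟩ := exists_lt_card_fiber_of_mul_lt_card_of_maps_to
      (s := (univ : Finset H)) (t := Icc 1 C) (f := fun h => f (Sum.inl (τ, h)))
      (n := C * (2 * (K * K))) (fun h _ => mem_Icc.mpr (hf _)) (by simpa using hH)
    exact ⟨α, mem_Icc.mp h1, h2⟩
  choose α hα hP using hp
  let x : Bool → Fin (2 * K + 1) → ℕ := fun σ t => if σ then K * K - t else K * t
  have hx : ∀ σ t, x σ t ≤ 2 * (K * K) := by
    intro σ t
    have := t.2
    cases σ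
    · simp only [x, Bool.false_eq_true, if_false]
      nlinarith
    · simp only [x, if_true]
      omega
  have hκ : ∀ σ t, ∃ P : Finset H, (∀ h ∈ P, f (Sum.inl (!σ, h)) = α (!σ)) ∧ #P = α σ * x σ t := by
    intro σ t
    obtain ⟨P, h1, h2⟩ := exists_subset_card_eq (n := α σ * x σ t)
      ((Nat.mul_le_mul (hα σ).2 (hx σ t)).trans (hP (!σ)).le)
    exact ⟨P, fun h hh => (mem_filter.mp (h1 hh)).2, h2⟩
  choose κ hκ1 hκ2 using hκ
  have hs : ∀ σ t, ∑ h ∈ κ σ t, f (Sum.inl (!σ, h)) = α σ * x σ t * α (!σ) := by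
    intro σ t
    rw [sum_congr rfl (hκ1 σ t), sum_const, hκ2, smul_eq_mul]
  have hg : 0 < α false * α true := Nat.mul_pos (hα _).1 (hα _).1
  obtain ⟨i, j, S, S', h1, h2, ⟨p, hp⟩, ⟨q, hq⟩⟩ := good_pair (α false * α true) hg
    (lt_of_le_of_lt (Nat.mul_le_mul_left 4 (Nat.mul_le_mul (hα _).2 (hα _).2)) hN)
    (phi f κ true) (phi f κ false)
  have b1 := sum_phi_le f (fun v => (hf v).2) κ true i S
  have b2 := sum_phi_le f (fun v => (hf v).2) κ false j S'
  rw [Fintype.card_fin] at b1 b2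
  have p1 : p ≤ K * K := (Nat.le_mul_of_pos_left p hg).trans (hp ▸ b1.trans hK)
  have q1 : q ≤ K * K := (Nat.le_mul_of_pos_left q hg).trans (hq ▸ b2.trans hK)
  have d1 := Nat.div_add_mod (q + K * K - p) K
  have d2 := Nat.mod_lt (q + K * K - p) (show 0 < K by omega)
  have d3 : (q + K * K - p) / K ≤ 2 * K := Nat.div_le_of_le_mul (by
    have : K * (2 * K) = 2 * (K * K) := by ring
    omega)
  have d4 : K ≤ K * K := Nat.le_mul_self K
  refine ⟨Sum.inr (κ, false, i, S, ⟨(q + K * K - p) / K, by omega⟩),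
    Sum.inr (κ, true, j, S', ⟨(q + K * K - p) % K, by omega⟩), ⟨rfl, rfl, h2, h1⟩, ?_⟩
  intro su sv hu hv
  rw [sum_nbr f _ _ _ _ _ su hu, sum_nbr f _ _ _ _ _ sv hv, hs, hs]
  simp only [Bool.not_false, Bool.not_true, x, Bool.false_eq_true, if_false, if_true]
  rw [hp, hq]
  have e : K * ((q + K * K - p) / K) + p = (K * K - (q + K * K - p) % K) + q := by omega
  calc α false * (K * ((q + K * K - p) / K)) * α true + α false * α true * p
      = α false * α true * (K * ((q + K * K - p) / K) + p) := by ring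
    _ = _ := by rw [e]; ring

theorem main (C : ℕ) : ∃ (V : Type) (_ : Fintype V) (G : SimpleGraph V), G.Colorable 2 ∧
    ∀ f : V → ℕ, (∀ v, 1 ≤ f v ∧ f v ≤ C) → ∃ u v, G.Adj u v ∧ ∀ su sv : Finset V,
      (∀ w, w ∈ su ↔ G.Adj u w) → (∀ w, w ∈ sv ↔ G.Adj v w) →
        ∑ w ∈ su, f w = ∑ w ∈ sv, f w := by
  obtain ⟨n, hn⟩ : ∃ n, 4 * (C * C) < n := ⟨_, Nat.lt_succ_self _⟩
  obtain ⟨K, hK2, hK⟩ : ∃ K, 2 ≤ K ∧ Fintype.card (Fin n) *
      (Fintype.card (Finset (Fin n)) * ((2 * K + 1) * C)) ≤ K * K := by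
    generalize Fintype.card (Fin n) = a
    generalize Fintype.card (Finset (Fin n)) = b
    refine ⟨3 * (a * b * C) + 2, by omega, ?_⟩
    have e : a * (b * ((2 * (3 * (a * b * C) + 2) + 1) * C)) =
      (a * b * C) * (2 * (3 * (a * b * C) + 2) + 1) := by ring
    rw [e]
    generalize a * b * C = D
    nlinarith
  obtain ⟨M, hM⟩ : ∃ M, C * (C * (2 * (K * K))) < M := ⟨_, Nat.lt_succ_self _⟩
  exact ⟨W (Fin M) (Fin n) (Fin (2 * K + 1)), inferInstance, Gr _ _ _, colorable,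
    core hK2 (by simpa using hn) hK (by simpa using hM)⟩

end Pool.Agent.H230Z.Lucky
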