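import Mathlib

set_option autoImplicit false

namespace Pool.Agent.H230Z.Queens

/-- attack relation on the 3-dimensional board -/
def Att {n : ℕ} (x y : Fin 3 → Fin n) : Prop :=
  ∃ t : ℤ, t ≠ 0 ∧ ∃ v : Fin 3 → ℤ, v ≠ 0 ∧
    (∀ i, v i = -1 ∨ v i = 0 ∨ v i = 1) ∧
    ∀ i, ((y i : ℕ) : ℤ) - ((x i : ℕ) : ℤ) = t * v i

theorem not_att_of_dvd {p : ℕ} (hp : p.Prime) (h7 : 7 < p) (x y : Fin 3 → Fin p) (a b c : ℤ)
    (habc : ∀ u v w : ℤ, (u = -1 ∨ u = 0 ∨ u = 1) → (v = -1 ∨ v = 0 ∨ v = 1) →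
      (w = -1 ∨ w = 0 ∨ w = 1) → ¬ (u = 0 ∧ v = 0 ∧ w = 0) →
      a * u + b * v + c * w ≠ 0 ∧ -7 ≤ a * u + b * v + c * w ∧ a * u + b * v + c * w ≤ 7)
    (hx : (p : ℤ) ∣ a * (x 0 : ℕ) + b * (x 1 : ℕ) + c * (x 2 : ℕ))
    (hy : (p : ℤ) ∣ a * (y 0 : ℕ) + b * (y 1 : ℕ) + c * (y 2 : ℕ)) : ¬ Att x y := by
  rintro ⟨t, ht, v, hv, hv1, hd⟩
  have hne : ¬ (v 0 = 0 ∧ v 1 = 0 ∧ v 2 = 0) := by
    rintro ⟨h0, h1, h2⟩
    apply hv
    funext i
    fin_cases i
    · exact h0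
    · exact h1
    · exact h2
  obtain ⟨k0, k1, k2⟩ := habc _ _ _ (hv1 0) (hv1 1) (hv1 2) hne
  have hdiv : (p : ℤ) ∣ t * (a * v 0 + b * v 1 + c * v 2) := by
    have := dvd_sub hy hx
    have e : a * (y 0 : ℕ) + b * (y 1 : ℕ) + c * (y 2 : ℕ) -
        (a * (x 0 : ℕ) + b * (x 1 : ℕ) + c * (x 2 : ℕ)) = t * (a * v 0 + b * v 1 + c * v 2) := by
      have h0 := hd 0
      have h1 := hd 1
      have h2 := hd 2
      linear_combination a * h0 + b * h1 + c * h2
    rwa [e] at this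
  have hpi : Prime (p : ℤ) := Nat.prime_iff_prime_int.mp hp
  have htlt : -(p : ℤ) < t ∧ t < p := by
    obtain ⟨i, hi⟩ : ∃ i, v i ≠ 0 := by
      by_contra hh
      push Not at hh
      exact hv (funext hh)
    have h1 := hd i
    have h2 := (x i).2
    have h3 := (y i).2
    rcases hv1 i with h | h | h
    · rw [h] at h1; omega
    · exact absurd h hi
    · rw [h] at h1; omega
  rcases hpi.dvd_or_dvd hdiv with h | h
  · have := Int.eq_zero_of_abs_lt_dvd h (abs_lt.mpr htlt)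
    exact ht this
  · have := Int.eq_zero_of_abs_lt_dvd h (abs_lt.mpr ⟨by omega, by omega⟩)
    exact k0 this

/-- the full solution -/
def sol (p : ℕ) (hp : 0 < p) (ab : Fin p × Fin p) : Fin 3 → Fin p :=
  ![⟨(6 * p - 2 * ab.1 - 4 * ab.2) % p, Nat.mod_lt _ hp⟩, ab.1, ab.2]

theorem sol_inj (p : ℕ) (hp : 0 < p) : Function.Injective (sol p hp) := by
  intro a b h
  have h1 := congrFun h 1
  have h2 := congrFun h 2
  simp only [sol] at h1 h2
  exact Prod.ext h1 h2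

theorem sol_dvd (p : ℕ) (hp : 0 < p) (ab : Fin p × Fin p) :
    (p : ℤ) ∣ 1 * ((sol p hp ab 0 : ℕ) : ℤ) + 2 * (sol p hp ab 1 : ℕ) + 4 * (sol p hp ab 2 : ℕ) := by
  have e0 : (sol p hp ab 0 : ℕ) = (6 * p - 2 * ab.1 - 4 * ab.2) % p := rfl
  have e1 : (sol p hp ab 1 : ℕ) = ab.1 := rfl
  have e2 : (sol p hp ab 2 : ℕ) = ab.2 := rfl
  rw [e0, e1, e2]
  have h1 := ab.1.2
  have h2 := ab.2.2
  have h3 := Nat.div_add_mod (6 * p - 2 * ab.1 - 4 * ab.2) p
  refine ⟨6 - ((6 * p - 2 * ab.1 - 4 * ab.2) / p : ℕ), ?_⟩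
  generalize (6 * p - 2 * (ab.1 : ℕ) - 4 * (ab.2 : ℕ)) / p = q at *
  generalize hr : (6 * p - 2 * (ab.1 : ℕ) - 4 * (ab.2 : ℕ)) % p = r at *
  have h4 : p * q + r + 2 * ab.1 + 4 * ab.2 = 6 * p := by omega
  have h5 : (p : ℤ) * q + r + 2 * (ab.1 : ℕ) + 4 * (ab.2 : ℕ) = 6 * p := by exact_mod_cast h4
  linear_combination h5

/-- the blocking configuration -/
def blk (p : ℕ) (hp : 1 < p) (t : Fin p) : Fin 3 → Fin p :=
  if (t : ℕ) = 0 then ![⟨0, by omega⟩, ⟨0, by omega⟩, ⟨1, hp⟩]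
  else ![t, ⟨(2 * t) % p, Nat.mod_lt _ (by omega)⟩, ⟨0, by omega⟩]

theorem att_symm {n : ℕ} {x y : Fin 3 → Fin n} (h : Att x y) : Att y x := by
  obtain ⟨t, ht, v, hv, hv1, hd⟩ := h
  refine ⟨-t, neg_ne_zero.mpr ht, v, hv, hv1, fun i => ?_⟩
  have := hd i
  linear_combination -this

theorem blk0 (p : ℕ) (hp : 1 < p) (t : Fin p) (ht : (t : ℕ) = 0) :
    (blk p hp t 0 : ℕ) = 0 ∧ (blk p hp t 1 : ℕ) = 0 ∧ (blk p hp t 2 : ℕ) = 1 := by
  simp [blk, ht]

theorem blk1 (p : ℕ) (hp : 1 < p) (t : Fin p) (ht : (t : ℕ) ≠ 0) :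
    (blk p hp t 0 : ℕ) = t ∧ (blk p hp t 1 : ℕ) = (2 * t) % p ∧ (blk p hp t 2 : ℕ) = 0 := by
  simp [blk, ht]

theorem blk_aux {p : ℕ} (h7 : 7 < p) (s t : Fin p) (hs : (s : ℕ) = 0) (ht : (t : ℕ) ≠ 0) :
    ¬ Att (blk p (by omega) s) (blk p (by omega) t) := by
  rintro ⟨τ, hτ, v, hv, hv1, hd⟩
  obtain ⟨a0, a1, a2⟩ := blk0 p (by omega) s hs
  obtain ⟨b0, b1, b2⟩ := blk1 p (by omega) t ht
  have h0 := hd 0
  have h1 := hd 1
  have h2 := hd 2
  rw [a0, b0] at h0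
  rw [a1, b1] at h1
  rw [a2, b2] at h2
  have ht1 : (t : ℕ) = 1 := by
    rcases hv1 0 with e0 | e0 | e0 <;> rcases hv1 2 with e2 | e2 | e2 <;>
      rw [e0] at h0 <;> rw [e2] at h2 <;> omega
  rw [ht1, Nat.mod_eq_of_lt (by omega)] at h1
  rcases hv1 1 with e0 | e0 | e0 <;> rcases hv1 2 with e2 | e2 | e2 <;>
      rw [e0] at h1 <;> rw [e2] at h2 <;> omega

theorem blk_dvd {p : ℕ} (h7 : 7 < p) (t : Fin p) (ht : (t : ℕ) ≠ 0) :
    (p : ℤ) ∣ 2 * ((blk p (by omega) t 0 : ℕ) : ℤ) + (-1) * (blk p (by omega) t 1 : ℕ) +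
      4 * (blk p (by omega) t 2 : ℕ) := by
  obtain ⟨b0, b1, b2⟩ := blk1 p (by omega) t ht
  rw [b0, b1, b2]
  have h3 := Nat.div_add_mod (2 * t) p
  refine ⟨((2 * t) / p : ℕ), ?_⟩
  generalize (2 * (t : ℕ)) / p = q at *
  generalize (2 * (t : ℕ)) % p = r at *
  have h5 : (p : ℤ) * q + r = 2 * (t : ℕ) := by exact_mod_cast h3
  push_cast
  linear_combination -h5

theorem blk_not_att {p : ℕ} (hp : p.Prime) (h7 : 7 < p) (s t : Fin p) :
    ¬ Att (blk p (by omega) s) (blk p (by omega) t) := by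
  by_cases hs : (s : ℕ) = 0 <;> by_cases ht : (t : ℕ) = 0
  · rintro ⟨τ, hτ, v, hv, hv1, hd⟩
    have : s = t := Fin.ext (by omega)
    subst this
    apply hv
    funext i
    have := hd i
    rw [sub_self] at this
    exact (mul_eq_zero.mp this.symm).resolve_left hτ
  · exact blk_aux h7 s t hs ht
  · exact fun h => blk_aux h7 t s ht hs (att_symm h)
  · refine not_att_of_dvd hp h7 _ _ 2 (-1) 4 ?_ (blk_dvd h7 s hs) (blk_dvd h7 t ht)
    intro u v w hu hv hw hne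
    omega

theorem att_line {n : ℕ} (x y : Fin 3 → Fin n) (i : Fin 3) (hne : (x i : ℕ) ≠ y i)
    (h : ∀ j, j ≠ i → (x j : ℕ) = y j) : Att x y := by
  refine ⟨((y i : ℕ) : ℤ) - (x i : ℕ), by omega, Pi.single i 1, ?_, ?_, ?_⟩
  · intro hh
    have := congrFun hh i
    simp at this
  · intro j
    by_cases hj : j = i
    · subst hj; simp
    · simp [Pi.single_eq_of_ne hj]
  · intro j
    by_cases hj : j = i
    · subst hj; simp
    · simp [Pi.single_eq_of_ne hj, h j hj]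

theorem main {p : ℕ} (hp : p.Prime) (h7 : 7 < p) (P : Finset (Fin 3 → Fin p))
    (hQ : Finset.univ.image (blk p (by omega)) ⊆ P) (hP : ∀ x ∈ P, ∀ y ∈ P, ¬ Att x y) :
    P.card < (Finset.univ.image (sol p (by omega))).card := by
  rw [Finset.card_image_of_injective _ (sol_inj p _)]
  let z : Fin p := ⟨0, by omega⟩
  have h1 : P.card ≤ (Finset.univ.erase (z, z)).card := by
    refine Finset.card_le_card_of_injOn (fun x => (x 1, x 2)) ?_ ?_
    · intro x hx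
      simp only [Finset.coe_erase, Finset.coe_univ, Set.mem_diff, Set.mem_univ,
        Set.mem_singleton_iff, true_and, Prod.mk.injEq]
      rintro ⟨e1, e2⟩
      have e1' : (x 1 : ℕ) = 0 := by rw [e1]
      have e2' : (x 2 : ℕ) = 0 := by rw [e2]
      have hy : blk p (by omega) (x 0) ∈ P := hQ (Finset.mem_image_of_mem _ (Finset.mem_univ _))
      apply hP x hx _ hy
      by_cases h0 : (x 0 : ℕ) = 0
      · obtain ⟨a0, a1, a2⟩ := blk0 p (by omega) (x 0) h0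
        refine att_line _ _ 2 (by omega) ?_
        intro j hj
        fin_cases j
        · exact h0.trans a0.symm
        · exact e1'.trans a1.symm
        · exact absurd rfl hj
      · obtain ⟨a0, a1, a2⟩ := blk1 p (by omega) (x 0) h0
        refine att_line _ _ 1 ?_ ?_
        · rw [e1', a1]
          intro hh
          have hd : p ∣ 2 * (x 0 : ℕ) := Nat.dvd_of_mod_eq_zero hh.symm
          rcases (Nat.Prime.dvd_mul hp).mp hd with h | h
          · have := Nat.le_of_dvd (by omega) h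
            omega
          · have := Nat.le_of_dvd (by omega) h
            have := (x 0).2
            omega
        · intro j hj
          fin_cases j
          · exact a0.symm
          · exact absurd rfl hj
          · exact e2'.trans a2.symm
    · intro x hx y hy hxy
      simp only [Prod.mk.injEq] at hxy
      by_contra hne
      apply hP x hx y hy
      refine att_line _ _ 0 ?_ ?_
      · intro h0
        apply hne
        funext j
        fin_cases j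
        · exact Fin.ext h0
        · exact hxy.1
        · exact hxy.2
      · intro j hj
        fin_cases j
        · exact absurd rfl hj
        · exact congrArg Fin.val hxy.1
        · exact congrArg Fin.val hxy.2
  exact lt_of_le_of_lt h1 (Finset.card_erase_lt_of_mem (Finset.mem_univ _))

theorem counter (c : ℝ) (hc : 0 < c) (N : ℕ) : ∃ n : ℕ, N ≤ n ∧ ∃ Q : Finset (Fin 3 → Fin n),
    (∀ x ∈ Q, ∀ y ∈ Q, ¬ Att x y) ∧ (Q.card : ℝ) ≤ (n : ℝ) ^ (3 - 1) / c ∧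
    ∀ P : Finset (Fin 3 → Fin n), Q ⊆ P → (∀ x ∈ P, ∀ y ∈ P, ¬ Att x y) →
      ∃ R : Finset (Fin 3 → Fin n), (∀ x ∈ R, ∀ y ∈ R, ¬ Att x y) ∧ P.card < R.card := by
  obtain ⟨p, hpN, hp⟩ := Nat.exists_infinite_primes (N + 8 + ⌈c⌉₊)
  have h7 : 7 < p := by omega
  refine ⟨p, by omega, Finset.univ.image (blk p (by omega)), ?_, ?_, ?_⟩
  · intro x hx y hy
    obtain ⟨s, -, rfl⟩ := Finset.mem_image.mp hx
    obtain ⟨t, -, rfl⟩ := Finset.mem_image.mp hy
    exact blk_not_att hp h7 s t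
  · have h1 : (Finset.univ.image (blk p (by omega))).card ≤ p := by
      refine Finset.card_image_le.trans ?_
      simp
    have h2 : ((Finset.univ.image (blk p (by omega))).card : ℝ) ≤ p := by exact_mod_cast h1
    have h3 : c ≤ p := (Nat.le_ceil c).trans (by exact_mod_cast (by omega : ⌈c⌉₊ ≤ p))
    refine h2.trans ?_
    rw [le_div_iff₀ hc]
    have : (0 : ℝ) ≤ p := Nat.cast_nonneg _
    norm_num
    nlinarith
  · intro P hQ hP
    refine ⟨Finset.univ.image (sol p (by omega)), ?_, main hp h7 P hQ hP⟩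
    intro x hx y hy
    obtain ⟨s, -, rfl⟩ := Finset.mem_image.mp hx
    obtain ⟨t, -, rfl⟩ := Finset.mem_image.mp hy
    refine not_att_of_dvd hp h7 _ _ 1 2 4 ?_ (sol_dvd p _ s) (sol_dvd p _ t)
    intro u v w hu hv hw hne
    omega

end Pool.Agent.H230Z.Queens
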