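import Mathlib

set_option autoImplicit false

open Finset

namespace Pool.Agent.H230Z.Star

theorem blowup {V K : Type} [Fintype K] [DecidableEq V] (H : SimpleGraph V) (cl : K → V)
    (w : K → ℕ) (hw : ∀ t, 0 < w t) (A : K → K → Bool) (hsymm : ∀ s t, A s t = A t s)
    (hA : ∀ s t, A s t = true → H.Adj (cl s) (cl t)) (hsurj : Function.Surjective cl)
    (hno : ¬ ∃ a : V → K, (∀ i, cl (a i) = i) ∧ ∀ i j, H.Adj i j → A (a i) (a j) = true) :
    ∃ (m : ℕ) (π : Fin m → V) (G : SimpleGraph (Fin m)), Function.Surjective π ∧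
      (∀ x y, G.Adj x y → H.Adj (π x) (π y)) ∧
      (∀ i, Nat.card {x : Fin m // π x = i} = ∑ t, if cl t = i then w t else 0) ∧
      (∀ i j, Nat.card {p : Fin m × Fin m // π p.1 = i ∧ π p.2 = j ∧ G.Adj p.1 p.2} =
        ∑ s, ∑ t, if cl s = i ∧ cl t = j ∧ A s t = true then w s * w t else 0) ∧
      ¬ ∃ a : V → Fin m, (∀ i, π (a i) = i) ∧ ∀ i j, H.Adj i j → G.Adj (a i) (a j) := by
  classical
  let X := Σ t : K, Fin (w t)
  let ε : Fin (Fintype.card X) ≃ X := (Fintype.equivFin X).symm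
  let ty : Fin (Fintype.card X) → K := fun x => (ε x).1
  let G : SimpleGraph (Fin (Fintype.card X)) :=
    { Adj := fun x y => A (ty x) (ty y) = true
      symm := ⟨fun x y h => by rw [hsymm]; exact h⟩
      loopless := ⟨fun x h => (hA _ _ h).ne rfl⟩ }
  have hsum : ∀ F : K → ℕ, ∑ x, F (ty x) = ∑ t, w t * F t := by
    intro F
    rw [show ∑ x, F (ty x) = ∑ y : X, F y.1 from Equiv.sum_comp ε (fun y => F y.1)]
    rw [Fintype.sum_sigma]
    simp
  refine ⟨Fintype.card X, fun x => cl (ty x), G, ?_, fun x y h => hA _ _ h, ?_, ?_, ?_⟩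
  · intro i
    obtain ⟨t, rfl⟩ := hsurj i
    exact ⟨ε.symm ⟨t, ⟨0, hw t⟩⟩, by simp [ty]⟩
  · intro i
    rw [Nat.subtype_card (univ.filter fun x => cl (ty x) = i) (by simp), Finset.card_filter,
      hsum (fun t => if cl t = i then 1 else 0)]
    simp
  · intro i j
    rw [Nat.subtype_card (univ.filter fun p : Fin (Fintype.card X) × Fin (Fintype.card X) =>
      cl (ty p.1) = i ∧ cl (ty p.2) = j ∧ A (ty p.1) (ty p.2) = true) (by simp [G]),
      Finset.card_filter, Fintype.sum_prod_type]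
    have : ∀ x, ∑ y, (if cl (ty x) = i ∧ cl (ty y) = j ∧ A (ty x) (ty y) = true then 1 else 0) =
        ∑ t, w t * (if cl (ty x) = i ∧ cl t = j ∧ A (ty x) t = true then 1 else 0) :=
      fun x => hsum (fun t => if cl (ty x) = i ∧ cl t = j ∧ A (ty x) t = true then 1 else 0)
    simp only [this]
    rw [hsum (fun s => ∑ t, w t * (if cl s = i ∧ cl t = j ∧ A s t = true then 1 else 0))]
    refine Finset.sum_congr rfl fun s _ => ?_
    rw [Finset.mul_sum]
    refine Finset.sum_congr rfl fun t _ => ?_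
    split_ifs <;> simp
  · rintro ⟨a, h1, h2⟩
    exact hno ⟨fun i => ty (a i), h1, h2⟩

end Pool.Agent.H230Z.Star
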