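import Mathlib

set_option autoImplicit false
set_option maxRecDepth 100000
set_option synthInstance.maxSize 10000

open Finset

namespace Pool.Agent.H230Z.Star

def adjC (v w : Fin 5) : Bool :=
  decide ((v, w) ∈ [((0 : Fin 5), (1 : Fin 5)), (0, 2), (0, 3), (1, 2), (1, 3), (2, 3), (0, 4), (1, 4),
    (1, 0), (2, 0), (3, 0), (2, 1), (3, 1), (3, 2), (4, 0), (4, 1)])

def cap (c : ℚ) (v : Fin 5) : ℚ := if v = 4 then c else 62 / 25

def eC (c : ℚ) (rk : Fin 5 → Fin 5) : ℕ → Fin 5 → ℚ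
  | 0, v => cap c v
  | k + 1, v => cap c v - ∑ w, (if rk v < rk w ∧ adjC v w = true then 1 / eC c rk k w else 0)

def Chk (c lo : ℚ) (rk : Fin 5 → Fin 5) : Prop :=
  (∀ v, 0 < eC c rk 4 v ∧
    eC c rk 4 v + ∑ w, (if rk v < rk w ∧ adjC v w = true then 1 / eC c rk 4 w else 0) ≤ cap c v) ∧
  lo ≤ eC c rk 4 4

instance (c lo : ℚ) (rk : Fin 5 → Fin 5) : Decidable (Chk c lo rk) := by
  unfold Chk; infer_instance

theorem chkA : ∀ a b : Fin 5, a ≠ b → ∀ c : Fin 5, a ≠ c → b ≠ c → ∀ d : Fin 5, a ≠ d → b ≠ d → c ≠ d →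
    ∀ e : Fin 5, a ≠ e → b ≠ e → c ≠ e → d ≠ e → Chk (337 / 200) 0 ![a, b, c, d, e] := by
  decide +kernel

theorem chkB : ∀ a b : Fin 5, a ≠ b → ∀ c : Fin 5, a ≠ c → b ≠ c → ∀ d : Fin 5, a ≠ d → b ≠ d → c ≠ d →
    ∀ e : Fin 5, a ≠ e → b ≠ e → c ≠ e → d ≠ e → Chk (62 / 25) (41 / 50) ![a, b, c, d, e] := by
  decide +kernel

lemma exists_rank (g : Fin 5 → Fin 11) :
    ∃ rk : Fin 5 → Fin 5, ∀ v w, rk v < rk w ↔ g v < g w := by
  have h : ∀ v, (univ.filter fun w => g w < g v).card < 5 := by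
    intro v
    have : (univ.filter fun w => g w < g v) ⊂ univ :=
      Finset.filter_ssubset.2 ⟨v, mem_univ _, lt_irrefl _⟩
    simpa using Finset.card_lt_card this
  refine ⟨fun v => ⟨_, h v⟩, fun v w => ?_⟩
  simp only [Fin.mk_lt_mk]
  constructor
  · intro hlt
    by_contra hc
    have : (univ.filter fun u => g u < g w) ⊆ (univ.filter fun u => g u < g v) := by
      intro u hu
      simp only [Finset.mem_filter, mem_univ, true_and] at hu ⊢
      exact lt_of_lt_of_le hu (not_lt.1 hc)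
    exact absurd (Finset.card_le_card this) (not_le.2 hlt)
  · intro hlt
    apply Finset.card_lt_card
    refine ⟨fun u hu => ?_, fun hsub => ?_⟩
    · simp only [Finset.mem_filter, mem_univ, true_and] at hu ⊢
      exact hu.trans hlt
    · have : v ∈ (univ.filter fun u => g u < g w) := by simpa using hlt
      have := hsub this
      simp at this

def tt (a b : Fin 11) (x : ℚ) : ℚ := if a < b then 1 / x else 0

lemma core (c lo : ℚ)
    (hc : ∀ a b : Fin 5, a ≠ b → ∀ c' : Fin 5, a ≠ c' → b ≠ c' → ∀ d : Fin 5, a ≠ d → b ≠ d → c' ≠ d →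
      ∀ e : Fin 5, a ≠ e → b ≠ e → c' ≠ e → d ≠ e → Chk c lo ![a, b, c', d, e])
    (g0 g1 g2 g3 g4 : Fin 11) (hinj : Function.Injective ![g0, g1, g2, g3, g4]) :
    ∃ e0 e1 e2 e3 e4 : ℚ, 0 < e0 ∧ 0 < e1 ∧ 0 < e2 ∧ 0 < e3 ∧ 0 < e4 ∧ lo ≤ e4 ∧
      e0 + (tt g0 g1 e1 + tt g0 g2 e2 + tt g0 g3 e3 + tt g0 g4 e4) ≤ 62 / 25 ∧
      e1 + (tt g1 g0 e0 + tt g1 g2 e2 + tt g1 g3 e3 + tt g1 g4 e4) ≤ 62 / 25 ∧
      e2 + (tt g2 g0 e0 + tt g2 g1 e1 + tt g2 g3 e3) ≤ 62 / 25 ∧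
      e3 + (tt g3 g0 e0 + tt g3 g1 e1 + tt g3 g2 e2) ≤ 62 / 25 ∧
      e4 + (tt g4 g0 e0 + tt g4 g1 e1) ≤ c := by
  obtain ⟨rk, hrk⟩ := exists_rank ![g0, g1, g2, g3, g4]
  have hne : ∀ v w, v ≠ w → rk v ≠ rk w := by
    intro v w hvw h
    rcases lt_trichotomy (![g0, g1, g2, g3, g4] v) (![g0, g1, g2, g3, g4] w) with h1 | h1 | h1
    · exact absurd ((hrk v w).2 h1) (by rw [h]; exact lt_irrefl _)
    · exact hvw (hinj h1)
    · exact absurd ((hrk w v).2 h1) (by rw [h]; exact lt_irrefl _)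
  have h := hc (rk 0) (rk 1) (hne _ _ (by decide)) (rk 2) (hne _ _ (by decide)) (hne _ _ (by decide))
    (rk 3) (hne _ _ (by decide)) (hne _ _ (by decide)) (hne _ _ (by decide)) (rk 4)
    (hne _ _ (by decide)) (hne _ _ (by decide)) (hne _ _ (by decide)) (hne _ _ (by decide))
  have e : ![rk 0, rk 1, rk 2, rk 3, rk 4] = rk := by
    funext i; fin_cases i <;> rfl
  rw [e] at h
  obtain ⟨h1, h2⟩ := h
  have key : ∀ v w, (if rk v < rk w ∧ adjC v w = true then 1 / eC c rk 4 w else 0) =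
      if adjC v w = true then tt (![g0, g1, g2, g3, g4] v) (![g0, g1, g2, g3, g4] w) (eC c rk 4 w)
      else 0 := by
    intro v w
    unfold tt
    by_cases ha : adjC v w = true <;> simp [ha, hrk]
  simp only [key, Fin.sum_univ_five] at h1
  refine ⟨eC c rk 4 0, eC c rk 4 1, eC c rk 4 2, eC c rk 4 3, eC c rk 4 4, (h1 0).1, (h1 1).1,
    (h1 2).1, (h1 3).1, (h1 4).1, h2, ?_, ?_, ?_, ?_, ?_⟩
  · simpa [adjC, cap] using (h1 0).2
  · simpa [adjC, cap] using (h1 1).2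
  · simpa [adjC, cap] using (h1 2).2
  · simpa [adjC, cap] using (h1 3).2
  · simpa [adjC, cap] using (h1 4).2

def edgesH : List (Fin 11 × Fin 11) :=
  [(0, 1), (0, 2), (0, 3), (1, 2), (1, 3), (2, 3), (0, 4), (1, 4), (5, 6), (5, 7), (5, 8), (6, 7),
    (6, 8), (7, 8), (5, 9), (6, 9), (4, 10), (9, 10)]

def adjH (v w : Fin 11) : Bool := decide ((v, w) ∈ edgesH ∨ (w, v) ∈ edgesH)

lemma coreC (g0 g1 g2 g3 g4 o : Fin 11) (hinj : Function.Injective ![g0, g1, g2, g3, g4])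
    (eo : ℚ) (heo : g4 < o → eo = 63 / 50) :
    ∃ e0 e1 e2 e3 e4 : ℚ, 0 < e0 ∧ 0 < e1 ∧ 0 < e2 ∧ 0 < e3 ∧ 0 < e4 ∧ tt o g4 e4 ≤ 50 / 41 ∧
      e0 + (tt g0 g1 e1 + tt g0 g2 e2 + tt g0 g3 e3 + tt g0 g4 e4) ≤ 62 / 25 ∧
      e1 + (tt g1 g0 e0 + tt g1 g2 e2 + tt g1 g3 e3 + tt g1 g4 e4) ≤ 62 / 25 ∧
      e2 + (tt g2 g0 e0 + tt g2 g1 e1 + tt g2 g3 e3) ≤ 62 / 25 ∧
      e3 + (tt g3 g0 e0 + tt g3 g1 e1 + tt g3 g2 e2) ≤ 62 / 25 ∧
      e4 + (tt g4 g0 e0 + tt g4 g1 e1 + tt g4 o eo) ≤ 62 / 25 := by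
  by_cases h : g4 < o
  · obtain ⟨e0, e1, e2, e3, e4, p0, p1, p2, p3, p4, -, q0, q1, q2, q3, q4⟩ :=
      core _ _ chkA g0 g1 g2 g3 g4 hinj
    refine ⟨e0, e1, e2, e3, e4, p0, p1, p2, p3, p4, ?_, q0, q1, q2, q3, ?_⟩
    · unfold tt
      rw [if_neg (not_lt.2 h.le)]
      norm_num
    · have : tt g4 o eo = 50 / 63 := by
        unfold tt
        rw [if_pos h, heo h]
        norm_num
      rw [this]
      linarith
  · obtain ⟨e0, e1, e2, e3, e4, p0, p1, p2, p3, p4, l, q0, q1, q2, q3, q4⟩ :=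
      core _ _ chkB g0 g1 g2 g3 g4 hinj
    refine ⟨e0, e1, e2, e3, e4, p0, p1, p2, p3, p4, ?_, q0, q1, q2, q3, ?_⟩
    · unfold tt
      split_ifs
      · rw [div_le_iff₀ p4]
        linarith
      · norm_num
    · have : tt g4 o eo = 0 := by
        unfold tt
        rw [if_neg h]
      rw [this]
      linarith

theorem cert (g : Fin 11 → Fin 11) (hg : Function.Injective g) :
    ∃ e : Fin 11 → ℚ, (∀ v, 0 < e v) ∧
      ∀ v, e v + ∑ w, (if g v < g w ∧ adjH v w = true then 1 / e w else 0) ≤ 62 / 25 := by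
  let eo : ℚ := if g 10 < g 4 ∧ g 10 < g 9 then 1 / 25 else 63 / 50
  have i1 : Function.Injective ![g 0, g 1, g 2, g 3, g 4] := by
    have : ![g 0, g 1, g 2, g 3, g 4] = g ∘ ![0, 1, 2, 3, 4] := by
      funext i; fin_cases i <;> rfl
    rw [this]
    exact hg.comp (by decide)
  have i2 : Function.Injective ![g 5, g 6, g 7, g 8, g 9] := by
    have : ![g 5, g 6, g 7, g 8, g 9] = g ∘ ![5, 6, 7, 8, 9] := by
      funext i; fin_cases i <;> rfl
    rw [this]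
    exact hg.comp (by decide)
  obtain ⟨e0, e1, e2, e3, e4, p0, p1, p2, p3, p4, l, q0, q1, q2, q3, q4⟩ :=
    coreC (g 0) (g 1) (g 2) (g 3) (g 4) (g 10) i1 eo
      (fun h => if_neg fun hh => absurd hh.1 (not_lt.2 h.le))
  obtain ⟨e5, e6, e7, e8, e9, p5, p6, p7, p8, p9, l', q5, q6, q7, q8, q9⟩ :=
    coreC (g 5) (g 6) (g 7) (g 8) (g 9) (g 10) i2 eo
      (fun h => if_neg fun hh => absurd hh.2 (not_lt.2 h.le))
  have po : 0 < eo := by
    simp only [eo]; split_ifs <;> norm_num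
  have qo : eo + (tt (g 10) (g 4) e4 + tt (g 10) (g 9) e9) ≤ 62 / 25 := by
    simp only [eo]
    split_ifs with h
    · linarith
    · rcases not_and_or.1 h with h | h
      · have : tt (g 10) (g 4) e4 = 0 := if_neg h
        linarith
      · have : tt (g 10) (g 9) e9 = 0 := if_neg h
        linarith
  have key : ∀ (e : Fin 11 → ℚ) v w, (if g v < g w ∧ adjH v w = true then 1 / e w else 0) =
      if adjH v w = true then tt (g v) (g w) (e w) else 0 := by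
    intro e v w
    unfold tt
    by_cases ha : adjH v w = true <;> simp [ha]
  refine ⟨![e0, e1, e2, e3, e4, e5, e6, e7, e8, e9, eo], ?_, ?_⟩
  · intro v
    fin_cases v <;> assumption
  · intro v
    simp only [key]
    fin_cases v <;> simp [Fin.sum_univ_succ, adjH, edgesH] <;> linarith

end Pool.Agent.H230Z.Star
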