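import Pool.Agent.H230Z.StarCert

set_option autoImplicit false
set_option maxRecDepth 100000
set_option synthInstance.maxSize 10000

open Finset

namespace Pool.Agent.H230Z.Star

lemma adjH_symm : ∀ v w, adjH v w = adjH w v := by decide
lemma adjH_irr : ∀ v, adjH v v = false := by decide

def HH : SimpleGraph (Fin (9 + 2)) where
  Adj v w := adjH v w = true
  symm := ⟨fun v w h => by rw [adjH_symm]; exact h⟩
  loopless := ⟨fun v h => by rw [adjH_irr] at h; exact absurd h (by decide)⟩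

instance : DecidableRel HH.Adj := fun v w => inferInstanceAs (Decidable (adjH v w = true))

lemma HH_conn : HH.Connected := by
  have a : ∀ v w : Fin (9 + 2), adjH v w = true → HH.Reachable v w :=
    fun v w h => SimpleGraph.Adj.reachable (G := HH) h
  have r1 := a 0 1 (by decide)
  have r2 := a 0 2 (by decide)
  have r3 := a 0 3 (by decide)
  have r4 := a 0 4 (by decide)
  have r10 := r4.trans (a 4 10 (by decide))
  have r9 := r10.trans (a 10 9 (by decide))
  have r5 := r9.trans (a 9 5 (by decide))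
  have r6 := r5.trans (a 5 6 (by decide))
  have r7 := r5.trans (a 5 7 (by decide))
  have r8 := r5.trans (a 5 8 (by decide))
  rw [SimpleGraph.connected_iff_exists_forall_reachable]
  refine ⟨0, fun w => ?_⟩
  fin_cases w
  exacts [SimpleGraph.Reachable.refl _, r1, r2, r3, r4, r5, r6, r7, r8, r9, r10]

lemma has_nbr : ∀ v : Fin 11, ∃ w, adjH v w = true := by decide

def cl : Fin 28 → Fin 11 :=
  ![0, 0, 0, 0, 1, 1, 1, 1, 2, 2, 3, 4, 4, 5, 5, 5, 5, 6, 6, 6, 6, 7, 7, 8, 9, 9, 10, 10]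

def wt : Fin 28 → ℕ :=
  ![2408, 1625, 1941, 4026, 2408, 1625, 1941, 4026, 13, 67, 1, 13, 27,
    2408, 1625, 1941, 4026, 2408, 1625, 1941, 4026, 13, 67, 1, 13, 27, 1, 1]

def non : List (Fin 28 × Fin 28) :=
  [(26, 11), (12, 0), (12, 4), (10, 1), (10, 5), (10, 8), (9, 2), (9, 6), (7, 3),
   (27, 24), (25, 13), (25, 17), (23, 14), (23, 18), (23, 21), (22, 15), (22, 19), (20, 16)]

def AA (s t : Fin 28) : Bool := adjH (cl s) (cl t) && !(decide ((s, t) ∈ non ∨ (t, s) ∈ non))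

lemma wt_pos : ∀ t, 0 < wt t := by decide +kernel
lemma AA_symm : ∀ s t, AA s t = AA t s := by decide +kernel
lemma AA_adj : ∀ s t, AA s t = true → adjH (cl s) (cl t) = true := by decide +kernel
lemma cl_surj : ∀ i, ∃ t, cl t = i := by decide +kernel

def sz (i : Fin 11) : ℕ := ∑ t, if cl t = i then wt t else 0
def cnt (i j : Fin 11) : ℕ :=
  ∑ s, ∑ t, if cl s = i ∧ cl t = j ∧ AA s t = true then wt s * wt t else 0

lemma sz_pos : ∀ i, 0 < sz i := by decide +kernel
lemma dens : ∀ i j, adjH i j = true → 3219 * (sz i * sz j) < 3844 * cnt i j := by decide +kernel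

lemma cl10 : ∀ t, cl t = 10 → t = 26 ∨ t = 27 := by decide +kernel

lemma no1 : ∀ a4, cl a4 = 4 → AA a4 26 = true → ∀ a3, cl a3 = 3 → ∀ a2, cl a2 = 2 → AA a2 a3 = true →
    ∀ a1, cl a1 = 1 → AA a1 a2 = true → AA a1 a3 = true → AA a1 a4 = true →
    ∀ a0, cl a0 = 0 → AA a0 a1 = true → AA a0 a2 = true → AA a0 a3 = true → AA a0 a4 = true →
    False := by decide +kernel

lemma no2 : ∀ a4, cl a4 = 9 → AA a4 27 = true → ∀ a3, cl a3 = 8 → ∀ a2, cl a2 = 7 → AA a2 a3 = true →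
    ∀ a1, cl a1 = 6 → AA a1 a2 = true → AA a1 a3 = true → AA a1 a4 = true →
    ∀ a0, cl a0 = 5 → AA a0 a1 = true → AA a0 a2 = true → AA a0 a3 = true → AA a0 a4 = true →
    False := by decide +kernel

lemma no_trans : ¬ ∃ a : Fin (9 + 2) → Fin 28, (∀ i, cl (a i) = i) ∧
    ∀ i j, HH.Adj i j → AA (a i) (a j) = true := by
  rintro ⟨a, h1, h2⟩
  have h3 : ∀ i j, adjH i j = true → AA (a i) (a j) = true := h2
  rcases cl10 _ (h1 10) with h | h
  · exact no1 (a 4) (h1 4) (h ▸ h3 4 10 (by decide)) (a 3) (h1 3) (a 2) (h1 2) (h3 2 3 (by decide))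
      (a 1) (h1 1) (h3 1 2 (by decide)) (h3 1 3 (by decide)) (h3 1 4 (by decide)) (a 0) (h1 0)
      (h3 0 1 (by decide)) (h3 0 2 (by decide)) (h3 0 3 (by decide)) (h3 0 4 (by decide))
  · exact no2 (a 9) (h1 9) (h ▸ h3 9 10 (by decide)) (a 8) (h1 8) (a 7) (h1 7) (h3 7 8 (by decide))
      (a 6) (h1 6) (h3 6 7 (by decide)) (h3 6 8 (by decide)) (h3 6 9 (by decide)) (a 5) (h1 5)
      (h3 5 6 (by decide)) (h3 5 7 (by decide)) (h3 5 8 (by decide)) (h3 5 9 (by decide))

end Pool.Agent.H230Z.Star
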