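import Pool.Agent.H230Z.StarSpec
import Pool.Agent.H230Z.StarTmpl
import Pool.Agent.H230Z.StarBlow

set_option autoImplicit false
set_option maxHeartbeats 400000

open Finset

namespace Pool.Agent.H230Z.Star

lemma dens_real (x y c : ℕ) (hx : 0 < x) (hy : 0 < y) (h : 3219 * (x * y) < 3844 * c) :
    1 - (((62 : ℝ) / 25) ^ 2)⁻¹ < (c : ℝ) / ((x : ℝ) * (y : ℝ)) := by
  have a : (0 : ℝ) < x := by exact_mod_cast hx
  have b : (0 : ℝ) < y := by exact_mod_cast hy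
  have c : (3219 : ℝ) * (x * y) < 3844 * c := by exact_mod_cast h
  rw [lt_div_iff₀ (by positivity)]
  linarith

theorem bad_blowup : ∃ (m : ℕ) (π : Fin m → Fin (9 + 2)) (G : SimpleGraph (Fin m)),
    Function.Surjective π ∧ (∀ x y, G.Adj x y → HH.Adj (π x) (π y)) ∧
    (∀ i j, HH.Adj i j → 1 - (((62 : ℝ) / 25) ^ 2)⁻¹ <
      (Nat.card {p : Fin m × Fin m // π p.1 = i ∧ π p.2 = j ∧ G.Adj p.1 p.2} : ℝ) /
        ((Nat.card {x : Fin m // π x = i} : ℝ) * (Nat.card {x : Fin m // π x = j} : ℝ))) ∧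
    ¬ ∃ a : Fin (9 + 2) → Fin m, (∀ i, π (a i) = i) ∧ ∀ i j, HH.Adj i j → G.Adj (a i) (a j) := by
  obtain ⟨m, π, G, h1, h2, h3, h4, h5⟩ :=
    blowup HH cl wt wt_pos AA AA_symm AA_adj cl_surj no_trans
  refine ⟨m, π, G, h1, h2, fun i j hij => ?_, h5⟩
  rw [h3, h3, h4]
  exact dens_real (sz i) (sz j) (cnt i j) (sz_pos i) (sz_pos j) (dens i j hij)

open Classical in
theorem beta_bound (f : Equiv.Perm (Fin (9 + 2))) (P : Finset (Finset (Fin (9 + 2))))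
    (hP : ∀ S, S ∈ P ↔ (0 : Fin (9 + 2)) ∈ S ∧
      ∀ a ∈ S, ∀ b ∈ S, a < b → (∀ c ∈ S, ¬ (a < c ∧ c < b)) → HH.Adj (f a) (f b))
    (Q : Set ℝ) (hQ : ∀ q, q ∈ Q ↔ ∃ x : Finset (Fin (9 + 2)) → ℝ, ∑ S ∈ P, x S ^ 2 = 1 ∧
      q = ∑ S ∈ P, ∑ T ∈ P, (if (Ch S T ∨ Ch T S) then x S * x T else 0)) :
    1 - (sSup Q ^ 2)⁻¹ ≤ 1 - (((62 : ℝ) / 25) ^ 2)⁻¹ := by
  obtain ⟨w, hw⟩ := has_nbr (f 0)
  obtain ⟨e, he1, he2⟩ := cert f.symm f.symm.injective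
  have hm : 0 < f.symm w := by
    rw [Fin.pos_iff_ne_zero]
    intro h
    have : w = f 0 := by rw [← h]; simp
    rw [this, adjH_irr] at hw
    exact absurd hw (by decide)
  refine beta_le (fun a b => HH.Adj (f a) (f b)) P hP (f.symm w) hm (by rw [Equiv.apply_symm_apply]; exact hw)
    (fun i => (e (f i) : ℝ)) (fun i => by exact_mod_cast he1 (f i)) (62 / 25) (fun i => ?_) Q hQ
  have h := he2 (f i)
  rw [← Equiv.sum_comp f] at h
  simp only [Equiv.symm_apply_apply] at h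
  have h' : ((e (f i) + ∑ j, (if i < j ∧ adjH (f i) (f j) = true then 1 / e (f j) else 0) : ℚ) : ℝ)
      ≤ ((62 / 25 : ℚ) : ℝ) := by exact_mod_cast h
  push_cast at h'
  convert h' using 3 with j
  by_cases hc : i < j ∧ adjH (f i) (f j) = true
  · have hc' : i < j ∧ HH.Adj (f i) (f j) := hc
    rw [if_pos hc, if_pos hc']; simp
  · have hc' : ¬ (i < j ∧ HH.Adj (f i) (f j)) := hc
    rw [if_neg hc, if_neg hc']; simp

end Pool.Agent.H230Z.Star
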