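import Mathlib

set_option autoImplicit false

open Finset
open Classical

namespace Pool.Agent.H230Z.Star

variable {n : ℕ}

def Ch (S T : Finset (Fin (n + 2))) : Prop :=
  ∃ m : Fin (n + 2), m ∉ S ∧ (∀ a ∈ S, a < m) ∧ T = insert m S

noncomputable def top (S : Finset (Fin (n + 2))) : Fin (n + 2) := S.sup id

lemma top_insert {S : Finset (Fin (n + 2))} {m : Fin (n + 2)} (h : ∀ a ∈ S, a < m) :
    top (insert m S) = m := by
  unfold top
  rw [Finset.sup_insert]
  exact sup_eq_left.2 (Finset.sup_le fun a ha => (h a ha).le)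

lemma top_mem {S : Finset (Fin (n + 2))} (h : S.Nonempty) : top S ∈ S := by
  obtain ⟨b, hb, e⟩ := Finset.exists_mem_eq_sup S h id
  unfold top
  rw [e]
  exact hb

lemma le_top' {S : Finset (Fin (n + 2))} {a : Fin (n + 2)} (h : a ∈ S) : a ≤ top S :=
  Finset.le_sup (f := id) h

theorem quad_le (R : Fin (n + 2) → Fin (n + 2) → Prop) (P : Finset (Finset (Fin (n + 2))))
    (hP : ∀ S ∈ P, (0 : Fin (n + 2)) ∈ S ∧
      ∀ a ∈ S, ∀ b ∈ S, a < b → (∀ c ∈ S, ¬ (a < c ∧ c < b)) → R a b)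
    (e : Fin (n + 2) → ℝ) (he : ∀ i, 0 < e i) (lam : ℝ)
    (hl : ∀ i, e i + ∑ j, (if i < j ∧ R i j then 1 / e j else 0) ≤ lam)
    (x : Finset (Fin (n + 2)) → ℝ) :
    ∑ S ∈ P, ∑ T ∈ P, (if (Ch S T ∨ Ch T S) then x S * x T else 0) ≤ lam * ∑ S ∈ P, x S ^ 2 := by
  let φ : Finset (Fin (n + 2)) → Finset (Fin (n + 2)) → ℝ := fun S T =>
    if Ch S T then (x S ^ 2 / e (top T) + e (top T) * x T ^ 2) / 2 else 0
  have hφ0 : ∀ S T, 0 ≤ φ S T := by
    intro S T
    simp only [φ]
    have := he (top T)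
    split_ifs <;> positivity
  have hφ1 : ∀ S T, Ch S T → x S * x T ≤ φ S T := by
    intro S T h
    simp only [φ, if_pos h]
    have h1 := he (top T)
    have : x S ^ 2 / e (top T) + e (top T) * x T ^ 2 - 2 * (x S * x T) =
        (x S - e (top T) * x T) ^ 2 / e (top T) := by
      field_simp
      ring
    have h2 : 0 ≤ (x S - e (top T) * x T) ^ 2 / e (top T) := by positivity
    linarith
  have h1 : ∀ S T, (if (Ch S T ∨ Ch T S) then x S * x T else 0) ≤ φ S T + φ T S := by
    intro S T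
    have a := hφ0 S T
    have b := hφ0 T S
    split_ifs with h
    · rcases h with h | h
      · linarith [hφ1 S T h]
      · have := hφ1 T S h
        linarith [mul_comm (x S) (x T)]
    · linarith
  have h2 : ∑ S ∈ P, ∑ T ∈ P, (φ S T + φ T S) =
      ∑ S ∈ P, x S ^ 2 * (∑ T ∈ P, (if Ch S T then 1 / e (top T) else 0) +
        e (top S) * ∑ T ∈ P, (if Ch T S then 1 else 0)) := by
    simp only [Finset.sum_add_distrib, mul_add]
    rw [Finset.sum_comm (f := fun S T => φ T S), ← two_mul]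
    have : ∀ S T, φ S T = (x S ^ 2 * (if Ch S T then 1 / e (top T) else 0)) / 2 +
        (x T ^ 2 * (e (top T) * (if Ch S T then 1 else 0))) / 2 := by
      intro S T
      simp only [φ]
      split_ifs <;> ring
    simp only [this, Finset.sum_add_distrib, ← Finset.sum_div]
    rw [Finset.sum_comm (f := fun S T => x T ^ 2 * (e (top T) * (if Ch S T then 1 else 0)))]
    simp only [Finset.mul_sum]
    ring
  have h3 : ∀ S ∈ P, ∑ T ∈ P, (if Ch T S then (1 : ℝ) else 0) ≤ 1 := by
    intro S _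
    rw [Finset.sum_boole]
    have : (P.filter fun T => Ch T S).card ≤ 1 := by
      rw [Finset.card_le_one]
      intro a ha b hb
      obtain ⟨m, hm, hm2, e1⟩ := (Finset.mem_filter.1 ha).2
      obtain ⟨m', hm', hm2', e2⟩ := (Finset.mem_filter.1 hb).2
      have : m = m' := by rw [← top_insert hm2, ← e1, e2, top_insert hm2']
      subst this
      rw [← Finset.erase_insert hm, ← e1, e2, Finset.erase_insert hm']
    exact_mod_cast this
  have h4 : ∀ S ∈ P, ∑ T ∈ P, (if Ch S T then 1 / e (top T) else 0) ≤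
      ∑ j, (if top S < j ∧ R (top S) j then 1 / e j else 0) := by
    intro S hS
    have hne : S.Nonempty := ⟨0, (hP S hS).1⟩
    rw [← Finset.sum_filter, ← Finset.sum_filter]
    have hsub : (P.filter fun T => Ch S T) ⊆
        (univ.filter fun j => top S < j ∧ R (top S) j).image fun j => insert j S := by
      intro T hT
      obtain ⟨hTP, m, hm, hm2, rfl⟩ := Finset.mem_filter.1 hT
      refine Finset.mem_image.2 ⟨m, Finset.mem_filter.2 ⟨mem_univ _, hm2 _ (top_mem hne), ?_⟩, rfl⟩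
      refine (hP _ hTP).2 _ (Finset.mem_insert_of_mem (top_mem hne)) _ (Finset.mem_insert_self _ _)
        (hm2 _ (top_mem hne)) ?_
      rintro c hc ⟨hc1, hc2⟩
      rcases Finset.mem_insert.1 hc with rfl | hc
      · exact lt_irrefl _ hc2
      · exact absurd (le_top' hc) (not_le.2 hc1)
    have htop : ∀ j ∈ (univ.filter fun j => top S < j ∧ R (top S) j), top (insert j S) = j := by
      intro j hj
      exact top_insert fun a ha => lt_of_le_of_lt (le_top' ha) (Finset.mem_filter.1 hj).2.1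
    calc ∑ T ∈ P.filter (fun T => Ch S T), 1 / e (top T)
        ≤ ∑ T ∈ (univ.filter fun j => top S < j ∧ R (top S) j).image (fun j => insert j S),
            1 / e (top T) :=
          Finset.sum_le_sum_of_subset_of_nonneg hsub fun T _ _ => (one_div_pos.2 (he _)).le
      _ = ∑ j ∈ (univ.filter fun j => top S < j ∧ R (top S) j), 1 / e (top (insert j S)) := by
          rw [Finset.sum_image]
          intro a ha b hb hab
          have hab' : insert a S = insert b S := hab
          rw [← htop a ha, hab', htop b hb]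
      _ = _ := Finset.sum_congr rfl fun j hj => by rw [htop j hj]
  calc _ ≤ ∑ S ∈ P, ∑ T ∈ P, (φ S T + φ T S) :=
        Finset.sum_le_sum fun S _ => Finset.sum_le_sum fun T _ => h1 S T
    _ = _ := h2
    _ ≤ ∑ S ∈ P, x S ^ 2 * lam := by
        refine Finset.sum_le_sum fun S hS => mul_le_mul_of_nonneg_left ?_ (sq_nonneg _)
        have a := h3 S hS
        have b := h4 S hS
        have c := hl (top S)
        have d := he (top S)
        nlinarith
    _ = _ := by rw [← Finset.sum_mul, mul_comm]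

theorem quad_pos (P : Finset (Finset (Fin (n + 2)))) (m : Fin (n + 2)) (hm : 0 < m)
    (h0 : {0} ∈ P) (h1 : insert m {0} ∈ P) :
    ∃ x : Finset (Fin (n + 2)) → ℝ, ∑ S ∈ P, x S ^ 2 = 1 ∧
      0 < ∑ S ∈ P, ∑ T ∈ P, (if (Ch S T ∨ Ch T S) then x S * x T else 0) := by
  have hmn : m ∉ ({0} : Finset (Fin (n + 2))) := by
    rw [Finset.mem_singleton]; exact hm.ne'
  have hne : (insert m {0} : Finset (Fin (n + 2))) ≠ {0} := by
    intro h
    apply hmn
    rw [← h]
    exact Finset.mem_insert_self _ _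
  let x : Finset (Fin (n + 2)) → ℝ :=
    fun S => if S = {0} then 3 / 5 else if S = insert m {0} then 4 / 5 else 0
  have hx0 : ∀ S, 0 ≤ x S := by
    intro S
    simp only [x]
    split_ifs <;> norm_num
  have xa : x {0} = 3 / 5 := by simp [x]
  have xb : x (insert m {0}) = 4 / 5 := by simp only [x, if_neg hne, if_true]
  refine ⟨x, ?_, ?_⟩
  · rw [Finset.sum_eq_add_of_mem _ _ h0 h1 hne.symm, xa, xb]
    · norm_num
    · intro c _ hc
      simp only [x, if_neg hc.1, if_neg hc.2]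
      norm_num
  · have hnn : ∀ S T, 0 ≤ (if (Ch S T ∨ Ch T S) then x S * x T else 0) := by
      intro S T
      split_ifs
      · exact mul_nonneg (hx0 S) (hx0 T)
      · exact le_rfl
    refine lt_of_lt_of_le ?_ (Finset.single_le_sum (f := fun S =>
      ∑ T ∈ P, (if (Ch S T ∨ Ch T S) then x S * x T else 0))
      (fun S _ => Finset.sum_nonneg fun T _ => hnn S T) h0)
    refine lt_of_lt_of_le ?_ (Finset.single_le_sum (f := fun T =>
      (if (Ch {0} T ∨ Ch T {0}) then x {0} * x T else 0)) (fun T _ => hnn _ T) h1)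
    have : Ch ({0} : Finset (Fin (n + 2))) (insert m {0}) :=
      ⟨m, hmn, fun a ha => by rw [Finset.mem_singleton.1 ha]; exact hm, rfl⟩
    simp only [this, true_or, if_true, xa, xb]
    norm_num

theorem beta_le (R : Fin (n + 2) → Fin (n + 2) → Prop) (P : Finset (Finset (Fin (n + 2))))
    (hP : ∀ S, S ∈ P ↔ (0 : Fin (n + 2)) ∈ S ∧
      ∀ a ∈ S, ∀ b ∈ S, a < b → (∀ c ∈ S, ¬ (a < c ∧ c < b)) → R a b)
    (m : Fin (n + 2)) (hm : 0 < m) (hR : R 0 m)
    (e : Fin (n + 2) → ℝ) (he : ∀ i, 0 < e i) (lam : ℝ)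
    (hl : ∀ i, e i + ∑ j, (if i < j ∧ R i j then 1 / e j else 0) ≤ lam)
    (Q : Set ℝ) (hQ : ∀ q, q ∈ Q ↔ ∃ x : Finset (Fin (n + 2)) → ℝ, ∑ S ∈ P, x S ^ 2 = 1 ∧
      q = ∑ S ∈ P, ∑ T ∈ P, (if (Ch S T ∨ Ch T S) then x S * x T else 0)) :
    1 - (sSup Q ^ 2)⁻¹ ≤ 1 - (lam ^ 2)⁻¹ := by
  have hub : ∀ q ∈ Q, q ≤ lam := by
    intro q hq
    obtain ⟨x, hx, rfl⟩ := (hQ q).1 hq
    have := quad_le R P (fun S hS => (hP S).1 hS) e he lam hl x
    rwa [hx, mul_one] at this
  have h0 : ({0} : Finset (Fin (n + 2))) ∈ P := by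
    rw [hP]
    refine ⟨Finset.mem_singleton_self _, fun a ha b hb hab => ?_⟩
    rw [Finset.mem_singleton.1 ha, Finset.mem_singleton.1 hb] at hab
    exact absurd hab (lt_irrefl _)
  have h1 : (insert m {0} : Finset (Fin (n + 2))) ∈ P := by
    rw [hP]
    refine ⟨by simp, fun a ha b hb hab _ => ?_⟩
    simp only [Finset.mem_insert, Finset.mem_singleton] at ha hb
    rcases ha with rfl | rfl <;> rcases hb with rfl | rfl
    · exact absurd hab (lt_irrefl _)
    · exact absurd hab (not_lt.2 hm.le)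
    · exact hR
    · exact absurd hab (lt_irrefl _)
  obtain ⟨x, hx1, hx2⟩ := quad_pos P m hm h0 h1
  have hmem : _ ∈ Q := (hQ _).2 ⟨x, hx1, rfl⟩
  have hpos : 0 < sSup Q := lt_of_lt_of_le hx2 (le_csSup ⟨lam, hub⟩ hmem)
  have hle : sSup Q ≤ lam := csSup_le ⟨_, hmem⟩ hub
  have : (lam ^ 2)⁻¹ ≤ (sSup Q ^ 2)⁻¹ :=
    inv_anti₀ (by positivity) (pow_le_pow_left₀ hpos.le hle 2)
  linarith

end Pool.Agent.H230Z.Star
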